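import Mathlib

/-!
# EMT / Box: positivity of a polynomial in three variables on a region, by check

A polynomial in one variable is a list of integers (lowest degree first), in two (three) variables
a list of polynomials in one (two) variables.  `pos3` checks that all Bernstein coefficients of a
polynomial on a box are nonnegative; `chkT` walks through a tree of boxes, on every leaf either the
polynomial itself or one of the polynomials `N_j` (negative constraints) is checked.
-/

set_option autoImplicit false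

namespace Pool.Agent.EMT

/-- Operations on coefficients. -/
structure Ops (α : Type) where
  add : α → α → α
  smul : ℤ → α → α
  zero : α

section
variable {α : Type}

def addL (o : Ops α) : List α → List α → List α
  | [], b => b
  | a :: as, [] => a :: as
  | a :: as, b :: bs => o.add a b :: addL o as bs

def smulL (o : Ops α) (c : ℤ) (a : List α) : List α := a.map (o.smul c)

/-- The form `(A x₀ + B x₁) h`. -/
def mulLin (o : Ops α) (A B : ℤ) (h : List α) : List α :=
  addL o (smulL o A h) (o.zero :: smulL o B h)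

def opsZ : Ops ℤ := ⟨fun a b => a + b, fun a b => a * b, 0⟩

def opsL (o : Ops α) : Ops (List α) := ⟨addL o, smulL o, []⟩

/-- The forms `(q (x₀ + x₁)) ^ n` and `q ^ (n - 1) p ((A x₀ + B x₁) / q)`, homogeneous of degree
`n` and `n - 1` for a list `p` of length `n`. -/
def hT (o : Ops α) (A B q : ℤ) : List α → List ℤ × List α
  | [] => ([1], [])
  | c :: cs =>
    ((mulLin opsZ q q (hT o A B q cs).1),
      addL o ((hT o A B q cs).1.map fun r => o.smul r c) (mulLin o A B (hT o A B q cs).2))

/-! ### evaluation -/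

/-- Value of a polynomial with coefficients valued by `φ`. -/
def ev (φ : α → ℝ) (x : ℝ) : List α → ℝ
  | [] => 0
  | a :: as => φ a + x * ev φ x as

/-- Value of a binary form. -/
def hev (φ : α → ℝ) (x0 x1 : ℝ) : List α → ℝ
  | [] => 0
  | a :: as => φ a * x0 ^ as.length + x1 * hev φ x0 x1 as

/-- `φ` is linear. -/
structure Lin (o : Ops α) (φ : α → ℝ) : Prop where
  add : ∀ a b, φ (o.add a b) = φ a + φ b
  smul : ∀ (c : ℤ) a, φ (o.smul c a) = c * φ a
  zero : φ o.zero = 0

lemma linZ : Lin opsZ (fun a : ℤ => (a : ℝ)) :=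
  ⟨fun a b => by simp [opsZ], fun c a => by simp [opsZ], by simp [opsZ]⟩

lemma ev_addL {o : Ops α} {φ : α → ℝ} (h : Lin o φ) (x : ℝ) (a b : List α) :
    ev φ x (addL o a b) = ev φ x a + ev φ x b := by
  induction a generalizing b with
  | nil => simp [addL, ev]
  | cons a as ih =>
    cases b with
    | nil => simp [addL, ev]
    | cons b bs => simp only [addL, ev, h.add, ih]; ring

lemma ev_smulL {o : Ops α} {φ : α → ℝ} (h : Lin o φ) (x : ℝ) (c : ℤ) (a : List α) :
    ev φ x (smulL o c a) = c * ev φ x a := by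
  induction a with
  | nil => simp [smulL, ev]
  | cons a as ih =>
    simp only [smulL, List.map_cons, ev, h.smul] at ih ⊢
    rw [ih]; ring

lemma linL {o : Ops α} {φ : α → ℝ} (h : Lin o φ) (x : ℝ) : Lin (opsL o) (ev φ x) :=
  ⟨fun a b => ev_addL h x a b, fun c a => ev_smulL h x c a, rfl⟩

lemma length_addL (o : Ops α) (a b : List α) : (addL o a b).length = max a.length b.length := by
  induction a generalizing b with
  | nil => simp [addL]
  | cons a as ih =>
    cases b with
    | nil => simp [addL]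
    | cons b bs => simp [addL, ih]

lemma hev_addL {o : Ops α} {φ : α → ℝ} (h : Lin o φ) (x0 x1 : ℝ) (a b : List α)
    (hl : a.length = b.length) :
    hev φ x0 x1 (addL o a b) = hev φ x0 x1 a + hev φ x0 x1 b := by
  induction a generalizing b with
  | nil =>
    have : b = [] := List.eq_nil_of_length_eq_zero hl.symm
    subst this; simp [addL, hev]
  | cons a as ih =>
    cases b with
    | nil => simp at hl
    | cons b bs =>
      have hl' : as.length = bs.length := by simpa using hl
      simp only [addL, hev, h.add, ih bs hl', length_addL, hl', max_self]; ring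

lemma hev_addL' {o : Ops α} {φ : α → ℝ} (h : Lin o φ) (x0 x1 : ℝ) (a b : List α)
    (hl : a.length + 1 = b.length) :
    hev φ x0 x1 (addL o a b) = x0 * hev φ x0 x1 a + hev φ x0 x1 b := by
  induction a generalizing b with
  | nil => simp [addL, hev]
  | cons a as ih =>
    cases b with
    | nil => simp at hl
    | cons b bs =>
      have hl' : as.length + 1 = bs.length := by simpa using hl
      have hm : max as.length bs.length = as.length + 1 := by omega
      simp only [addL, hev, h.add, ih bs hl', length_addL, hm]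
      rw [← hl']; ring

lemma length_smulL (o : Ops α) (c : ℤ) (a : List α) : (smulL o c a).length = a.length := by
  simp [smulL]

lemma hev_smulL {o : Ops α} {φ : α → ℝ} (h : Lin o φ) (x0 x1 : ℝ) (c : ℤ) (a : List α) :
    hev φ x0 x1 (smulL o c a) = c * hev φ x0 x1 a := by
  induction a with
  | nil => simp [smulL, hev]
  | cons a as ih =>
    simp only [smulL, List.map_cons, hev, h.smul, List.length_map] at ih ⊢
    rw [ih]; ring

lemma length_mulLin (o : Ops α) (A B : ℤ) (a : List α) :
    (mulLin o A B a).length = a.length + 1 := by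
  simp [mulLin, length_addL, length_smulL]

lemma hev_mulLin {o : Ops α} {φ : α → ℝ} (h : Lin o φ) (x0 x1 : ℝ) (A B : ℤ) (a : List α) :
    hev φ x0 x1 (mulLin o A B a) = (A * x0 + B * x1) * hev φ x0 x1 a := by
  rw [mulLin, hev_addL' h _ _ _ _ (by simp [length_smulL]), hev_smulL h]
  simp only [hev, h.zero, hev_smulL h]; ring

lemma hev_map (o : Ops α) {φ : α → ℝ} (h : Lin o φ) (x0 x1 : ℝ) (c : α) (r : List ℤ) :
    hev φ x0 x1 (r.map fun s => o.smul s c) = hev (fun a : ℤ => (a : ℝ)) x0 x1 r * φ c := by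
  induction r with
  | nil => simp [hev]
  | cons a as ih =>
    simp only [List.map_cons, hev, h.smul, List.length_map, ih]; ring

lemma hT_spec {o : Ops α} {φ : α → ℝ} (h : Lin o φ) {A B q : ℤ} {x0 x1 y : ℝ}
    (hx : x0 + x1 = 1) (hy : A * x0 + B * x1 = q * y) (p : List α) :
    (hT o A B q p).1.length = p.length + 1 ∧ (hT o A B q p).2.length = p.length ∧
    hev (fun a : ℤ => (a : ℝ)) x0 x1 (hT o A B q p).1 = (q : ℝ) ^ p.length ∧
    q * hev φ x0 x1 (hT o A B q p).2 = (q : ℝ) ^ p.length * ev φ y p := by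
  induction p with
  | nil => simp [hT, hev, ev]
  | cons c cs ih =>
    obtain ⟨h1, h2, h3, h4⟩ := ih
    have hq : (q : ℝ) * x0 + q * x1 = q := by rw [← mul_add, hx, mul_one]
    refine ⟨?_, ?_, ?_, ?_⟩
    · simp only [hT, length_mulLin, h1, List.length_cons]
    · simp only [hT, length_addL, List.length_map, h1, length_mulLin, h2, List.length_cons,
        max_self]
    · simp only [hT, hev_mulLin linZ, h3, hq, List.length_cons]; ring
    · simp only [hT]
      rw [hev_addL h _ _ _ _ (by simp [h1, h2, length_mulLin]), hev_map o h, h3, hev_mulLin h, hy]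
      simp only [ev, List.length_cons]
      calc (q : ℝ) * ((q : ℝ) ^ cs.length * φ c + q * y * hev φ x0 x1 (hT o A B q cs).2)
          = (q : ℝ) * (q : ℝ) ^ cs.length * φ c
            + q * y * (q * hev φ x0 x1 (hT o A B q cs).2) := by ring
        _ = _ := by rw [h4]; ring

lemma hev_nonneg {φ : α → ℝ} {x0 x1 : ℝ} (h0 : 0 ≤ x0) (h1 : 0 ≤ x1) (p : List α)
    (h : ∀ a ∈ p, 0 ≤ φ a) : 0 ≤ hev φ x0 x1 p := by
  induction p with
  | nil => simp [hev]
  | cons a as ih =>
    simp only [hev]
    have h2 : 0 ≤ φ a := h a (by simp)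
    have h3 := ih fun b hb => h b (by simp [hb])
    positivity

/-- Check in the outer variable. -/
def posL (o : Ops α) (pos : α → Bool) (A B q : ℤ) (p : List α) : Bool :=
  (hT o A B q p).2.all pos

lemma posL_sound {o : Ops α} {φ : α → ℝ} (h : Lin o φ) {pos : α → Bool}
    (hpos : ∀ a, pos a = true → 0 ≤ φ a) {A B q : ℤ} (hq : 0 < q) (hAB : A ≤ B) {y : ℝ}
    (h1 : (A : ℝ) ≤ q * y) (h2 : (q : ℝ) * y ≤ B) (p : List α)
    (hc : posL o pos A B q p = true) : 0 ≤ ev φ y p := by
  have hq' : (0 : ℝ) < q := by exact_mod_cast hq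
  have hAB' : (A : ℝ) ≤ B := by exact_mod_cast hAB
  obtain ⟨x0, x1, hx0, hx1, hx, hy⟩ : ∃ x0 x1 : ℝ, 0 ≤ x0 ∧ 0 ≤ x1 ∧ x0 + x1 = 1 ∧
      A * x0 + B * x1 = q * y := by
    rcases eq_or_lt_of_le hAB' with hE | hlt
    · exact ⟨1, 0, by norm_num, le_rfl, by norm_num, by
        rw [mul_one, mul_zero, add_zero]; linarith⟩
    · have hd : (0 : ℝ) < B - A := by linarith
      refine ⟨(B - q * y) / (B - A), (q * y - A) / (B - A), div_nonneg (by linarith) hd.le,
        div_nonneg (by linarith) hd.le, ?_, ?_⟩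
      · field_simp; ring
      · field_simp; ring
  obtain ⟨-, -, -, h4⟩ := hT_spec h hx hy p
  have h5 : 0 ≤ hev φ x0 x1 (hT o A B q p).2 := by
    refine hev_nonneg hx0 hx1 _ fun a ha => hpos a ?_
    rw [posL, List.all_eq_true] at hc
    exact hc a ha
  have h6 : 0 ≤ (q : ℝ) ^ p.length * ev φ y p := by rw [← h4]; positivity
  exact nonneg_of_mul_nonneg_right h6 (by positivity)

end

/-! ### three variables -/

/-- A rational interval `[A / q, B / q]`. -/
structure Iv where
  A : ℤ
  B : ℤ
  q : ℤ

def Iv.ok (i : Iv) : Bool := decide (0 < i.q) && decide (i.A ≤ i.B)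

def Iv.mem (i : Iv) (x : ℝ) : Prop := (i.A : ℝ) ≤ i.q * x ∧ (i.q : ℝ) * x ≤ i.B

def Iv.lo (i : Iv) : Iv := ⟨2 * i.A, i.A + i.B, 2 * i.q⟩
def Iv.hi (i : Iv) : Iv := ⟨i.A + i.B, 2 * i.B, 2 * i.q⟩

abbrev P3 := List (List (List ℤ))

noncomputable def eval3 (p : P3) (x y z : ℝ) : ℝ :=
  ev (ev (ev (fun a : ℤ => (a : ℝ)) z) y) x p

def pos1 (i : Iv) : List ℤ → Bool := posL opsZ (fun a => decide (0 ≤ a)) i.A i.B i.q
def pos2 (i j : Iv) : List (List ℤ) → Bool := posL (opsL opsZ) (pos1 j) i.A i.B i.q
def pos3 (i j k : Iv) : P3 → Bool := posL (opsL (opsL opsZ)) (pos2 j k) i.A i.B i.q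

lemma Iv.ok_iff {i : Iv} : i.ok = true ↔ 0 < i.q ∧ i.A ≤ i.B := by simp [Iv.ok]

lemma pos3_sound {i j k : Iv} (hi : i.ok = true) (hj : j.ok = true) (hk : k.ok = true) {x y z : ℝ}
    (hx : i.mem x) (hy : j.mem y) (hz : k.mem z) (p : P3) (h : pos3 i j k p = true) :
    0 ≤ eval3 p x y z := by
  rw [Iv.ok_iff] at hi hj hk
  refine posL_sound (linL (linL linZ z) y) (fun a ha => ?_) hi.1 hi.2 hx.1 hx.2 p h
  refine posL_sound (linL linZ z) (fun b hb => ?_) hj.1 hj.2 hy.1 hy.2 a ha
  refine posL_sound linZ (fun c hc => ?_) hk.1 hk.2 hz.1 hz.2 b hb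
  have : 0 ≤ c := by simpa using hc
  exact_mod_cast this

/-- Trees of boxes. -/
inductive Tr where
  /-- the polynomial is nonnegative on the box -/
  | p : Tr
  /-- the polynomial `N j` is nonnegative on the box -/
  | c : ℕ → Tr
  /-- halve the box in direction `0`, `1` or `2` -/
  | s : ℕ → Tr → Tr → Tr

def chkT (P : P3) (N : List P3) : Tr → Iv → Iv → Iv → Bool
  | .p, i, j, k => pos3 i j k P
  | .c n, i, j, k => match N[n]? with
    | some Q => pos3 i j k Q
    | none => false
  | .s a l r, i, j, k => match a with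
    | 0 => chkT P N l i.lo j k && chkT P N r i.hi j k
    | 1 => chkT P N l i j.lo k && chkT P N r i j.hi k
    | _ => chkT P N l i j k.lo && chkT P N r i j k.hi

lemma Iv.lo_ok {i : Iv} (h : i.ok = true) : i.lo.ok = true := by
  rw [Iv.ok_iff] at h ⊢; simp only [Iv.lo]; omega

lemma Iv.hi_ok {i : Iv} (h : i.ok = true) : i.hi.ok = true := by
  rw [Iv.ok_iff] at h ⊢; simp only [Iv.hi]; omega

lemma Iv.mem_or {i : Iv} {x : ℝ} (h : i.mem x) : i.lo.mem x ∨ i.hi.mem x := by
  rcases le_total (2 * (i.q : ℝ) * x) (i.A + i.B) with h1 | h1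
  · left; refine ⟨?_, ?_⟩ <;> simp only [Iv.lo] <;> push_cast <;> linarith [h.1, h.2]
  · right; refine ⟨?_, ?_⟩ <;> simp only [Iv.hi] <;> push_cast <;> linarith [h.1, h.2]

/-- If every `N j` is negative at the point and the check succeeds, then `P` is nonnegative at the
point. -/
theorem chkT_sound {P : P3} {N : List P3} {x y z : ℝ} (hN : ∀ Q ∈ N, eval3 Q x y z < 0) (t : Tr)
    {i j k : Iv} (hi : i.ok = true) (hj : j.ok = true) (hk : k.ok = true)
    (hx : i.mem x) (hy : j.mem y) (hz : k.mem z) (h : chkT P N t i j k = true) :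
    0 ≤ eval3 P x y z := by
  induction t generalizing i j k with
  | p => exact pos3_sound hi hj hk hx hy hz P h
  | c n =>
    simp only [chkT] at h
    split at h
    · rename_i Q hQ
      have h1 := pos3_sound hi hj hk hx hy hz Q h
      have h2 := hN Q (List.mem_of_getElem? hQ)
      linarith
    · simp at h
  | s a l r ihl ihr =>
    match a, h with
    | 0, h =>
      simp only [chkT, Bool.and_eq_true] at h
      rcases Iv.mem_or hx with h1 | h1
      · exact ihl (Iv.lo_ok hi) hj hk h1 hy hz h.1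
      · exact ihr (Iv.hi_ok hi) hj hk h1 hy hz h.2
    | 1, h =>
      simp only [chkT, Bool.and_eq_true] at h
      rcases Iv.mem_or hy with h1 | h1
      · exact ihl hi (Iv.lo_ok hj) hk hx h1 hz h.1
      · exact ihr hi (Iv.hi_ok hj) hk hx h1 hz h.2
    | (a + 2), h =>
      simp only [chkT, Bool.and_eq_true] at h
      rcases Iv.mem_or hz with h1 | h1
      · exact ihl hi hj (Iv.lo_ok hk) hx hy h1 h.1
      · exact ihr hi hj (Iv.hi_ok hk) hx hy h1 h.2

end Pool.Agent.EMT
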