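import Mathlib

/-!
Elimination of the lengths in the inequalities of a double star.
-/

set_option autoImplicit false

namespace Pool.Agent.EMT

/-- the square of the distance of the end points of two edges at the two ends of an edge of
length one -/
def DD (l m t u w : ℝ) : ℝ := l ^ 2 + m ^ 2 + 1 - 2 * l * t - 2 * m * u + 2 * l * m * (t * u - w)

/-- a function `A / m + B m` lies below one of its end values -/
theorem conv_end {A B a b m : ℝ} (hA : 0 ≤ A) (ha : 0 < a) (ham : a ≤ m) (hmb : m ≤ b) :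
    A / m + B * m ≤ A / b + B * b ∨ A / m + B * m ≤ A / a + B * a := by
  have hm : 0 < m := lt_of_lt_of_le ha ham
  have hb : 0 < b := lt_of_lt_of_le hm hmb
  rcases le_total (A / (m * b)) B with h | h
  · left
    have e1 : A / b + B * b - (A / m + B * m) = (b - m) * (B - A / (m * b)) := by
      field_simp
      ring
    have h2 : 0 ≤ (b - m) * (B - A / (m * b)) := mul_nonneg (by linarith) (by linarith)
    linarith
  · right
    have e1 : A / a + B * a - (A / m + B * m) = (m - a) * (A / (m * a) - B) := by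
      field_simp
      ring
    have h3 : A / (m * b) ≤ A / (m * a) := by
      apply div_le_div_of_nonneg_left hA (by positivity)
      exact mul_le_mul_of_nonneg_left (le_trans ham hmb) hm.le
    have h2 : 0 ≤ (m - a) * (A / (m * a) - B) := mul_nonneg (by linarith) (by linarith)
    linarith

/-- the bound for `w` from `|x - y| ≥ |x - a|` -/
theorem w_le_l {l m t u w : ℝ} (hl : 0 < l) (hm : 0 < m) (h : l ^ 2 ≤ DD l m t u w) :
    w ≤ 1 / l * ((m ^ 2 + 1) / (2 * m) - u) - t / m + t * u := by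
  unfold DD at h
  have e1 : 1 / l * ((m ^ 2 + 1) / (2 * m) - u) - t / m + t * u - w =
      (m ^ 2 + 1 - 2 * l * t - 2 * m * u + 2 * l * m * (t * u - w)) / (2 * l * m) := by
    field_simp
    ring
  have h2 : 0 ≤ (m ^ 2 + 1 - 2 * l * t - 2 * m * u + 2 * l * m * (t * u - w)) / (2 * l * m) :=
    div_nonneg (by linarith) (by positivity)
  linarith

/-- the bound for `w` from `|x - y| ≥ 1` -/
theorem w_le_1 {l m t u w : ℝ} (hl : 0 < l) (hm : 0 < m) (h : 1 ≤ DD l m t u w) :
    w ≤ l / (2 * m) + m / (2 * l) - t / m - u / l + t * u := by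
  unfold DD at h
  have e1 : l / (2 * m) + m / (2 * l) - t / m - u / l + t * u - w =
      (l ^ 2 + m ^ 2 - 2 * l * t - 2 * m * u + 2 * l * m * (t * u - w)) / (2 * l * m) := by
    field_simp
    ring
  have h2 : 0 ≤ (l ^ 2 + m ^ 2 - 2 * l * t - 2 * m * u + 2 * l * m * (t * u - w)) /
      (2 * l * m) := div_nonneg (by linarith) (by positivity)
  linarith

theorem t_le_half {l t : ℝ} (h1 : 2 * t ≤ l) (h1' : 2 * l * t ≤ 1) : t ≤ 1 / 2 := by
  by_contra h
  push Not at h
  nlinarith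

/-- the ends of the interval for the ratio -/
theorem fin_NN {t u r w : ℝ} (ht : t ≤ 1 / 2) (hr1 : r ≤ 1) (hr2 : 1 / 2 ≤ r) (hru : 2 * u ≤ r)
    (hw : w ≤ (1 / 2 - t) / r + 1 / 2 * r - u + t * u) :
    w ≤ (1 - t) * (1 - u) ∨ (u ≤ 1 / 4 ∧ t ≤ 1 / 4 ∧ w ≤ 5 / 4 - 2 * t - u + t * u) ∨
      (1 / 4 ≤ u ∧ 4 * u * (w - t * u) ≤ 1 - 2 * t) := by
  have hA : 0 ≤ 1 / 2 - t := by linarith
  rcases le_total u (1 / 4) with hu | hu
  · rcases conv_end (B := 1 / 2) hA (by norm_num : (0 : ℝ) < 1 / 2) hr2 hr1 with h | h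
    · left
      have e1 : (1 / 2 - t) / 1 + 1 / 2 * 1 = 1 - t := by ring
      rw [e1] at h
      nlinarith
    · have e1 : (1 / 2 - t) / (1 / 2) + 1 / 2 * (1 / 2) = 5 / 4 - 2 * t := by ring
      rw [e1] at h
      rcases le_total t (1 / 4) with ht4 | ht4
      · right; left
        exact ⟨hu, ht4, by linarith⟩
      · left
        nlinarith
  · have h0 : 0 < 2 * u := by linarith
    rcases conv_end (B := 1 / 2) hA h0 hru hr1 with h | h
    · left
      have e1 : (1 / 2 - t) / 1 + 1 / 2 * 1 = 1 - t := by ring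
      rw [e1] at h
      nlinarith
    · right; right
      refine ⟨hu, ?_⟩
      have h2 : w - t * u ≤ (1 / 2 - t) / (2 * u) := by linarith
      have h3 := mul_le_mul_of_nonneg_left h2 (by linarith : (0 : ℝ) ≤ 4 * u)
      have e1 : 4 * u * ((1 / 2 - t) / (2 * u)) = 1 - 2 * t := by
        field_simp
        ring
      rw [e1] at h3
      exact h3

/-- the case of two long edges, the first one at least as long as the second one -/
theorem dom_NN1 {l m t u w : ℝ} (hl : 0 < l) (hm : 0 < m) (h1 : 2 * t ≤ l) (h1' : 2 * l * t ≤ 1)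
    (h2 : 2 * u ≤ m) (h2' : 2 * m * u ≤ 1) (hD1 : 1 ≤ DD l m t u w)
    (hDl : l ^ 2 ≤ DD l m t u w) (hw : w ^ 2 ≤ (1 - t ^ 2) * (1 - u ^ 2)) (ht : -1 ≤ t)
    (hu : -1 ≤ u) (hmN : 1 / 2 ≤ m) (hml : m ≤ l) :
    w ≤ (1 - t) * (1 - u) ∨ (u ≤ 1 / 4 ∧ t ≤ 1 / 4 ∧ w ≤ 5 / 4 - 2 * t - u + t * u) ∨
      (1 / 4 ≤ u ∧ 4 * u * (w - t * u) ≤ 1 - 2 * t) := by
  have ht2 := t_le_half h1 h1'
  have hu2 := t_le_half h2 h2'
  have hw1 : w ≤ 1 := by
    have h3 : (1 - t ^ 2) * (1 - u ^ 2) ≤ 1 := by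
      have h4 : 0 ≤ 1 - t ^ 2 := by nlinarith
      have h5 : 0 ≤ 1 - u ^ 2 := by nlinarith
      nlinarith [sq_nonneg t, sq_nonneg u]
    nlinarith
  rcases le_total 1 l with hl1 | hl1
  · have hb := w_le_l hl hm hDl
    rcases le_total 1 m with hm1 | hm1
    · left
      -- `k = 1 / m`
      obtain ⟨k, hk⟩ : ∃ k, k = 1 / m := ⟨_, rfl⟩
      have hk0 : 0 < k := by rw [hk]; positivity
      have hk1 : k ≤ 1 := by rw [hk, div_le_one hm]; exact hm1
      have hmk : m * k = 1 := by rw [hk]; field_simp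
      have hlk : 1 / l ≤ k := by
        rw [hk]; exact one_div_le_one_div_of_le hm hml
      have e1 : (m ^ 2 + 1) / (2 * m) = (m + k) / 2 := by rw [hk]; field_simp
      have e2 : t / m = t * k := by rw [hk]; ring
      rw [e1, e2] at hb
      have hs : 0 ≤ (m + k) / 2 - u := by
        nlinarith [sq_nonneg (m - 1)]
      have h3 := mul_le_mul_of_nonneg_right hlk hs
      have htk : 2 * t ≤ k := by
        by_contra hcon
        push Not at hcon
        have h6 : 1 < 2 * m * t := by nlinarith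
        rcases le_total t 0 with h7 | h7
        · nlinarith
        · nlinarith
      have huk : 2 * u ≤ k := by
        by_contra hcon
        push Not at hcon
        nlinarith
      have h4 : 0 ≤ (1 - k) * ((1 + k) / 2 - (t + u)) := mul_nonneg (by linarith) (by linarith)
      have e3 : k * ((m + k) / 2 - u) = (1 + k ^ 2) / 2 - k * u := by
        linear_combination (1 / 2) * hmk
      nlinarith
    · have hs : 0 ≤ (m ^ 2 + 1) / (2 * m) - u := by
        have : 1 ≤ (m ^ 2 + 1) / (2 * m) := by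
          rw [le_div_iff₀ (by positivity)]
          nlinarith [sq_nonneg (m - 1)]
        linarith
      have hl' : 1 / l ≤ 1 := by rw [div_le_one hl]; exact hl1
      have h3 := mul_le_mul_of_nonneg_right hl' hs
      have e1 : (m ^ 2 + 1) / (2 * m) - t / m = (1 / 2 - t) / m + 1 / 2 * m := by
        field_simp
        ring
      exact fin_NN ht2 hm1 hmN h2 (by linarith)
  · have hb := w_le_1 hl hm hD1
    obtain ⟨r, hr⟩ : ∃ r, r = m / l := ⟨_, rfl⟩
    have hr0 : 0 < r := by rw [hr]; positivity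
    have hr1 : r ≤ 1 := by rw [hr, div_le_one hl]; exact hml
    have hmr : m ≤ r := by
      rw [hr, le_div_iff₀ hl]
      nlinarith
    have e1 : l / (2 * m) + m / (2 * l) - t / m - u / l + t * u =
        1 / 2 / r + 1 / 2 * r - 1 / l * (t / r + u) + t * u := by
      rw [hr]; field_simp
      ring
    rw [e1] at hb
    rcases le_total 0 (t / r + u) with hs | hs
    · have hl' : 1 ≤ 1 / l := by rw [le_div_iff₀ hl]; linarith
      have h3 := mul_le_mul_of_nonneg_right hl' hs
      have e2 : (1 / 2 - t) / r = 1 / 2 / r - t / r := by ring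
      exact fin_NN ht2 hr1 (le_trans hmN hmr) (le_trans h2 hmr) (by rw [e2]; linarith)
    · have hs' : t + u * r ≤ 0 := by
        have h3 := mul_nonpos_of_nonneg_of_nonpos hr0.le hs
        have e2 : r * (t / r + u) = t + u * r := by field_simp
        rwa [e2] at h3
      have hr2 : 1 / 2 ≤ r := le_trans hmN hmr
      rcases le_total u 0 with hu0 | hu0
      · left
        have htu : t + u ≤ 0 := by nlinarith
        have h3 : 0 ≤ (1 - t) * (1 - u) := mul_nonneg (by linarith) (by linarith)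
        by_contra hcon
        push Not at hcon
        have h4 : ((1 - t) * (1 - u)) ^ 2 < w ^ 2 := by nlinarith
        have h5 : (1 - t ^ 2) * (1 - u ^ 2) ≤ ((1 - t) * (1 - u)) ^ 2 := by
          have e3 : ((1 - t) * (1 - u)) ^ 2 - (1 - t ^ 2) * (1 - u ^ 2) =
              ((1 - t) * (1 - u)) * (-2 * (t + u)) := by ring
          have h6 : 0 ≤ ((1 - t) * (1 - u)) * (-2 * (t + u)) := mul_nonneg h3 (by linarith)
          linarith
        linarith
      · have ht0 : t ≤ 0 := by nlinarith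
        rcases le_total u (1 / 4) with hu4 | hu4
        · right; left
          refine ⟨hu4, by linarith, ?_⟩
          nlinarith
        · right; right
          refine ⟨hu4, ?_⟩
          have hrt : t ≤ -2 * u ^ 2 := by
            have : 2 * u ≤ r := le_trans h2 hmr
            nlinarith
          have hX : 0 ≤ 1 - 2 * t + 4 * t * u ^ 2 := by
            have h7 : u ^ 2 ≤ 1 / 4 := by nlinarith
            nlinarith
          have hY : (4 * u * w) ^ 2 ≤ (1 - 2 * t + 4 * t * u ^ 2) ^ 2 := by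
            have h7 : (4 * u * w) ^ 2 ≤ 16 * u ^ 2 * ((1 - t ^ 2) * (1 - u ^ 2)) := by
              have := mul_le_mul_of_nonneg_left hw (by positivity : (0 : ℝ) ≤ 16 * u ^ 2)
              calc (4 * u * w) ^ 2 = 16 * u ^ 2 * w ^ 2 := by ring
                _ ≤ _ := this
            have h8 : 0 ≤ (1 - 2 * u ^ 2 - 2 * t) ^ 2 - 12 * u ^ 2 * (1 - u ^ 2) := by
              have h9 : 1 + 2 * u ^ 2 ≤ 1 - 2 * u ^ 2 - 2 * t := by linarith
              have h10 : (1 + 2 * u ^ 2) ^ 2 ≤ (1 - 2 * u ^ 2 - 2 * t) ^ 2 :=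
                pow_le_pow_left₀ (by positivity) h9 2
              nlinarith [sq_nonneg (1 - 4 * u ^ 2)]
            have e4 : (1 - 2 * t + 4 * t * u ^ 2) ^ 2 - 16 * u ^ 2 * ((1 - t ^ 2) * (1 - u ^ 2)) =
              (1 - 2 * u ^ 2 - 2 * t) ^ 2 - 12 * u ^ 2 * (1 - u ^ 2) := by ring
            linarith
          have h11 : 4 * u * w ≤ 1 - 2 * t + 4 * t * u ^ 2 := by
            rcases le_total (4 * u * w) 0 with h12 | h12
            · linarith
            · nlinarith [abs_le_of_sq_le_sq' hY hX]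
          nlinarith

/-- symmetry of the distance -/
theorem DD_symm (l m t u w : ℝ) : DD l m t u w = DD m l u t w := by
  unfold DD; ring

/-- **both edges long** -/
theorem dom_NN {l m t u w : ℝ} (hl : 0 < l) (hm : 0 < m) (h1 : 2 * t ≤ l) (h1' : 2 * l * t ≤ 1)
    (h2 : 2 * u ≤ m) (h2' : 2 * m * u ≤ 1) (hD1 : 1 ≤ DD l m t u w)
    (hDl : l ^ 2 ≤ DD l m t u w) (hDm : m ^ 2 ≤ DD l m t u w)
    (hw : w ^ 2 ≤ (1 - t ^ 2) * (1 - u ^ 2)) (ht : -1 ≤ t) (hu : -1 ≤ u) (hlN : 1 / 2 ≤ l)
    (hmN : 1 / 2 ≤ m) :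
    w ≤ (1 - t) * (1 - u) ∨
      (u ≤ 1 / 4 ∧ t ≤ 1 / 4 ∧ w ≤ 5 / 4 - 2 * t - u + t * u) ∨
      (1 / 4 ≤ u ∧ 4 * u * (w - t * u) ≤ 1 - 2 * t) ∨
      (u ≤ 1 / 4 ∧ t ≤ 1 / 4 ∧ w ≤ 5 / 4 - t - 2 * u + t * u) ∨
      (1 / 4 ≤ t ∧ 4 * t * (w - t * u) ≤ 1 - 2 * u) := by
  rcases le_total m l with h | h
  · rcases dom_NN1 hl hm h1 h1' h2 h2' hD1 hDl hw ht hu hmN h with h3 | h3 | h3
    · exact Or.inl h3
    · exact Or.inr (Or.inl h3)
    · exact Or.inr (Or.inr (Or.inl h3))
  · rw [DD_symm] at hD1 hDm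
    rcases dom_NN1 hm hl h2 h2' h1 h1' hD1 hDm (by rw [mul_comm]; exact hw) hu ht hlN h with
      h3 | h3 | h3
    · exact Or.inl (by linarith)
    · obtain ⟨h4, h5, h6⟩ := h3
      exact Or.inr (Or.inr (Or.inr (Or.inl ⟨h5, h4, by linarith⟩)))
    · obtain ⟨h4, h5⟩ := h3
      exact Or.inr (Or.inr (Or.inr (Or.inr ⟨h4, by linarith⟩)))

/-- **one long edge, one short edge** -/
theorem dom_NS {l m t u w : ℝ} (hl : 0 < l) (hm : 0 < m) (h1 : 2 * t ≤ l) (h1' : 2 * l * t ≤ 1)
    (h2 : 2 * u ≤ m) (hD1 : 1 ≤ DD l m t u w)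
    (hDl : l ^ 2 ≤ DD l m t u w) (hw : w ^ 2 ≤ (1 - t ^ 2) * (1 - u ^ 2)) (ht : -1 ≤ t)
    (hu : 0 < u) (hlN : 1 / 2 ≤ l) (hmS : m < 1 / 2) :
    w ≤ 5 / 4 - 2 * t - u + t * u ∨ 4 * u * (w - t * u) ≤ 1 - 2 * t := by
  have ht2 := t_le_half h1 h1'
  have hu4 : u < 1 / 4 := by linarith
  have hA : 0 ≤ 1 / 2 - t := by linarith
  have hw1 : w ≤ 1 := by
    have h3 : (1 - t ^ 2) * (1 - u ^ 2) ≤ 1 := by
      have h4 : 0 ≤ 1 - t ^ 2 := by nlinarith
      have h5 : 0 ≤ 1 - u ^ 2 := by nlinarith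
      nlinarith [sq_nonneg t, sq_nonneg u]
    nlinarith
  have fin : ∀ r : ℝ, 2 * u ≤ r → r ≤ 1 / 2 →
      w ≤ (1 / 2 - t) / r + 1 / 2 * r - u + t * u →
      w ≤ 5 / 4 - 2 * t - u + t * u ∨ 4 * u * (w - t * u) ≤ 1 - 2 * t := by
    intro r hr1 hr2 hb
    rcases conv_end (B := 1 / 2) hA (by linarith : 0 < 2 * u) hr1 hr2 with h | h
    · left
      have e1 : (1 / 2 - t) / (1 / 2) + 1 / 2 * (1 / 2) = 5 / 4 - 2 * t := by ring
      rw [e1] at h
      linarith
    · right
      have h3 : w - t * u ≤ (1 / 2 - t) / (2 * u) := by linarith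
      have h4 := mul_le_mul_of_nonneg_left h3 (by linarith : (0 : ℝ) ≤ 4 * u)
      have e1 : 4 * u * ((1 / 2 - t) / (2 * u)) = 1 - 2 * t := by
        field_simp
        ring
      rw [e1] at h4
      exact h4
  rcases le_total 1 l with hl1 | hl1
  · have hb := w_le_l hl hm hDl
    have hs : 0 ≤ (m ^ 2 + 1) / (2 * m) - u := by
      have : 1 ≤ (m ^ 2 + 1) / (2 * m) := by
        rw [le_div_iff₀ (by positivity)]
        nlinarith [sq_nonneg (m - 1)]
      linarith
    have hl' : 1 / l ≤ 1 := by rw [div_le_one hl]; exact hl1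
    have h3 := mul_le_mul_of_nonneg_right hl' hs
    have e1 : (m ^ 2 + 1) / (2 * m) - t / m = (1 / 2 - t) / m + 1 / 2 * m := by
      field_simp
      ring
    exact fin m h2 hmS.le (by linarith)
  · have hb := w_le_1 hl hm hD1
    obtain ⟨r, hr⟩ : ∃ r, r = m / l := ⟨_, rfl⟩
    have hr0 : 0 < r := by rw [hr]; positivity
    have hml : m ≤ l := by linarith
    have hr1 : r ≤ 1 := by rw [hr, div_le_one hl]; exact hml
    have hmr : m ≤ r := by
      rw [hr, le_div_iff₀ hl]
      nlinarith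
    have e1 : l / (2 * m) + m / (2 * l) - t / m - u / l + t * u =
        1 / 2 / r + 1 / 2 * r - 1 / l * (t / r + u) + t * u := by
      rw [hr]; field_simp
      ring
    rw [e1] at hb
    rcases le_total 0 (t / r + u) with hs | hs
    · rcases le_total r (1 / 2) with hr2 | hr2
      · have hl' : 1 ≤ 1 / l := by rw [le_div_iff₀ hl]; linarith
        have h3 := mul_le_mul_of_nonneg_right hl' hs
        have e2 : (1 / 2 - t) / r = 1 / 2 / r - t / r := by ring
        exact fin r (le_trans h2 hmr) hr2 (by rw [e2]; linarith)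
      · -- `l' = l / (2 m) = 1 / (2 r)`
        left
        obtain ⟨l', hl'⟩ : ∃ l', l' = 1 / (2 * r) := ⟨_, rfl⟩
        have hl'0 : 0 < l' := by rw [hl']; positivity
        have hl'1 : l' ≤ 1 := by rw [hl', div_le_one (by positivity)]; linarith
        have hl'2 : 1 / 2 ≤ l' := by
          rw [hl', div_le_div_iff₀ (by norm_num) (by positivity)]; linarith
        have h3 : 1 / l' ≤ 1 / l := by
          apply one_div_le_one_div_of_le hl
          rw [hl', hr, le_div_iff₀ (by positivity)]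
          have : l * (2 * (m / l)) = 2 * m := by field_simp
          rw [this]; linarith
        have h4 := mul_le_mul_of_nonneg_right h3 hs
        have e3 : 1 / 2 / r + 1 / 2 * r - 1 / l' * (t / r + u) =
            (1 / 4 - u) / l' + 1 * l' - 2 * t := by
          rw [hl']; field_simp
          ring
        rcases conv_end (B := 1) (by linarith : 0 ≤ 1 / 4 - u) (by norm_num : (0 : ℝ) < 1 / 2)
          hl'2 hl'1 with h | h
        · have e4 : (1 / 4 - u) / 1 + 1 * 1 = 5 / 4 - u := by ring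
          rw [e4] at h
          linarith
        · have e4 : (1 / 4 - u) / (1 / 2) + 1 * (1 / 2) = 1 - 2 * u := by ring
          rw [e4] at h
          linarith
    · have hs' : t + u * r ≤ 0 := by
        have h3 := mul_nonpos_of_nonneg_of_nonpos hr0.le hs
        have e2 : r * (t / r + u) = t + u * r := by field_simp
        rwa [e2] at h3
      left
      have ht0 : t ≤ 0 := by nlinarith
      nlinarith

/-- **two short edges** -/
theorem dom_SS {l m t u w : ℝ} (hl : 0 < l) (hm : 0 < m) (h1 : 2 * t ≤ l) (h2 : 2 * u ≤ m)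
    (hD1 : 1 ≤ DD l m t u w) (ht : 0 < t) (hu : 0 < u) (hlS : l < 1 / 2) (hmS : m < 1 / 2) :
    w ≤ 1 - 2 * t - 2 * u + t * u ∨ 2 * t * (w - t * u) ≤ 1 / 4 - u ∨
      2 * u * (w - t * u) ≤ 1 / 4 - t := by
  have hb := w_le_1 hl hm hD1
  have e1 : l / (2 * m) + m / (2 * l) - t / m - u / l =
      (m / 2 - u) / l + 1 / (2 * m) * l - t / m := by
    field_simp
    ring
  rw [e1] at hb
  rcases conv_end (B := 1 / (2 * m)) (by linarith : 0 ≤ m / 2 - u) (by linarith : 0 < 2 * t)
    h1 hlS.le with h | h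
  · -- `l = 1/2`
    have e2 : (m / 2 - u) / (1 / 2) + 1 / (2 * m) * (1 / 2) - t / m =
        (1 / 4 - t) / m + 1 * m - 2 * u := by
      field_simp
      ring
    have h3 : w ≤ (1 / 4 - t) / m + 1 * m - 2 * u + t * u := by linarith
    rcases conv_end (B := 1) (by linarith : 0 ≤ 1 / 4 - t) (by linarith : 0 < 2 * u)
      h2 hmS.le with h4 | h4
    · left
      have e3 : (1 / 4 - t) / (1 / 2) + 1 * (1 / 2) = 1 - 2 * t := by ring
      rw [e3] at h4
      linarith
    · right; right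
      have h5 : w - t * u ≤ (1 / 4 - t) / (2 * u) := by linarith
      have h6 := mul_le_mul_of_nonneg_left h5 (by linarith : (0 : ℝ) ≤ 2 * u)
      have e3 : 2 * u * ((1 / 4 - t) / (2 * u)) = 1 / 4 - t := by field_simp
      rw [e3] at h6
      exact h6
  · -- `l = 2t`
    right; left
    have e2 : (m / 2 - u) / (2 * t) + 1 / (2 * m) * (2 * t) - t / m = (m / 2 - u) / (2 * t) := by
      field_simp
      ring
    have h3 : w - t * u ≤ (m / 2 - u) / (2 * t) := by linarith
    have h4 : (m / 2 - u) / (2 * t) ≤ (1 / 4 - u) / (2 * t) :=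
      div_le_div_of_nonneg_right (by linarith) (by linarith)
    have h5 := mul_le_mul_of_nonneg_left (le_trans h3 h4) (by linarith : (0 : ℝ) ≤ 2 * t)
    have e3 : 2 * t * ((1 / 4 - u) / (2 * t)) = 1 / 4 - u := by field_simp
    rw [e3] at h5
    exact h5

/-- **a long and a short edge at the same vertex**; `v` is the inner product of the directions -/
theorem dom_same {lN lS tN v : ℝ} (hlN : 1 / 2 ≤ lN) (hlS : lS < 1 / 2)
    (hv : 2 * lN * v ≤ lS) (ht : 2 * tN ≤ lN) : tN ≤ 1 / 4 ∨ 8 * tN * v ≤ 1 := by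
  rcases le_total tN (1 / 4) with h | h
  · exact Or.inl h
  · right
    rcases le_total v 0 with h0 | h0
    · nlinarith
    · have h3 : 2 * (2 * tN) * v ≤ 2 * lN * v := by nlinarith
      linarith

end Pool.Agent.EMT
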