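import Mathlib

/-!
Growth against packing in a tree of edges with lengths: the weight of an edge is the product of the
cubes of the ratios of consecutive lengths on the path to it.
-/

set_option autoImplicit false

namespace Pool.Agent.EMT

open Finset

variable {ι : Type*}

/-- the largest length on the path of `j + 1` edges which ends with `f` -/
def mx (par : ι → ι) (l : ι → ℝ) : ℕ → ι → ℝ
  | 0, f => l f
  | j + 1, f => max (mx par l j (par f)) (l f)

/-- the weight of the path of `j + 1` edges which ends with `f` -/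
noncomputable def wt (par : ι → ι) (l : ι → ℝ) : ℕ → ι → ℝ
  | 0, _ => 1
  | j + 1, f => wt par l j (par f) *
      (min (l (par f)) (l f) / max (l (par f)) (l f)) ^ 3

theorem le_mx (par : ι → ι) (l : ι → ℝ) (j : ℕ) (f : ι) : l f ≤ mx par l j f := by
  cases j with
  | zero => exact le_refl _
  | succ j => exact le_max_right _ _

theorem wt_nonneg (par : ι → ι) (l : ι → ℝ) (hl : ∀ f, 0 < l f) (j : ℕ) (f : ι) :
    0 ≤ wt par l j f := by
  induction j generalizing f with
  | zero => exact zero_le_one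
  | succ j ih =>
    have h1 := hl (par f)
    have h2 := hl f
    exact mul_nonneg (ih _) (pow_nonneg (div_nonneg (le_min h1.le h2.le)
      (le_trans h1.le (le_max_left _ _))) 3)

theorem step_bound {a b m l0 : ℝ} (ha : 0 < a) (hb : 0 < b) (hl0 : 0 < l0) (ham : a ≤ m) :
    a * l0 / m ^ 2 * (min a b / max a b) ≤ b * l0 / (max m b) ^ 2 := by
  have hm : 0 < m := lt_of_lt_of_le ha ham
  rcases le_total b a with h | h
  · rw [min_eq_right h, max_eq_left h, max_eq_left (le_trans h ham)]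
    apply le_of_eq
    field_simp
  · rw [min_eq_left h, max_eq_right h]
    rcases le_total b m with h' | h'
    · rw [max_eq_left h', div_mul_div_comm, div_le_div_iff₀ (by positivity) (by positivity)]
      have h1 : a * a ≤ b * b := mul_le_mul h h ha.le hb.le
      have h2 : 0 ≤ l0 * m ^ 2 := by positivity
      nlinarith [mul_le_mul_of_nonneg_right h1 h2]
    · rw [max_eq_right h', div_mul_div_comm, div_le_div_iff₀ (by positivity) (by positivity)]
      have h1 : a * a ≤ m * m := mul_le_mul ham ham ha.le hm.le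
      have h2 : 0 ≤ l0 * b ^ 2 := by positivity
      nlinarith [mul_le_mul_of_nonneg_right h1 h2]

theorem wt_le (par : ι → ι) (l : ι → ℝ) (hl : ∀ f, 0 < l f) (E : ℕ → Finset ι) (e0 : ι) (J : ℕ)
    (hE0 : E 0 = {e0}) (hpar : ∀ j < J, ∀ f ∈ E (j + 1), par f ∈ E j) (j : ℕ) (hj : j ≤ J) (f : ι)
    (hf : f ∈ E j) : wt par l j f ≤ (l f * l e0 / (mx par l j f) ^ 2) ^ 3 := by
  induction j generalizing f with
  | zero =>
    rw [hE0, mem_singleton] at hf
    subst hf
    have h := hl f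
    have e1 : l f * l f / (mx par l 0 f) ^ 2 = 1 := by
      show l f * l f / (l f) ^ 2 = 1
      field_simp
    rw [e1, one_pow]
    exact le_refl _
  | succ j ih =>
    have hp := hpar j (by omega) f hf
    have h1 := ih (by omega) (par f) hp
    have h2 := step_bound (hl (par f)) (hl f) (hl e0) (le_mx par l j (par f))
    have h3 : 0 ≤ min (l (par f)) (l f) / max (l (par f)) (l f) :=
      div_nonneg (le_min (hl _).le (hl _).le) (le_trans (hl (par f)).le (le_max_left _ _))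
    have h4 : 0 ≤ l (par f) * l e0 / (mx par l j (par f)) ^ 2 :=
      div_nonneg (mul_nonneg (hl _).le (hl _).le) (sq_nonneg _)
    calc wt par l (j + 1) f = wt par l j (par f) *
          (min (l (par f)) (l f) / max (l (par f)) (l f)) ^ 3 := rfl
      _ ≤ (l (par f) * l e0 / (mx par l j (par f)) ^ 2) ^ 3 *
          (min (l (par f)) (l f) / max (l (par f)) (l f)) ^ 3 :=
        mul_le_mul_of_nonneg_right h1 (pow_nonneg h3 3)
      _ = (l (par f) * l e0 / (mx par l j (par f)) ^ 2 *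
          (min (l (par f)) (l f) / max (l (par f)) (l f))) ^ 3 := by rw [mul_pow]
      _ ≤ (l f * l e0 / (mx par l (j + 1) f) ^ 2) ^ 3 :=
        pow_le_pow_left₀ (mul_nonneg h4 h3) h2 3

theorem le_mx0 (par : ι → ι) (l : ι → ℝ) (E : ℕ → Finset ι) (e0 : ι) (J : ℕ)
    (hE0 : E 0 = {e0}) (hpar : ∀ j < J, ∀ f ∈ E (j + 1), par f ∈ E j) (j : ℕ) (hj : j ≤ J) (f : ι)
    (hf : f ∈ E j) : l e0 ≤ mx par l j f := by
  induction j generalizing f with
  | zero =>
    rw [hE0, mem_singleton] at hf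
    subst hf
    exact le_refl _
  | succ j ih =>
    exact le_trans (ih (by omega) (par f) (hpar j (by omega) f hf)) (le_max_left _ _)

theorem wt_sum [DecidableEq ι] (par : ι → ι) (l : ι → ℝ) (hl : ∀ f, 0 < l f)
    (E : ℕ → Finset ι) (e0 : ι) (J : ℕ) (ρ : ℝ) (hρ : 0 ≤ ρ)
    (hE0 : E 0 = {e0}) (hpar : ∀ j < J, ∀ f ∈ E (j + 1), par f ∈ E j)
    (H1 : ∀ j < J, ∀ e ∈ E j, ρ ≤ ∑ f ∈ (E (j + 1)).filter (fun f => par f = e),
      (min (l e) (l f) / max (l e) (l f)) ^ 3) (j : ℕ) (hj : j ≤ J) :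
    ρ ^ j ≤ ∑ f ∈ E j, wt par l j f := by
  induction j with
  | zero => rw [hE0, sum_singleton, pow_zero]; exact le_refl _
  | succ j ih =>
    have h1 : ∑ f ∈ E (j + 1), wt par l (j + 1) f =
        ∑ e ∈ E j, ∑ f ∈ (E (j + 1)).filter (fun f => par f = e), wt par l (j + 1) f :=
      (sum_fiberwise_of_maps_to (fun f hf => hpar j (by omega) f hf) _).symm
    rw [h1]
    calc ρ ^ (j + 1) = ρ ^ j * ρ := pow_succ _ _
      _ ≤ (∑ e ∈ E j, wt par l j e) * ρ := mul_le_mul_of_nonneg_right (ih (by omega)) hρ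
      _ = ∑ e ∈ E j, wt par l j e * ρ := by rw [sum_mul]
      _ ≤ _ := by
        apply sum_le_sum
        intro e he
        have h2 : ∑ f ∈ (E (j + 1)).filter (fun f => par f = e), wt par l (j + 1) f =
            wt par l j e * ∑ f ∈ (E (j + 1)).filter (fun f => par f = e),
              (min (l e) (l f) / max (l e) (l f)) ^ 3 := by
          rw [mul_sum]
          apply sum_congr rfl
          intro f hf
          have h3 : par f = e := (mem_filter.mp hf).2
          show wt par l j (par f) * _ = _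
          rw [h3]
        rw [h2]
        exact mul_le_mul_of_nonneg_left (H1 j (by omega) e he) (wt_nonneg par l hl j e)

/-- the scale of a length -/
theorem exists_scale {x y : ℝ} (hx : 0 < x) (hxy : x ≤ y) :
    ∃ a : ℕ, 2 ^ a * x ≤ y ∧ y ≤ 2 ^ (a + 1) * x := by
  obtain ⟨a, h1, h2⟩ := exists_nat_pow_near (x := y / x) (y := 2) (by rw [le_div_iff₀ hx]; linarith)
    one_lt_two
  refine ⟨a, ?_, ?_⟩
  · rwa [le_div_iff₀ hx] at h1
  · rw [div_lt_iff₀ hx] at h2
    exact h2.le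

theorem geo (n : ℕ) (C : ℝ) (hC : 0 ≤ C) : ∑ a ∈ range n, C * (1 / 8) ^ a ≤ 8 / 7 * C := by
  rw [← mul_sum]
  have h1 : ∑ a ∈ range n, (1 / 8 : ℝ) ^ a ≤ 8 / 7 := by
    have h2 : ∀ m : ℕ, ∑ a ∈ range m, (1 / 8 : ℝ) ^ a = 8 / 7 * (1 - (1 / 8) ^ m) := by
      intro m
      induction m with
      | zero => simp
      | succ m ih => rw [sum_range_succ, ih, pow_succ]; ring
    rw [h2]
    have : (0 : ℝ) ≤ (1 / 8) ^ n := by positivity
    linarith
  nlinarith [mul_le_mul_of_nonneg_left h1 hC]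

theorem grow [DecidableEq ι] (E : ℕ → Finset ι) (par : ι → ι) (l : ι → ℝ) (e0 : ι) (J : ℕ)
    (ρ : ℝ) (hρ : 0 ≤ ρ) (hE0 : E 0 = {e0}) (hpar : ∀ j < J, ∀ f ∈ E (j + 1), par f ∈ E j)
    (hl : ∀ f, 0 < l f)
    (H1 : ∀ j < J, ∀ e ∈ E j, ρ ≤ ∑ f ∈ (E (j + 1)).filter (fun f => par f = e),
      (min (l e) (l f) / max (l e) (l f)) ^ 3)
    (H2 : ∀ j ≤ J, ∀ μ : ℝ, 0 < μ →
      ∑ f ∈ (E j).filter (fun f => mx par l j f ≤ μ), l f ^ 3 ≤ 64 * (((j : ℝ) + 2) * μ) ^ 3) :
    ρ ^ J ≤ 4096 / 7 * ((J : ℝ) + 2) ^ 3 := by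
  classical
  have hsc : ∀ f : ι, ∃ a : ℕ, f ∈ E J → 2 ^ a * l e0 ≤ mx par l J f ∧
      mx par l J f ≤ 2 ^ (a + 1) * l e0 := by
    intro f
    by_cases hf : f ∈ E J
    · obtain ⟨a, h1, h2⟩ := exists_scale (hl e0) (le_mx0 par l E e0 J hE0 hpar J le_rfl f hf)
      exact ⟨a, fun _ => ⟨h1, h2⟩⟩
    · exact ⟨0, fun h => absurd h hf⟩
  choose a ha using hsc
  set n := (E J).sup a + 1 with hn
  have hmaps : ∀ f ∈ E J, a f ∈ range n := by
    intro f hf
    rw [mem_range, hn]
    have := le_sup (f := a) hf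
    omega
  have hgroup : ∀ k ∈ range n, ∑ f ∈ (E J).filter (fun f => a f = k), wt par l J f ≤
      (512 * ((J : ℝ) + 2) ^ 3) * (1 / 8) ^ k := by
    intro k _
    have h0 := hl e0
    have hpos : (0 : ℝ) < 2 ^ k * l e0 := by positivity
    have h1 : ∀ f ∈ (E J).filter (fun f => a f = k), wt par l J f ≤
        (l e0 / (2 ^ k * l e0) ^ 2) ^ 3 * l f ^ 3 := by
      intro f hf
      obtain ⟨hf1, hf2⟩ := mem_filter.mp hf
      have h2 := wt_le par l hl E e0 J hE0 hpar J le_rfl f hf1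
      have h3 := (ha f hf1).1
      rw [hf2] at h3
      refine h2.trans ?_
      rw [← mul_pow]
      apply pow_le_pow_left₀
      · exact div_nonneg (mul_nonneg (hl _).le (hl _).le) (sq_nonneg _)
      · have h4 : (2 ^ k * l e0) ^ 2 ≤ (mx par l J f) ^ 2 := pow_le_pow_left₀ hpos.le h3 2
        have h5 : 0 < (2 ^ k * l e0) ^ 2 := by positivity
        have hlf := hl f
        calc l f * l e0 / (mx par l J f) ^ 2 ≤ l f * l e0 / (2 ^ k * l e0) ^ 2 :=
              div_le_div_of_nonneg_left (by positivity) h5 h4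
          _ = l e0 / (2 ^ k * l e0) ^ 2 * l f := by ring
    have h2 : ∑ f ∈ (E J).filter (fun f => a f = k), l f ^ 3 ≤
        64 * (((J : ℝ) + 2) * (2 ^ (k + 1) * l e0)) ^ 3 := by
      refine le_trans ?_ (H2 J le_rfl (2 ^ (k + 1) * l e0) (by positivity))
      apply sum_le_sum_of_subset_of_nonneg
      · intro f hf
        obtain ⟨hf1, hf2⟩ := mem_filter.mp hf
        rw [mem_filter]
        refine ⟨hf1, ?_⟩
        have := (ha f hf1).2
        rwa [hf2] at this
      · intro f _ _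
        exact pow_nonneg (hl f).le 3
    calc ∑ f ∈ (E J).filter (fun f => a f = k), wt par l J f
        ≤ ∑ f ∈ (E J).filter (fun f => a f = k), (l e0 / (2 ^ k * l e0) ^ 2) ^ 3 * l f ^ 3 :=
          sum_le_sum h1
      _ = (l e0 / (2 ^ k * l e0) ^ 2) ^ 3 * ∑ f ∈ (E J).filter (fun f => a f = k), l f ^ 3 := by
          rw [mul_sum]
      _ ≤ (l e0 / (2 ^ k * l e0) ^ 2) ^ 3 * (64 * (((J : ℝ) + 2) * (2 ^ (k + 1) * l e0)) ^ 3) :=
          mul_le_mul_of_nonneg_left h2 (by positivity)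
      _ = (512 * ((J : ℝ) + 2) ^ 3) * (1 / 8) ^ k := by
          have e1 : (1 / 8 : ℝ) ^ k = 1 / (2 ^ k) ^ 3 := by
            rw [div_pow, one_pow, ← pow_mul, mul_comm k 3, pow_mul]; norm_num
          rw [e1, pow_succ]
          field_simp
          ring
  calc ρ ^ J ≤ ∑ f ∈ E J, wt par l J f :=
        wt_sum par l hl E e0 J ρ hρ hE0 hpar H1 J le_rfl
    _ = ∑ k ∈ range n, ∑ f ∈ (E J).filter (fun f => a f = k), wt par l J f :=
        (sum_fiberwise_of_maps_to hmaps _).symm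
    _ ≤ ∑ k ∈ range n, (512 * ((J : ℝ) + 2) ^ 3) * (1 / 8) ^ k := sum_le_sum hgroup
    _ ≤ 8 / 7 * (512 * ((J : ℝ) + 2) ^ 3) := geo n _ (by positivity)
    _ = 4096 / 7 * ((J : ℝ) + 2) ^ 3 := by ring

end Pool.Agent.EMT
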