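import Mathlib

/-!
# EMT / KN1: positivity of a polynomial in three variables on a box, packed test

A polynomial with natural coefficients is a nested list.  On the box `x = (T0 + T1 s) / (D (1 + s))`,
`s ≥ 0` (and the same for `y`, `z`) the polynomial, homogenised, is a polynomial in three variables
`s`; its value at powers of `2 ^ L` carries all coefficients as digits.
-/

set_option autoImplicit false

namespace Pool.Agent.EMT.KN

open Polynomial

/-! ### lists -/

section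
variable {S : Type*} [CommSemiring S] {β : Type*}

/-- Scalar product of the list of the `f a` with a list of weights. -/
def dt (f : β → S) : List β → List S → S
  | [], _ => 0
  | _ :: _, [] => 0
  | a :: as, w :: ws => f a * w + dt f as ws

/-- The weights `p ^ i * q ^ j, …, p ^ (i + j)`. -/
def wts (p q : S) : ℕ → ℕ → List S
  | i, 0 => [p ^ i]
  | i, j + 1 => p ^ i * q ^ (j + 1) :: wts p q (i + 1) j

/-- The value of the nested list with weights. -/
def val3 (A : List (List (List ℕ))) (wx wy wz : List S) : S :=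
  dt (fun A2 => dt (fun A1 => dt (fun a : ℕ => (a : S)) A1 wz) A2 wy) A wx

lemma dt_sum {ι γ : Type*} (f : β → S) (s : Finset ι) (m : ι → S) (g : γ → ι → S) (as : List β)
    (ws : List γ) : dt f as (ws.map fun w => ∑ e ∈ s, g w e * m e) =
      ∑ e ∈ s, dt f as (ws.map fun w => g w e) * m e := by
  induction as generalizing ws with
  | nil => simp [dt]
  | cons a as ih =>
    cases ws with
    | nil => simp [dt]
    | cons w ws =>
      simp only [List.map_cons, dt, ih, add_mul, Finset.sum_add_distrib, Finset.mul_sum, mul_assoc]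

lemma dt_sum' {ι : Type*} (s : Finset ι) (m : ι → S) (g : β → ι → S) (as : List β)
    (ws : List S) : dt (fun a => ∑ e ∈ s, g a e * m e) as ws =
      ∑ e ∈ s, dt (fun a => g a e) as ws * m e := by
  induction as generalizing ws with
  | nil => simp [dt]
  | cons a as ih =>
    cases ws with
    | nil => simp [dt]
    | cons w ws =>
      simp only [dt, ih, add_mul, Finset.sum_add_distrib, Finset.sum_mul]
      congr 1
      refine Finset.sum_congr rfl fun e _ => ?_
      ring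

lemma dt_hom {S' : Type*} [CommSemiring S'] (φ : S →+* S') (f : β → S) (as : List β)
    (ws : List S) : φ (dt f as ws) = dt (fun a => φ (f a)) as (ws.map φ) := by
  induction as generalizing ws with
  | nil => simp [dt]
  | cons a as ih =>
    cases ws with
    | nil => simp [dt]
    | cons w ws => simp only [dt, List.map_cons, map_add, map_mul, ih]

lemma val3_hom {S' : Type*} [CommSemiring S'] (φ : S →+* S') (A : List (List (List ℕ)))
    (wx wy wz : List S) : φ (val3 A wx wy wz) = val3 A (wx.map φ) (wy.map φ) (wz.map φ) := by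
  unfold val3
  simp only [dt_hom, map_natCast]

lemma wts_hom {S' : Type*} [CommSemiring S'] (φ : S →+* S') (p q : S) (i j : ℕ) :
    (wts p q i j).map φ = wts (φ p) (φ q) i j := by
  induction j generalizing i with
  | zero => simp [wts]
  | succ j ih => simp [wts, ih]

end

/-- The polynomial weights. -/
noncomputable def pw (T0 T1 D n : ℕ) : List ℕ[X] :=
  wts (C T0 + C T1 * X) (C D * (1 + X)) 0 n

lemma wts_deg {p q : ℕ[X]} (hp : p.natDegree ≤ 1) (hq : q.natDegree ≤ 1) (i j : ℕ) :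
    ∀ w ∈ wts p q i j, w.natDegree < i + j + 1 := by
  induction j generalizing i with
  | zero =>
    intro w hw
    rw [wts, List.mem_singleton] at hw
    rw [hw]
    have := natDegree_pow_le_of_le i hp
    omega
  | succ j ih =>
    intro w hw
    rw [wts, List.mem_cons] at hw
    rcases hw with rfl | hw
    · have h1 := natDegree_pow_le_of_le i hp
      have h2 := natDegree_pow_le_of_le (j + 1) hq
      have h3 := natDegree_mul_le (p := p ^ i) (q := q ^ (j + 1))
      omega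
    · have := ih (i + 1) w hw
      omega

lemma pw_deg (T0 T1 D n : ℕ) : ∀ w ∈ pw T0 T1 D n, w.natDegree < n + 1 := by
  intro w hw
  have hp : (C T0 + C T1 * X : ℕ[X]).natDegree ≤ 1 := by compute_degree
  have hq : (C D * (1 + X) : ℕ[X]).natDegree ≤ 1 := by compute_degree
  have := wts_deg hp hq 0 n w hw
  omega

/-- The coefficients of the three variable polynomial. -/
noncomputable def cf (A : List (List (List ℕ))) (Wx Wy Wz : List ℕ[X]) (e1 e2 e3 : ℕ) : ℕ :=
  val3 A (Wx.map fun w => w.coeff e1) (Wy.map fun w => w.coeff e2) (Wz.map fun w => w.coeff e3)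

section
variable {S : Type*} [CommSemiring S]

lemma map_eval {W : List ℕ[X]} {N : ℕ} (hW : ∀ w ∈ W, w.natDegree < N) (x : S) :
    W.map (fun w => eval₂ (Nat.castRingHom S) x w) =
      W.map (fun w => ∑ e ∈ Finset.range N, ((w.coeff e : ℕ) : S) * x ^ e) := by
  refine List.map_congr_left fun w hw => ?_
  rw [eval₂_eq_sum_range' _ (hW w hw)]
  simp

theorem val3_eq (A : List (List (List ℕ))) {Wx Wy Wz : List ℕ[X]} {N1 N2 N3 : ℕ}
    (hx : ∀ w ∈ Wx, w.natDegree < N1) (hy : ∀ w ∈ Wy, w.natDegree < N2)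
    (hz : ∀ w ∈ Wz, w.natDegree < N3) (x y z : S) :
    val3 A (Wx.map fun w => eval₂ (Nat.castRingHom S) x w)
      (Wy.map fun w => eval₂ (Nat.castRingHom S) y w)
      (Wz.map fun w => eval₂ (Nat.castRingHom S) z w) =
      ∑ e1 ∈ Finset.range N1, ∑ e2 ∈ Finset.range N2, ∑ e3 ∈ Finset.range N3,
        ((cf A Wx Wy Wz e1 e2 e3 : ℕ) : S) * (z ^ e3 * y ^ e2 * x ^ e1) := by
  rw [map_eval hx, map_eval hy, map_eval hz]
  unfold val3
  simp only [dt_sum, dt_sum']
  refine Finset.sum_congr rfl fun e1 _ => ?_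
  rw [Finset.sum_mul]
  refine Finset.sum_congr rfl fun e2 _ => ?_
  rw [Finset.sum_mul, Finset.sum_mul]
  refine Finset.sum_congr rfl fun e3 _ => ?_
  have h : ((cf A Wx Wy Wz e1 e2 e3 : ℕ) : S) =
      dt (fun a => dt (fun a => dt (fun a : ℕ => (a : S)) a
        (Wz.map fun w => ((w.coeff e3 : ℕ) : S))) a (Wy.map fun w => ((w.coeff e2 : ℕ) : S))) A
        (Wx.map fun w => ((w.coeff e1 : ℕ) : S)) := by
    have h1 := val3_hom (Nat.castRingHom S) A (Wx.map fun w => w.coeff e1)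
      (Wy.map fun w => w.coeff e2) (Wz.map fun w => w.coeff e3)
    rw [cf]
    simp only [List.map_map, Function.comp_def, Nat.coe_castRingHom] at h1
    rw [h1]
    rfl
  rw [h]
  ring

end

/-! ### digits -/

lemma digits (L : ℕ) (hL : 1 ≤ L) (N : ℕ) : ∀ c c' : ℕ → ℕ, (∀ e < N, c e < 2 ^ (L - 1)) →
    (∀ e < N, c' e < 2 ^ (L - 1)) →
    ∑ e ∈ Finset.range N, c' e * (2 ^ L) ^ e ≤ ∑ e ∈ Finset.range N, c e * (2 ^ L) ^ e →
    (∑ e ∈ Finset.range N, c e * (2 ^ L) ^ e - ∑ e ∈ Finset.range N, c' e * (2 ^ L) ^ e) &&&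
      (∑ e ∈ Finset.range N, 2 ^ (L - 1) * (2 ^ L) ^ e) = 0 → ∀ e < N, c' e ≤ c e := by
  induction N with
  | zero => intro _ _ _ _ _ _ e he; omega
  | succ N ih =>
    intro c c' hc hc' hle hand
    obtain ⟨H, hH⟩ : ∃ H, H = 2 ^ (L - 1) := ⟨_, rfl⟩
    have hB : 2 ^ L = 2 * H := by
      rw [hH, ← pow_succ']
      congr 1
      omega
    have hH0 : 0 < H := by rw [hH]; positivity
    have split : ∀ f : ℕ → ℕ, ∑ e ∈ Finset.range (N + 1), f e * (2 ^ L) ^ e =
        2 * H * (∑ e ∈ Finset.range N, f (e + 1) * (2 ^ L) ^ e) + f 0 := by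
      intro f
      rw [Finset.sum_range_succ', pow_zero, mul_one, Finset.mul_sum]
      congr 1
      refine Finset.sum_congr rfl fun e _ => ?_
      rw [pow_succ, ← hB]; ring
    rw [split c, split c'] at hle
    rw [split c, split c', split fun _ => 2 ^ (L - 1)] at hand
    obtain ⟨z, hz⟩ : ∃ z, z = ∑ e ∈ Finset.range N, c (e + 1) * (2 ^ L) ^ e := ⟨_, rfl⟩
    obtain ⟨z', hz'⟩ : ∃ z', z' = ∑ e ∈ Finset.range N, c' (e + 1) * (2 ^ L) ^ e := ⟨_, rfl⟩
    obtain ⟨M, hM⟩ : ∃ M, M = ∑ e ∈ Finset.range N, 2 ^ (L - 1) * (2 ^ L) ^ e := ⟨_, rfl⟩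
    rw [← hz, ← hz'] at hle
    rw [← hz, ← hz', ← hM, ← hH] at hand
    have h0 := hc 0 (by omega)
    have h0' := hc' 0 (by omega)
    rw [← hH] at h0 h0'
    have hbit : ∀ x r q : ℕ, x = 2 * H * q + r → H ≤ r → r < 2 * H → x.testBit (L - 1) = true := by
      intro x r q hx h1 h2
      rw [Nat.testBit_eq_decide_div_mod_eq, ← hH]
      have : x / H = 2 * q + 1 := by
        rw [hx]
        apply Nat.div_eq_of_lt_le
        · nlinarith
        · nlinarith
      rw [this]
      simp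
    have hMb : (2 * H * M + H).testBit (L - 1) = true := hbit _ H M rfl le_rfl (by omega)
    have hc0 : c' 0 ≤ c 0 := by
      by_contra hcon
      push Not at hcon
      have hzz : z' < z := by
        by_contra h1
        push Not at h1
        have : 2 * H * z ≤ 2 * H * z' := Nat.mul_le_mul_left _ h1
        omega
      obtain ⟨k, rfl⟩ : ∃ k, z = z' + 1 + k := ⟨z - z' - 1, by omega⟩
      have e1 : 2 * H * (z' + 1 + k) + c 0 - (2 * H * z' + c' 0) =
          2 * H * k + (2 * H + c 0 - c' 0) := by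
        have : 2 * H * (z' + 1 + k) = 2 * H * z' + 2 * H + 2 * H * k := by ring
        omega
      have hd := hbit (2 * H * (z' + 1 + k) + c 0 - (2 * H * z' + c' 0)) (2 * H + c 0 - c' 0) k e1
        (by omega) (by omega)
      have h2 := congrArg (fun n => Nat.testBit n (L - 1)) hand
      simp only [Nat.testBit_and, hd, hMb, Nat.zero_testBit] at h2
      simp at h2
    have hzz : z' ≤ z := by
      by_contra h1
      push Not at h1
      have : 2 * H * (z + 1) ≤ 2 * H * z' := Nat.mul_le_mul_left _ h1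
      have h3 : 2 * H * (z + 1) = 2 * H * z + 2 * H := by ring
      omega
    have hrec : (z - z') &&& M = 0 := by
      have h2 := congrArg (fun n => n >>> L) hand
      simp only [Nat.shiftRight_and_distrib, Nat.zero_shiftRight] at h2
      rw [Nat.shiftRight_eq_div_pow, Nat.shiftRight_eq_div_pow, hB] at h2
      have e1 : (2 * H * z + c 0 - (2 * H * z' + c' 0)) / (2 * H) = z - z' := by
        obtain ⟨k, rfl⟩ : ∃ k, z = z' + k := ⟨z - z', by omega⟩
        have e2 : 2 * H * (z' + k) + c 0 - (2 * H * z' + c' 0) = 2 * H * k + (c 0 - c' 0) := by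
          have : 2 * H * (z' + k) = 2 * H * z' + 2 * H * k := by ring
          omega
        rw [e2, Nat.mul_add_div (by omega), Nat.div_eq_of_lt (by omega)]
        omega
      have e3 : (2 * H * M + H) / (2 * H) = M := by
        rw [Nat.mul_add_div (by omega), Nat.div_eq_of_lt (by omega)]
        omega
      rw [e1, e3] at h2
      exact h2
    have hle' : z' ≤ z := hzz
    rw [hz, hz'] at hle'
    rw [hz, hz', hM] at hrec
    have hih := ih (fun e => c (e + 1)) (fun e => c' (e + 1)) (fun e he => hc (e + 1) (by omega))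
      (fun e he => hc' (e + 1) (by omega)) hle' hrec
    intro e he
    cases e with
    | zero => exact hc0
    | succ e => exact hih e (by omega)

lemma sum_mul_range (a b : ℕ) (f : ℕ → ℕ) :
    ∑ e ∈ Finset.range (a * b), f e =
      ∑ i ∈ Finset.range a, ∑ j ∈ Finset.range b, f (b * i + j) := by
  induction a with
  | zero => simp
  | succ a ih =>
    rw [Finset.sum_range_succ, ← ih, Nat.succ_mul, Finset.sum_range_add]
    congr 1
    refine Finset.sum_congr rfl fun j _ => ?_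
    rw [mul_comm]

lemma flat (N1 N2 N3 B : ℕ) (c : ℕ → ℕ → ℕ → ℕ) :
    ∑ e1 ∈ Finset.range N1, ∑ e2 ∈ Finset.range N2, ∑ e3 ∈ Finset.range N3,
      c e1 e2 e3 * (B ^ e3 * (B ^ N3) ^ e2 * (B ^ (N2 * N3)) ^ e1) =
      ∑ e ∈ Finset.range (N1 * (N2 * N3)),
        c (e / (N2 * N3)) (e / N3 % N2) (e % N3) * B ^ e := by
  rw [sum_mul_range]
  refine Finset.sum_congr rfl fun e1 h1 => ?_
  rw [sum_mul_range N2 N3 (fun e => c ((N2 * N3 * e1 + e) / (N2 * N3))
    ((N2 * N3 * e1 + e) / N3 % N2) ((N2 * N3 * e1 + e) % N3) * B ^ (N2 * N3 * e1 + e))]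
  refine Finset.sum_congr rfl fun e2 h2 => ?_
  refine Finset.sum_congr rfl fun e3 h3 => ?_
  rw [Finset.mem_range] at h1 h2 h3
  have hN3 : 0 < N3 := by omega
  have hN2 : 0 < N2 := by omega
  have h4 : N3 * e2 + e3 < N2 * N3 := by
    have : N3 * (e2 + 1) ≤ N3 * N2 := Nat.mul_le_mul_left _ h2
    have h5 : N3 * (e2 + 1) = N3 * e2 + N3 := by ring
    rw [mul_comm N2 N3]
    omega
  have d1 : (N2 * N3 * e1 + (N3 * e2 + e3)) / (N2 * N3) = e1 := by
    rw [Nat.mul_add_div (by positivity), Nat.div_eq_of_lt h4, Nat.add_zero]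
  have d2 : (N2 * N3 * e1 + (N3 * e2 + e3)) / N3 = N2 * e1 + e2 := by
    have : N2 * N3 * e1 + (N3 * e2 + e3) = N3 * (N2 * e1 + e2) + e3 := by ring
    rw [this, Nat.mul_add_div hN3, Nat.div_eq_of_lt h3, Nat.add_zero]
  have d3 : (N2 * N3 * e1 + (N3 * e2 + e3)) % N3 = e3 := by
    have : N2 * N3 * e1 + (N3 * e2 + e3) = N3 * (N2 * e1 + e2) + e3 := by ring
    rw [this, Nat.mul_add_mod, Nat.mod_eq_of_lt h3]
  rw [d1, d2, d3, Nat.mul_add_mod, Nat.mod_eq_of_lt h2, ← pow_mul, ← pow_mul, ← pow_add,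
    ← pow_add]
  congr 2
  ring

/-- Three indices. -/
theorem digits3 (L : ℕ) (hL : 1 ≤ L) (N1 N2 N3 : ℕ) (c c' : ℕ → ℕ → ℕ → ℕ)
    (hc : ∀ e1 < N1, ∀ e2 < N2, ∀ e3 < N3, c e1 e2 e3 < 2 ^ (L - 1))
    (hc' : ∀ e1 < N1, ∀ e2 < N2, ∀ e3 < N3, c' e1 e2 e3 < 2 ^ (L - 1))
    (z z' : ℕ)
    (hz : z = ∑ e1 ∈ Finset.range N1, ∑ e2 ∈ Finset.range N2, ∑ e3 ∈ Finset.range N3,
      c e1 e2 e3 * ((2 ^ L) ^ e3 * ((2 ^ L) ^ N3) ^ e2 * ((2 ^ L) ^ (N2 * N3)) ^ e1))
    (hz' : z' = ∑ e1 ∈ Finset.range N1, ∑ e2 ∈ Finset.range N2, ∑ e3 ∈ Finset.range N3,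
      c' e1 e2 e3 * ((2 ^ L) ^ e3 * ((2 ^ L) ^ N3) ^ e2 * ((2 ^ L) ^ (N2 * N3)) ^ e1))
    (hle : z' ≤ z)
    (hand : (z - z') &&& (∑ e ∈ Finset.range (N1 * (N2 * N3)), 2 ^ (L - 1) * (2 ^ L) ^ e) = 0) :
    ∀ e1 < N1, ∀ e2 < N2, ∀ e3 < N3, c' e1 e2 e3 ≤ c e1 e2 e3 := by
  rw [flat] at hz hz'
  have idx : ∀ e < N1 * (N2 * N3), e / (N2 * N3) < N1 ∧ e / N3 % N2 < N2 ∧ e % N3 < N3 := by
    intro e he
    have h1 : 0 < N2 * N3 := by
      rcases Nat.eq_zero_or_pos (N2 * N3) with h | h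
      · rw [h] at he; omega
      · exact h
    have h2 : 0 < N2 := Nat.pos_of_mul_pos_right h1
    have h3 : 0 < N3 := Nat.pos_of_mul_pos_left h1
    exact ⟨(Nat.div_lt_iff_lt_mul h1).2 he, Nat.mod_lt _ h2, Nat.mod_lt _ h3⟩
  have key := digits L hL (N1 * (N2 * N3))
    (fun e => c (e / (N2 * N3)) (e / N3 % N2) (e % N3))
    (fun e => c' (e / (N2 * N3)) (e / N3 % N2) (e % N3))
    (fun e he => hc _ (idx e he).1 _ (idx e he).2.1 _ (idx e he).2.2)
    (fun e he => hc' _ (idx e he).1 _ (idx e he).2.1 _ (idx e he).2.2)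
    (by rw [← hz, ← hz']; exact hle) (by rw [← hz, ← hz']; exact hand)
  intro e1 h1 e2 h2 e3 h3
  have hN3 : 0 < N3 := by omega
  have hN2 : 0 < N2 := by omega
  have h4 : N3 * e2 + e3 < N2 * N3 := by
    have : N3 * (e2 + 1) ≤ N3 * N2 := Nat.mul_le_mul_left _ h2
    have h5 : N3 * (e2 + 1) = N3 * e2 + N3 := by ring
    rw [mul_comm N2 N3]
    omega
  have h6 : N2 * N3 * e1 + (N3 * e2 + e3) < N1 * (N2 * N3) := by
    have : N2 * N3 * (e1 + 1) ≤ N2 * N3 * N1 := Nat.mul_le_mul_left _ h1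
    have h5 : N2 * N3 * (e1 + 1) = N2 * N3 * e1 + N2 * N3 := by ring
    rw [mul_comm N1]
    omega
  have d1 : (N2 * N3 * e1 + (N3 * e2 + e3)) / (N2 * N3) = e1 := by
    rw [Nat.mul_add_div (by positivity), Nat.div_eq_of_lt h4, Nat.add_zero]
  have d2 : (N2 * N3 * e1 + (N3 * e2 + e3)) / N3 = N2 * e1 + e2 := by
    have : N2 * N3 * e1 + (N3 * e2 + e3) = N3 * (N2 * e1 + e2) + e3 := by ring
    rw [this, Nat.mul_add_div hN3, Nat.div_eq_of_lt h3, Nat.add_zero]
  have d3 : (N2 * N3 * e1 + (N3 * e2 + e3)) % N3 = e3 := by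
    have : N2 * N3 * e1 + (N3 * e2 + e3) = N3 * (N2 * e1 + e2) + e3 := by ring
    rw [this, Nat.mul_add_mod, Nat.mod_eq_of_lt h3]
  have h7 := key _ h6
  simp only [d1, d2, d3, Nat.mul_add_mod, Nat.mod_eq_of_lt h2] at h7
  exact h7

end Pool.Agent.EMT.KN
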