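import Pool.Agent.EMT.KN1

/-!
# EMT / KN2: the test on a box
-/

set_option autoImplicit false

namespace Pool.Agent.EMT.KN

open Polynomial

/-! ### real values -/

def ev1 (z : ℝ) : List ℕ → ℝ
  | [] => 0
  | a :: as => (a : ℝ) + z * ev1 z as

def ev2 (y z : ℝ) : List (List ℕ) → ℝ
  | [] => 0
  | a :: as => ev1 z a + y * ev2 y z as

/-- The value of a nested list of coefficients. -/
def evR (x y z : ℝ) : List (List (List ℕ)) → ℝ
  | [] => 0
  | a :: as => ev2 y z a + x * evR x y z as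

/-- All lists are short enough. -/
def short (n m l : ℕ) (A : List (List (List ℕ))) : Bool :=
  Nat.ble A.length (n + 1) && A.all fun A2 => Nat.ble A2.length (m + 1) &&
    A2.all fun A1 => Nat.ble A1.length (l + 1)

/-- Homogenisation. -/
lemma dt_wts {β : Type*} (f : β → ℝ) (g : List β → ℝ) (t : ℝ) (hg0 : g [] = 0)
    (hg : ∀ a as, g (a :: as) = f a + t * g as) {p q : ℝ} (hpq : p = q * t) :
    ∀ (j i : ℕ) (as : List β), as.length ≤ j + 1 →
      dt f as (wts p q i j) = p ^ i * q ^ j * g as := by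
  intro j
  induction j with
  | zero =>
    intro i as has
    cases as with
    | nil => simp [dt, hg0]
    | cons a as =>
      have : as = [] := by simpa using has
      subst this
      rw [wts, dt, hg, hg0]
      simp [dt, mul_comm]
  | succ j ih =>
    intro i as has
    cases as with
    | nil => simp [dt, hg0]
    | cons a as =>
      rw [wts, dt, ih (i + 1) as (by simp at has; omega), hg, pow_succ p i, pow_succ q j]
      rw [hpq]; ring

lemma short_iff {n m l : ℕ} {A : List (List (List ℕ))} (h : short n m l A = true) :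
    A.length ≤ n + 1 ∧ ∀ A2 ∈ A, A2.length ≤ m + 1 ∧ ∀ A1 ∈ A2, A1.length ≤ l + 1 := by
  simp only [short, Bool.and_eq_true, List.all_eq_true, Nat.ble_eq] at h
  exact h

lemma dt_congr {S β : Type*} [CommSemiring S] {f g : β → S} {as : List β} (h : ∀ a ∈ as, f a = g a)
    (ws : List S) : dt f as ws = dt g as ws := by
  induction as generalizing ws with
  | nil => simp [dt]
  | cons a as ih =>
    cases ws with
    | nil => simp [dt]
    | cons w ws =>
      rw [dt, dt, h a (by simp), ih fun b hb => h b (by simp [hb])]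

lemma dt_smul {S β : Type*} [CommSemiring S] (c : S) (f : β → S) (as : List β)
    (ws : List S) : dt (fun a => c * f a) as ws = c * dt f as ws := by
  induction as generalizing ws with
  | nil => simp [dt]
  | cons a as ih =>
    cases ws with
    | nil => simp [dt]
    | cons w ws => rw [dt, dt, ih]; ring

/-- The homogenised value. -/
theorem val3_wts {n m l : ℕ} {A : List (List (List ℕ))} (hA : short n m l A = true)
    {x y z px qx py qy pz qz : ℝ} (hx : px = qx * x) (hy : py = qy * y) (hz : pz = qz * z) :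
    val3 A (wts px qx 0 n) (wts py qy 0 m) (wts pz qz 0 l) =
      qx ^ n * (qy ^ m * (qz ^ l * evR x y z A)) := by
  have hs := short_iff hA
  unfold val3
  have h1 : ∀ A2 ∈ A, dt (fun A1 : List ℕ => dt (fun a : ℕ => (a : ℝ)) A1 (wts pz qz 0 l)) A2
      (wts py qy 0 m) = (qy ^ m * qz ^ l) * ev2 y z A2 := by
    intro A2 h2
    have h3 : ∀ A1 ∈ A2, dt (fun a : ℕ => (a : ℝ)) A1 (wts pz qz 0 l) = qz ^ l * ev1 z A1 := by
      intro A1 h4
      rw [dt_wts (fun a : ℕ => (a : ℝ)) (ev1 z) z rfl (fun _ _ => rfl) hz l 0 A1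
        ((hs.2 A2 h2).2 A1 h4), pow_zero, one_mul]
    rw [dt_congr h3, dt_smul, dt_wts (ev1 z) (ev2 y z) y rfl (fun _ _ => rfl) hy m 0 A2
      (hs.2 A2 h2).1, pow_zero]
    ring
  rw [dt_congr h1, dt_smul, dt_wts (ev2 y z) (evR x y z) x rfl (fun _ _ => rfl) hx n 0 A hs.1,
    pow_zero]
  ring

/-! ### norms -/

def nrm (A : List (List (List ℕ))) : ℕ := (A.map fun A2 => (A2.map fun A1 => A1.sum).sum).sum

lemma dt_le {β : Type*} {f : β → ℕ} {W : ℕ} (as : List β) {ws : List ℕ} (hw : ∀ w ∈ ws, w ≤ W) :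
    dt f as ws ≤ (as.map f).sum * W := by
  induction as generalizing ws with
  | nil => simp [dt]
  | cons a as ih =>
    cases ws with
    | nil => simp [dt]
    | cons w ws =>
      rw [dt, List.map_cons, List.sum_cons, Nat.add_mul]
      exact Nat.add_le_add (Nat.mul_le_mul_left _ (hw w (by simp)))
        (ih fun v hv => hw v (by simp [hv]))

lemma sum_map_le {β : Type*} {f g : β → ℕ} (as : List β) (h : ∀ a ∈ as, f a ≤ g a) :
    (as.map f).sum ≤ (as.map g).sum := by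
  induction as with
  | nil => simp
  | cons a as ih =>
    simp only [List.map_cons, List.sum_cons]
    exact Nat.add_le_add (h a (by simp)) (ih fun b hb => h b (by simp [hb]))

lemma sum_map_mul {β : Type*} (f : β → ℕ) (c : ℕ) (as : List β) :
    (as.map fun a => f a * c).sum = (as.map f).sum * c := by
  induction as with
  | nil => simp
  | cons a as ih => simp only [List.map_cons, List.sum_cons, ih, Nat.add_mul]

lemma val3_le (A : List (List (List ℕ))) {wx wy wz : List ℕ} {X Y Z : ℕ} (hx : ∀ w ∈ wx, w ≤ X)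
    (hy : ∀ w ∈ wy, w ≤ Y) (hz : ∀ w ∈ wz, w ≤ Z) : val3 A wx wy wz ≤ nrm A * (X * (Y * Z)) := by
  unfold val3
  refine (dt_le A hx).trans ?_
  have h1 : (A.map fun A2 => dt (fun A1 => dt (fun a : ℕ => (a : ℕ)) A1 wz) A2 wy).sum ≤
      (A.map fun A2 => (A2.map fun A1 => A1.sum).sum * (Y * Z)).sum := by
    refine sum_map_le A fun A2 _ => (dt_le A2 hy).trans ?_
    have h2 : (A2.map fun A1 => dt (fun a : ℕ => (a : ℕ)) A1 wz).sum ≤
        (A2.map fun A1 => A1.sum * Z).sum := by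
      refine sum_map_le A2 fun A1 _ => (dt_le A1 hz).trans ?_
      simp
    rw [sum_map_mul] at h2
    calc (A2.map fun A1 => dt (fun a : ℕ => (a : ℕ)) A1 wz).sum * Y
        ≤ (A2.map fun A1 => A1.sum).sum * Z * Y := Nat.mul_le_mul_right _ h2
      _ = _ := by ring
  rw [sum_map_mul] at h1
  calc (A.map fun A2 => dt (fun A1 => dt (fun a : ℕ => (a : ℕ)) A1 wz) A2 wy).sum * X
      ≤ nrm A * (Y * Z) * X := Nat.mul_le_mul_right _ h1
    _ = _ := by ring

lemma wts_le {p q s : ℕ} (hp : p ≤ s) (hq : q ≤ s) (i j : ℕ) :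
    ∀ w ∈ wts p q i j, w ≤ s ^ (i + j) := by
  induction j generalizing i with
  | zero =>
    intro w hw
    rw [wts, List.mem_singleton] at hw
    rw [hw, Nat.add_zero]
    exact Nat.pow_le_pow_left hp i
  | succ j ih =>
    intro w hw
    rw [wts, List.mem_cons] at hw
    rcases hw with rfl | hw
    · have e1 : p ^ i ≤ s ^ i := Nat.pow_le_pow_left hp i
      have e2 : q ^ (j + 1) ≤ s ^ (j + 1) := Nat.pow_le_pow_left hq (j + 1)
      calc p ^ i * q ^ (j + 1) ≤ s ^ i * s ^ (j + 1) := Nat.mul_le_mul e1 e2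
        _ = s ^ (i + (j + 1)) := (pow_add s i (j + 1)).symm
    · have := ih (i + 1) w hw
      have e : i + 1 + j = i + (j + 1) := by omega
      rwa [e] at this

/-! ### the weights as polynomials -/

lemma pw_eval {S : Type*} [CommSemiring S] (T0 T1 D n : ℕ) (x : S) :
    (pw T0 T1 D n).map (fun w => eval₂ (Nat.castRingHom S) x w) =
      wts ((T0 : S) + T1 * x) ((D : S) * (1 + x)) 0 n := by
  have h := wts_hom (eval₂RingHom (Nat.castRingHom S) x) (C T0 + C T1 * X) (C D * (1 + X)) 0 n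
  unfold pw
  simp only [coe_eval₂RingHom] at h
  rw [show (fun w => eval₂ (Nat.castRingHom S) x w) = eval₂ (Nat.castRingHom S) x from rfl, h]
  congr 1 <;> simp

/-! ### the leaf -/

/-- The geometric mask. -/
def msk (L N : ℕ) : ℕ := 2 ^ (L - 1) * ((2 ^ (L * N) - 1) / (2 ^ L - 1))

lemma msk_eq (L N : ℕ) (hL : 1 ≤ L) :
    msk L N = ∑ e ∈ Finset.range N, 2 ^ (L - 1) * (2 ^ L) ^ e := by
  have h2 : 2 ≤ 2 ^ L := by
    calc 2 = 2 ^ 1 := rfl
      _ ≤ 2 ^ L := Nat.pow_le_pow_right (by norm_num) hL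
  rw [msk, ← Finset.mul_sum, Nat.geomSum_eq h2, pow_mul]

/-- A polynomial with natural coefficients of positive and negative terms. -/
structure PM where
  p : List (List (List ℕ))
  n : List (List (List ℕ))

/-- The value. -/
def PM.ev (A : PM) (x y z : ℝ) : ℝ := evR x y z A.p - evR x y z A.n

/-- The numbers of a table at the given point of a commutative semiring. -/
noncomputable def vl {S : Type*} [CommSemiring S] (n m l T0 T1 D U0 U1 E V0 V1 F : ℕ)
    (A : List (List (List ℕ))) (x y z : S) : S :=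
  val3 A (wts ((T0 : S) + T1 * x) ((D : S) * (1 + x)) 0 n)
    (wts ((U0 : S) + U1 * y) ((E : S) * (1 + y)) 0 m)
    (wts ((V0 : S) + V1 * z) ((F : S) * (1 + z)) 0 l)

/-- The coefficients. -/
noncomputable def co (n m l T0 T1 D U0 U1 E V0 V1 F : ℕ) (A : List (List (List ℕ)))
    (e1 e2 e3 : ℕ) : ℕ := cf A (pw T0 T1 D n) (pw U0 U1 E m) (pw V0 V1 F l) e1 e2 e3

lemma vl_eq {S : Type*} [CommSemiring S] (n m l T0 T1 D U0 U1 E V0 V1 F : ℕ)
    (A : List (List (List ℕ))) (x y z : S) :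
    vl n m l T0 T1 D U0 U1 E V0 V1 F A x y z =
      ∑ e1 ∈ Finset.range (n + 1), ∑ e2 ∈ Finset.range (m + 1), ∑ e3 ∈ Finset.range (l + 1),
        ((co n m l T0 T1 D U0 U1 E V0 V1 F A e1 e2 e3 : ℕ) : S) * (z ^ e3 * y ^ e2 * x ^ e1) := by
  unfold vl co
  rw [← pw_eval, ← pw_eval, ← pw_eval]
  exact val3_eq A (pw_deg _ _ _ _) (pw_deg _ _ _ _) (pw_deg _ _ _ _) x y z

lemma co_le (n m l T0 T1 D U0 U1 E V0 V1 F : ℕ) (A : List (List (List ℕ))) {e1 e2 e3 : ℕ}
    (h1 : e1 < n + 1) (h2 : e2 < m + 1) (h3 : e3 < l + 1) :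
    co n m l T0 T1 D U0 U1 E V0 V1 F A e1 e2 e3 ≤ nrm A *
      (max (T0 + T1) (2 * D) ^ n * (max (U0 + U1) (2 * E) ^ m * max (V0 + V1) (2 * F) ^ l)) := by
  have h := vl_eq (S := ℕ) n m l T0 T1 D U0 U1 E V0 V1 F A 1 1 1
  have h4 : co n m l T0 T1 D U0 U1 E V0 V1 F A e1 e2 e3 ≤
      vl (S := ℕ) n m l T0 T1 D U0 U1 E V0 V1 F A 1 1 1 := by
    rw [h]
    simp only [one_pow, mul_one, Nat.cast_id]
    calc co n m l T0 T1 D U0 U1 E V0 V1 F A e1 e2 e3
        ≤ ∑ e3 ∈ Finset.range (l + 1), co n m l T0 T1 D U0 U1 E V0 V1 F A e1 e2 e3 :=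
          Finset.single_le_sum (f := fun e3 => co n m l T0 T1 D U0 U1 E V0 V1 F A e1 e2 e3)
            (fun _ _ => Nat.zero_le _) (Finset.mem_range.2 h3)
      _ ≤ ∑ e2 ∈ Finset.range (m + 1), ∑ e3 ∈ Finset.range (l + 1),
            co n m l T0 T1 D U0 U1 E V0 V1 F A e1 e2 e3 :=
          Finset.single_le_sum (f := fun e2 => ∑ e3 ∈ Finset.range (l + 1),
            co n m l T0 T1 D U0 U1 E V0 V1 F A e1 e2 e3)
            (fun _ _ => Nat.zero_le _) (Finset.mem_range.2 h2)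
      _ ≤ _ :=
          Finset.single_le_sum (f := fun e1 => ∑ e2 ∈ Finset.range (m + 1),
            ∑ e3 ∈ Finset.range (l + 1), co n m l T0 T1 D U0 U1 E V0 V1 F A e1 e2 e3)
            (fun _ _ => Nat.zero_le _) (Finset.mem_range.2 h1)
  refine h4.trans ?_
  unfold vl
  refine val3_le A (fun w hw => ?_) (fun w hw => ?_) (fun w hw => ?_)
  · have := wts_le (s := max (T0 + T1) (2 * D)) ?_ ?_ 0 n w hw
    · simpa using this
    · simp
    · simp only [Nat.cast_id]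
      rw [mul_comm D]
      exact le_max_right _ _
  · have := wts_le (s := max (U0 + U1) (2 * E)) ?_ ?_ 0 m w hw
    · simpa using this
    · simp
    · simp only [Nat.cast_id]
      rw [mul_comm E]
      exact le_max_right _ _
  · have := wts_le (s := max (V0 + V1) (2 * F)) ?_ ?_ 0 l w hw
    · simpa using this
    · simp
    · simp only [Nat.cast_id]
      rw [mul_comm F]
      exact le_max_right _ _

/-- The statement of the leaf test in numbers. -/
structure LeafOK (n m l : ℕ) (P G C : PM) (a b : ℕ) (T0 T1 D U0 U1 E V0 V1 F : ℕ) (L X Y Z : ℕ) :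
    Prop where
  hL : 1 ≤ L
  hZ : Z = 2 ^ L
  hY : Y = (2 ^ L) ^ (l + 1)
  hX : X = (2 ^ L) ^ ((m + 1) * (l + 1))
  bp : ((nrm P.p + a * nrm G.n + b * nrm C.n) *
    (max (T0 + T1) (2 * D) ^ n * (max (U0 + U1) (2 * E) ^ m * max (V0 + V1) (2 * F) ^ l))) <
    2 ^ (L - 1)
  bn : ((nrm P.n + a * nrm G.p + b * nrm C.p) *
    (max (T0 + T1) (2 * D) ^ n * (max (U0 + U1) (2 * E) ^ m * max (V0 + V1) (2 * F) ^ l))) <
    2 ^ (L - 1)
  le : vl n m l T0 T1 D U0 U1 E V0 V1 F P.n X Y Z + a * vl n m l T0 T1 D U0 U1 E V0 V1 F G.p X Y Z +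
      b * vl n m l T0 T1 D U0 U1 E V0 V1 F C.p X Y Z ≤
    vl n m l T0 T1 D U0 U1 E V0 V1 F P.p X Y Z + a * vl n m l T0 T1 D U0 U1 E V0 V1 F G.n X Y Z +
      b * vl n m l T0 T1 D U0 U1 E V0 V1 F C.n X Y Z
  land : ((vl n m l T0 T1 D U0 U1 E V0 V1 F P.p X Y Z +
      a * vl n m l T0 T1 D U0 U1 E V0 V1 F G.n X Y Z +
      b * vl n m l T0 T1 D U0 U1 E V0 V1 F C.n X Y Z) -
    (vl n m l T0 T1 D U0 U1 E V0 V1 F P.n X Y Z +
      a * vl n m l T0 T1 D U0 U1 E V0 V1 F G.p X Y Z +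
      b * vl n m l T0 T1 D U0 U1 E V0 V1 F C.p X Y Z)) &&& msk L ((n + 1) * ((m + 1) * (l + 1))) = 0

/-- Coefficients. -/
theorem LeafOK.co_le {n m l : ℕ} {P G C : PM} {a b : ℕ} {T0 T1 D U0 U1 E V0 V1 F : ℕ}
    {L X Y Z : ℕ} (h : LeafOK n m l P G C a b T0 T1 D U0 U1 E V0 V1 F L X Y Z) :
    ∀ e1 < n + 1, ∀ e2 < m + 1, ∀ e3 < l + 1,
      co n m l T0 T1 D U0 U1 E V0 V1 F P.n e1 e2 e3 +
        a * co n m l T0 T1 D U0 U1 E V0 V1 F G.p e1 e2 e3 +
        b * co n m l T0 T1 D U0 U1 E V0 V1 F C.p e1 e2 e3 ≤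
      co n m l T0 T1 D U0 U1 E V0 V1 F P.p e1 e2 e3 +
        a * co n m l T0 T1 D U0 U1 E V0 V1 F G.n e1 e2 e3 +
        b * co n m l T0 T1 D U0 U1 E V0 V1 F C.n e1 e2 e3 := by
  have hv : ∀ A B C' : List (List (List ℕ)),
      vl n m l T0 T1 D U0 U1 E V0 V1 F A X Y Z + a * vl n m l T0 T1 D U0 U1 E V0 V1 F B X Y Z +
        b * vl n m l T0 T1 D U0 U1 E V0 V1 F C' X Y Z =
      ∑ e1 ∈ Finset.range (n + 1), ∑ e2 ∈ Finset.range (m + 1), ∑ e3 ∈ Finset.range (l + 1),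
        (co n m l T0 T1 D U0 U1 E V0 V1 F A e1 e2 e3 +
          a * co n m l T0 T1 D U0 U1 E V0 V1 F B e1 e2 e3 +
          b * co n m l T0 T1 D U0 U1 E V0 V1 F C' e1 e2 e3) *
        ((2 ^ L) ^ e3 * ((2 ^ L) ^ (l + 1)) ^ e2 * ((2 ^ L) ^ ((m + 1) * (l + 1))) ^ e1) := by
    intro A B C'
    rw [vl_eq, vl_eq, vl_eq, h.hX, h.hY, h.hZ, Finset.mul_sum, Finset.mul_sum,
      ← Finset.sum_add_distrib, ← Finset.sum_add_distrib]
    refine Finset.sum_congr rfl fun e1 _ => ?_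
    rw [Finset.mul_sum, Finset.mul_sum, ← Finset.sum_add_distrib, ← Finset.sum_add_distrib]
    refine Finset.sum_congr rfl fun e2 _ => ?_
    rw [Finset.mul_sum, Finset.mul_sum, ← Finset.sum_add_distrib, ← Finset.sum_add_distrib]
    refine Finset.sum_congr rfl fun e3 _ => ?_
    simp only [Nat.cast_id]
    ring
  have hb : ∀ A B C' : List (List (List ℕ)),
      ((nrm A + a * nrm B + b * nrm C') *
        (max (T0 + T1) (2 * D) ^ n * (max (U0 + U1) (2 * E) ^ m * max (V0 + V1) (2 * F) ^ l))) <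
        2 ^ (L - 1) → ∀ e1 < n + 1, ∀ e2 < m + 1, ∀ e3 < l + 1,
      co n m l T0 T1 D U0 U1 E V0 V1 F A e1 e2 e3 +
          a * co n m l T0 T1 D U0 U1 E V0 V1 F B e1 e2 e3 +
          b * co n m l T0 T1 D U0 U1 E V0 V1 F C' e1 e2 e3 < 2 ^ (L - 1) := by
    intro A B C' h0 e1 h1 e2 h2 e3 h3
    refine lt_of_le_of_lt ?_ h0
    have q1 := KN.co_le n m l T0 T1 D U0 U1 E V0 V1 F A h1 h2 h3
    have q2 := Nat.mul_le_mul_left a (KN.co_le n m l T0 T1 D U0 U1 E V0 V1 F B h1 h2 h3)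
    have q3 := Nat.mul_le_mul_left b (KN.co_le n m l T0 T1 D U0 U1 E V0 V1 F C' h1 h2 h3)
    calc _ ≤ _ := Nat.add_le_add (Nat.add_le_add q1 q2) q3
      _ = _ := by ring
  refine digits3 L h.hL (n + 1) (m + 1) (l + 1) _ _ (hb P.p G.n C.n h.bp) (hb P.n G.p C.p h.bn)
    _ _ (hv P.p G.n C.n) (hv P.n G.p C.p) h.le ?_
  rw [← msk_eq _ _ h.hL]
  exact h.land

/-- The sizes of the tables. -/
def PM.short (n m l : ℕ) (A : PM) : Prop := KN.short n m l A.p = true ∧ KN.short n m l A.n = true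

lemma vl_real {n m l T0 T1 D U0 U1 E V0 V1 F : ℕ} {A : List (List (List ℕ))}
    (hA : short n m l A = true) {x y z s1 s2 s3 : ℝ} (h1 : T0 + T1 * s1 = D * (1 + s1) * x)
    (h2 : U0 + U1 * s2 = E * (1 + s2) * y) (h3 : V0 + V1 * s3 = F * (1 + s3) * z) :
    vl n m l T0 T1 D U0 U1 E V0 V1 F A s1 s2 s3 =
      (D * (1 + s1)) ^ n * ((E * (1 + s2)) ^ m * ((F * (1 + s3)) ^ l * evR x y z A)) :=
  val3_wts hA h1 h2 h3

/-- On the half open box. -/
theorem LeafOK.half {n m l : ℕ} {P G C : PM} {a b : ℕ} {T0 T1 D U0 U1 E V0 V1 F : ℕ}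
    {L X Y Z : ℕ} (h : LeafOK n m l P G C a b T0 T1 D U0 U1 E V0 V1 F L X Y Z)
    (sP : P.short n m l) (sG : G.short n m l) (sC : C.short n m l)
    (hD : 0 < D) (hE : 0 < E) (hF : 0 < F) {x y z : ℝ} (x0 : (T0 : ℝ) ≤ D * x)
    (x1 : (D : ℝ) * x < T1) (y0 : (U0 : ℝ) ≤ E * y) (y1 : (E : ℝ) * y < U1)
    (z0 : (V0 : ℝ) ≤ F * z) (z1 : (F : ℝ) * z < V1) :
    0 ≤ P.ev x y z - a * G.ev x y z - b * C.ev x y z := by
  have key : ∀ (T0 T1 D x : ℝ), 0 < D → T0 ≤ D * x → D * x < T1 → ∃ s : ℝ, 0 ≤ s ∧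
      T0 + T1 * s = D * (1 + s) * x := by
    intro T0 T1 D x _ h0 h1
    refine ⟨(D * x - T0) / (T1 - D * x), div_nonneg (by linarith) (by linarith), ?_⟩
    have : T1 - D * x ≠ 0 := by
      intro h2; linarith
    field_simp
    ring
  have hD' : (0 : ℝ) < D := by exact_mod_cast hD
  have hE' : (0 : ℝ) < E := by exact_mod_cast hE
  have hF' : (0 : ℝ) < F := by exact_mod_cast hF
  obtain ⟨s1, p1, q1⟩ := key T0 T1 D x hD' x0 x1
  obtain ⟨s2, p2, q2⟩ := key U0 U1 E y hE' y0 y1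
  obtain ⟨s3, p3, q3⟩ := key V0 V1 F z hF' z0 z1
  have hc := h.co_le
  have hle : vl n m l T0 T1 D U0 U1 E V0 V1 F P.n s1 s2 s3 +
      a * vl n m l T0 T1 D U0 U1 E V0 V1 F G.p s1 s2 s3 +
      b * vl n m l T0 T1 D U0 U1 E V0 V1 F C.p s1 s2 s3 ≤
    vl n m l T0 T1 D U0 U1 E V0 V1 F P.p s1 s2 s3 +
      a * vl n m l T0 T1 D U0 U1 E V0 V1 F G.n s1 s2 s3 +
      b * vl n m l T0 T1 D U0 U1 E V0 V1 F C.n s1 s2 s3 := by
    simp only [vl_eq, Finset.mul_sum, ← Finset.sum_add_distrib]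
    refine Finset.sum_le_sum fun e1 h1 => Finset.sum_le_sum fun e2 h2 =>
      Finset.sum_le_sum fun e3 h3 => ?_
    rw [Finset.mem_range] at h1 h2 h3
    have h4 := hc e1 h1 e2 h2 e3 h3
    have h5 : ((co n m l T0 T1 D U0 U1 E V0 V1 F P.n e1 e2 e3 +
        a * co n m l T0 T1 D U0 U1 E V0 V1 F G.p e1 e2 e3 +
        b * co n m l T0 T1 D U0 U1 E V0 V1 F C.p e1 e2 e3 : ℕ) : ℝ) ≤
      ((co n m l T0 T1 D U0 U1 E V0 V1 F P.p e1 e2 e3 +
        a * co n m l T0 T1 D U0 U1 E V0 V1 F G.n e1 e2 e3 +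
        b * co n m l T0 T1 D U0 U1 E V0 V1 F C.n e1 e2 e3 : ℕ) : ℝ) := by exact_mod_cast h4
    push_cast at h5
    have h6 : 0 ≤ s3 ^ e3 * s2 ^ e2 * s1 ^ e1 := by positivity
    nlinarith [mul_le_mul_of_nonneg_right h5 h6]
  rw [vl_real sP.2 q1 q2 q3, vl_real sG.1 q1 q2 q3, vl_real sC.1 q1 q2 q3,
    vl_real sP.1 q1 q2 q3, vl_real sG.2 q1 q2 q3, vl_real sC.2 q1 q2 q3] at hle
  have hq : 0 < (D * (1 + s1)) ^ n * ((E * (1 + s2)) ^ m * (F * (1 + s3)) ^ l) := by positivity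
  have h7 : 0 ≤ ((D * (1 + s1)) ^ n * ((E * (1 + s2)) ^ m * (F * (1 + s3)) ^ l)) *
      (P.ev x y z - a * G.ev x y z - b * C.ev x y z) := by
    unfold PM.ev
    linarith
  exact nonneg_of_mul_nonneg_right h7 hq

lemma cont_ev1 {f : ℝ → ℝ} (hf : Continuous f) (A : List ℕ) : Continuous fun r => ev1 (f r) A := by
  induction A with
  | nil => simpa [ev1] using continuous_const
  | cons a as ih =>
    show Continuous fun r => (a : ℝ) + f r * ev1 (f r) as
    exact continuous_const.add (hf.mul ih)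

lemma cont_ev2 {f g : ℝ → ℝ} (hf : Continuous f) (hg : Continuous g) (A : List (List ℕ)) :
    Continuous fun r => ev2 (f r) (g r) A := by
  induction A with
  | nil => simpa [ev2] using continuous_const
  | cons a as ih =>
    show Continuous fun r => ev1 (g r) a + f r * ev2 (f r) (g r) as
    exact (cont_ev1 hg a).add (hf.mul ih)

lemma cont_evR {f g h : ℝ → ℝ} (hf : Continuous f) (hg : Continuous g) (hh : Continuous h)
    (A : List (List (List ℕ))) : Continuous fun r => evR (f r) (g r) (h r) A := by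
  induction A with
  | nil => simpa [evR] using continuous_const
  | cons a as ih =>
    show Continuous fun r => ev2 (g r) (h r) a + f r * evR (f r) (g r) (h r) as
    exact (cont_ev2 hg hh a).add (hf.mul ih)

/-- On the closed box. -/
theorem LeafOK.sound {n m l : ℕ} {P G C : PM} {a b : ℕ} {T0 T1 D U0 U1 E V0 V1 F : ℕ}
    {L X Y Z : ℕ} (h : LeafOK n m l P G C a b T0 T1 D U0 U1 E V0 V1 F L X Y Z)
    (sP : P.short n m l) (sG : G.short n m l) (sC : C.short n m l)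
    (hD : 0 < D) (hE : 0 < E) (hF : 0 < F) (hT : T0 < T1) (hU : U0 < U1) (hV : V0 < V1)
    {x y z : ℝ} (x0 : (T0 : ℝ) ≤ D * x)
    (x1 : (D : ℝ) * x ≤ T1) (y0 : (U0 : ℝ) ≤ E * y) (y1 : (E : ℝ) * y ≤ U1)
    (z0 : (V0 : ℝ) ≤ F * z) (z1 : (F : ℝ) * z ≤ V1) (hG : 0 ≤ G.ev x y z)
    (hC : 0 ≤ C.ev x y z) : 0 ≤ P.ev x y z := by
  have hD' : (0 : ℝ) < D := by exact_mod_cast hD
  have hE' : (0 : ℝ) < E := by exact_mod_cast hE
  have hF' : (0 : ℝ) < F := by exact_mod_cast hF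
  have hT' : (T0 : ℝ) < T1 := by exact_mod_cast hT
  have hU' : (U0 : ℝ) < U1 := by exact_mod_cast hU
  have hV' : (V0 : ℝ) < V1 := by exact_mod_cast hV
  obtain ⟨f, hf⟩ : ∃ f : ℝ → ℝ, ∀ r, f r = T0 / D + r * (x - T0 / D) := ⟨_, fun _ => rfl⟩
  obtain ⟨g, hg⟩ : ∃ g : ℝ → ℝ, ∀ r, g r = U0 / E + r * (y - U0 / E) := ⟨_, fun _ => rfl⟩
  obtain ⟨k, hk⟩ : ∃ k : ℝ → ℝ, ∀ r, k r = V0 / F + r * (z - V0 / F) := ⟨_, fun _ => rfl⟩
  have cf : Continuous f := by
    rw [show f = fun r => T0 / D + r * (x - T0 / D) from funext hf]; fun_prop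
  have cg : Continuous g := by
    rw [show g = fun r => U0 / E + r * (y - U0 / E) from funext hg]; fun_prop
  have ck : Continuous k := by
    rw [show k = fun r => V0 / F + r * (z - V0 / F) from funext hk]; fun_prop
  have f1 : f 1 = x := by rw [hf]; ring
  have g1 : g 1 = y := by rw [hg]; ring
  have k1 : k 1 = z := by rw [hk]; ring
  have cont : Continuous fun r => P.ev (f r) (g r) (k r) - a * G.ev (f r) (g r) (k r) -
      b * C.ev (f r) (g r) (k r) := by
    unfold PM.ev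
    have c := fun A => cont_evR cf cg ck A
    exact (((c P.p).sub (c P.n)).sub (continuous_const.mul ((c G.p).sub (c G.n)))).sub
      (continuous_const.mul ((c C.p).sub (c C.n)))
  have hin : ∀ (T0 T1 D x r : ℝ), 0 < D → T0 < T1 → T0 ≤ D * x → D * x ≤ T1 → 0 < r → r < 1 →
      T0 ≤ D * (T0 / D + r * (x - T0 / D)) ∧ D * (T0 / D + r * (x - T0 / D)) < T1 := by
    intro T0 T1 D x r hD hT h0 h1 hr hr1
    have e : D * (T0 / D + r * (x - T0 / D)) = T0 + r * (D * x - T0) := by field_simp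
    rw [e]
    constructor
    · nlinarith [mul_nonneg hr.le (sub_nonneg.2 h0)]
    · have : r * (D * x - T0) ≤ r * (T1 - T0) := by
        apply mul_le_mul_of_nonneg_left _ hr.le
        linarith
      nlinarith
  have hev : ∀ᶠ r in nhdsWithin (1 : ℝ) (Set.Iio 1),
      0 ≤ P.ev (f r) (g r) (k r) - a * G.ev (f r) (g r) (k r) - b * C.ev (f r) (g r) (k r) := by
    have : Set.Ioo (0 : ℝ) 1 ∈ nhdsWithin (1 : ℝ) (Set.Iio 1) := Ioo_mem_nhdsLT one_pos
    filter_upwards [this] with r hr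
    have a1 := hin T0 T1 D x r hD' hT' x0 x1 hr.1 hr.2
    have a2 := hin U0 U1 E y r hE' hU' y0 y1 hr.1 hr.2
    have a3 := hin V0 V1 F z r hF' hV' z0 z1 hr.1 hr.2
    rw [← hf] at a1
    rw [← hg] at a2
    rw [← hk] at a3
    exact h.half sP sG sC hD hE hF a1.1 a1.2 a2.1 a2.2 a3.1 a3.2
  have hlim := ge_of_tendsto (cont.continuousAt.tendsto.mono_left
    (nhdsWithin_le_nhds (a := (1 : ℝ)) (s := Set.Iio 1))) hev
  simp only [f1, g1, k1] at hlim
  have : 0 ≤ (a : ℝ) * G.ev x y z := by positivity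
  have : 0 ≤ (b : ℝ) * C.ev x y z := by positivity
  linarith

end Pool.Agent.EMT.KN
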