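import Pool.Agent.EMT.KN2

/-!
# EMT / KN3: the test as a function for evaluation, and trees of boxes
-/

set_option autoImplicit false

namespace Pool.Agent.EMT.KN

/-- Evaluates `n` first. -/
noncomputable def frc {β : Type} (n : ℕ) (k : ℕ → β) : β :=
  @Nat.rec (fun _ => β) (k 0) (fun m _ => k (Nat.succ m)) n

lemma frc_eq {β : Type} (n : ℕ) (k : ℕ → β) : frc n k = k n := by cases n <;> rfl

/-- The list of the weights, evaluated. -/
noncomputable def wk (p q j : ℕ) : ℕ → (List ℕ → Bool) → Bool :=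
  @Nat.rec (fun _ => ℕ → (List ℕ → Bool) → Bool)
    (fun i k => frc (Nat.pow p i) fun w => k [w])
    (fun j ih i k => frc (Nat.mul (Nat.pow p i) (Nat.pow q (Nat.succ j))) fun w =>
      ih (Nat.succ i) fun ws => k (w :: ws)) j

lemma wk_eq (p q j i : ℕ) (k : List ℕ → Bool) : wk p q j i k = k (wts p q i j) := by
  induction j generalizing i k with
  | zero =>
    show frc (Nat.pow p i) (fun w => k [w]) = _
    rw [frc_eq]; rfl
  | succ j ih =>
    show frc (Nat.mul (Nat.pow p i) (Nat.pow q (Nat.succ j))) (fun w =>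
      wk p q j (Nat.succ i) fun ws => k (w :: ws)) = _
    rw [frc_eq, ih]; rfl

noncomputable def kd1 (A : List ℕ) : List ℕ → ℕ :=
  @List.rec ℕ (fun _ => List ℕ → ℕ) (fun _ => 0)
    (fun a _ ih ws => @List.rec ℕ (fun _ => ℕ) 0
      (fun w ws' _ => Nat.add (Nat.mul a w) (ih ws')) ws) A

noncomputable def kd2 (wz : List ℕ) (A : List (List ℕ)) : List ℕ → ℕ :=
  @List.rec (List ℕ) (fun _ => List ℕ → ℕ) (fun _ => 0)
    (fun a _ ih ws => @List.rec ℕ (fun _ => ℕ) 0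
      (fun w ws' _ => Nat.add (Nat.mul (kd1 a wz) w) (ih ws')) ws) A

noncomputable def kd3 (wy wz : List ℕ) (A : List (List (List ℕ))) : List ℕ → ℕ :=
  @List.rec (List (List ℕ)) (fun _ => List ℕ → ℕ) (fun _ => 0)
    (fun a _ ih ws => @List.rec ℕ (fun _ => ℕ) 0
      (fun w ws' _ => Nat.add (Nat.mul (kd2 wz a wy) w) (ih ws')) ws) A

lemma kd1_eq (A ws : List ℕ) : kd1 A ws = dt (fun a : ℕ => (a : ℕ)) A ws := by
  induction A generalizing ws with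
  | nil => rfl
  | cons a as ih =>
    cases ws with
    | nil => rfl
    | cons w ws =>
      show Nat.add (Nat.mul a w) (kd1 as ws) = _
      rw [ih]; rfl

lemma kd2_eq (wz : List ℕ) (A : List (List ℕ)) (ws : List ℕ) :
    kd2 wz A ws = dt (fun A1 => dt (fun a : ℕ => (a : ℕ)) A1 wz) A ws := by
  induction A generalizing ws with
  | nil => rfl
  | cons a as ih =>
    cases ws with
    | nil => rfl
    | cons w ws =>
      show Nat.add (Nat.mul (kd1 a wz) w) (kd2 wz as ws) = _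
      rw [ih, kd1_eq]; rfl

lemma kd3_eq (wy wz : List ℕ) (A : List (List (List ℕ))) (ws : List ℕ) :
    kd3 wy wz A ws = val3 A ws wy wz := by
  unfold val3
  induction A generalizing ws with
  | nil => rfl
  | cons a as ih =>
    cases ws with
    | nil => rfl
    | cons w ws =>
      show Nat.add (Nat.mul (kd2 wz a wy) w) (kd3 wy wz as ws) = _
      rw [ih, kd2_eq]; rfl

noncomputable def kmax (p q : ℕ) : ℕ := @Bool.rec (fun _ => ℕ) p q (Nat.ble p q)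

lemma kmax_eq (p q : ℕ) : kmax p q = max p q := by
  unfold kmax
  rcases h : Nat.ble p q with _ | _
  · have h2 : ¬ p ≤ q := fun h2 => by
      rw [Nat.ble_eq_true_of_le h2] at h
      exact Bool.noConfusion h
    show p = max p q
    exact (max_eq_left (by omega)).symm
  · show q = max p q
    exact (max_eq_right (Nat.le_of_ble_eq_true h)).symm

/-- The bound of all digits. -/
noncomputable def kbd (n m l T0 T1 D U0 U1 E V0 V1 F : ℕ) : ℕ :=
  Nat.mul (Nat.pow (kmax (Nat.add T0 T1) (Nat.mul 2 D)) n)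
    (Nat.mul (Nat.pow (kmax (Nat.add U0 U1) (Nat.mul 2 E)) m)
      (Nat.pow (kmax (Nat.add V0 V1) (Nat.mul 2 F)) l))

/-- The leaf test. -/
noncomputable def leafK (n m l : ℕ) (P G C : PM) (NP NG NC a b T0 T1 D U0 U1 E V0 V1 F : ℕ) :
    Bool :=
  frc (Nat.add (Nat.log2 (Nat.mul (Nat.add (Nat.add NP (Nat.mul a NG)) (Nat.mul b NC))
    (kbd n m l T0 T1 D U0 U1 E V0 V1 F))) 2) fun L =>
  frc (Nat.pow 2 L) fun Z => frc (Nat.pow Z (Nat.succ l)) fun Y =>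
  frc (Nat.pow Z (Nat.mul (Nat.succ m) (Nat.succ l))) fun X =>
  frc (Nat.add T0 (Nat.mul T1 X)) fun px => frc (Nat.mul D (Nat.add 1 X)) fun qx =>
  frc (Nat.add U0 (Nat.mul U1 Y)) fun py => frc (Nat.mul E (Nat.add 1 Y)) fun qy =>
  frc (Nat.add V0 (Nat.mul V1 Z)) fun pz => frc (Nat.mul F (Nat.add 1 Z)) fun qz =>
  wk pz qz l 0 fun wz => wk py qy m 0 fun wy => wk px qx n 0 fun wx =>
  frc (Nat.add (Nat.add (kd3 wy wz P.p wx) (Nat.mul a (kd3 wy wz G.n wx)))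
    (Nat.mul b (kd3 wy wz C.n wx))) fun zp =>
  frc (Nat.add (Nat.add (kd3 wy wz P.n wx) (Nat.mul a (kd3 wy wz G.p wx)))
    (Nat.mul b (kd3 wy wz C.p wx))) fun zn =>
  @Bool.rec (fun _ => Bool) false
    (Nat.beq (Nat.land (Nat.sub zp zn) (Nat.mul (Nat.pow 2 (Nat.sub L 1))
      (Nat.div (Nat.sub (Nat.pow 2 (Nat.mul L (Nat.mul (Nat.succ n)
        (Nat.mul (Nat.succ m) (Nat.succ l))))) 1) (Nat.sub (Nat.pow 2 L) 1)))) 0)
    (Nat.ble zn zp)

theorem leafK_ok {n m l : ℕ} {P G C : PM} {NP NG NC a b T0 T1 D U0 U1 E V0 V1 F : ℕ}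
    (hPp : nrm P.p ≤ NP) (hPn : nrm P.n ≤ NP) (hGp : nrm G.p ≤ NG) (hGn : nrm G.n ≤ NG)
    (hCp : nrm C.p ≤ NC) (hCn : nrm C.n ≤ NC)
    (h : leafK n m l P G C NP NG NC a b T0 T1 D U0 U1 E V0 V1 F = true) :
    ∃ L X Y Z, LeafOK n m l P G C a b T0 T1 D U0 U1 E V0 V1 F L X Y Z := by
  obtain ⟨Bd, hBd⟩ : ∃ Bd, Bd = (NP + a * NG + b * NC) *
    (max (T0 + T1) (2 * D) ^ n * (max (U0 + U1) (2 * E) ^ m * max (V0 + V1) (2 * F) ^ l)) :=
    ⟨_, rfl⟩
  have hkb : Nat.mul (Nat.add (Nat.add NP (Nat.mul a NG)) (Nat.mul b NC))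
      (kbd n m l T0 T1 D U0 U1 E V0 V1 F) = Bd := by
    rw [hBd]
    unfold kbd
    rw [kmax_eq, kmax_eq, kmax_eq]
    rfl
  unfold leafK at h
  simp only [frc_eq, wk_eq, kd3_eq, hkb] at h
  obtain ⟨L, hL⟩ : ∃ L, L = Nat.add (Nat.log2 Bd) 2 := ⟨_, rfl⟩
  rw [← hL] at h
  have hL' : L = Nat.log2 Bd + 2 := hL
  have hlog : Bd < 2 ^ (L - 1) := by
    have : L - 1 = Nat.log2 Bd + 1 := by omega
    rw [this]
    exact Nat.lt_log2_self
  rcases hble : Nat.ble (Nat.add (Nat.add (val3 P.n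
      (wts (Nat.add T0 (Nat.mul T1 (Nat.pow (Nat.pow 2 L) (Nat.mul (Nat.succ m) (Nat.succ l)))))
        (Nat.mul D (Nat.add 1 (Nat.pow (Nat.pow 2 L) (Nat.mul (Nat.succ m) (Nat.succ l))))) 0 n)
      (wts (Nat.add U0 (Nat.mul U1 (Nat.pow (Nat.pow 2 L) (Nat.succ l))))
        (Nat.mul E (Nat.add 1 (Nat.pow (Nat.pow 2 L) (Nat.succ l)))) 0 m)
      (wts (Nat.add V0 (Nat.mul V1 (Nat.pow 2 L))) (Nat.mul F (Nat.add 1 (Nat.pow 2 L))) 0 l))
      (Nat.mul a (val3 G.p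
      (wts (Nat.add T0 (Nat.mul T1 (Nat.pow (Nat.pow 2 L) (Nat.mul (Nat.succ m) (Nat.succ l)))))
        (Nat.mul D (Nat.add 1 (Nat.pow (Nat.pow 2 L) (Nat.mul (Nat.succ m) (Nat.succ l))))) 0 n)
      (wts (Nat.add U0 (Nat.mul U1 (Nat.pow (Nat.pow 2 L) (Nat.succ l))))
        (Nat.mul E (Nat.add 1 (Nat.pow (Nat.pow 2 L) (Nat.succ l)))) 0 m)
      (wts (Nat.add V0 (Nat.mul V1 (Nat.pow 2 L))) (Nat.mul F (Nat.add 1 (Nat.pow 2 L))) 0 l))))
      (Nat.mul b (val3 C.p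
      (wts (Nat.add T0 (Nat.mul T1 (Nat.pow (Nat.pow 2 L) (Nat.mul (Nat.succ m) (Nat.succ l)))))
        (Nat.mul D (Nat.add 1 (Nat.pow (Nat.pow 2 L) (Nat.mul (Nat.succ m) (Nat.succ l))))) 0 n)
      (wts (Nat.add U0 (Nat.mul U1 (Nat.pow (Nat.pow 2 L) (Nat.succ l))))
        (Nat.mul E (Nat.add 1 (Nat.pow (Nat.pow 2 L) (Nat.succ l)))) 0 m)
      (wts (Nat.add V0 (Nat.mul V1 (Nat.pow 2 L))) (Nat.mul F (Nat.add 1 (Nat.pow 2 L))) 0 l))))
    (Nat.add (Nat.add (val3 P.p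
      (wts (Nat.add T0 (Nat.mul T1 (Nat.pow (Nat.pow 2 L) (Nat.mul (Nat.succ m) (Nat.succ l)))))
        (Nat.mul D (Nat.add 1 (Nat.pow (Nat.pow 2 L) (Nat.mul (Nat.succ m) (Nat.succ l))))) 0 n)
      (wts (Nat.add U0 (Nat.mul U1 (Nat.pow (Nat.pow 2 L) (Nat.succ l))))
        (Nat.mul E (Nat.add 1 (Nat.pow (Nat.pow 2 L) (Nat.succ l)))) 0 m)
      (wts (Nat.add V0 (Nat.mul V1 (Nat.pow 2 L))) (Nat.mul F (Nat.add 1 (Nat.pow 2 L))) 0 l))
      (Nat.mul a (val3 G.n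
      (wts (Nat.add T0 (Nat.mul T1 (Nat.pow (Nat.pow 2 L) (Nat.mul (Nat.succ m) (Nat.succ l)))))
        (Nat.mul D (Nat.add 1 (Nat.pow (Nat.pow 2 L) (Nat.mul (Nat.succ m) (Nat.succ l))))) 0 n)
      (wts (Nat.add U0 (Nat.mul U1 (Nat.pow (Nat.pow 2 L) (Nat.succ l))))
        (Nat.mul E (Nat.add 1 (Nat.pow (Nat.pow 2 L) (Nat.succ l)))) 0 m)
      (wts (Nat.add V0 (Nat.mul V1 (Nat.pow 2 L))) (Nat.mul F (Nat.add 1 (Nat.pow 2 L))) 0 l))))
      (Nat.mul b (val3 C.n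
      (wts (Nat.add T0 (Nat.mul T1 (Nat.pow (Nat.pow 2 L) (Nat.mul (Nat.succ m) (Nat.succ l)))))
        (Nat.mul D (Nat.add 1 (Nat.pow (Nat.pow 2 L) (Nat.mul (Nat.succ m) (Nat.succ l))))) 0 n)
      (wts (Nat.add U0 (Nat.mul U1 (Nat.pow (Nat.pow 2 L) (Nat.succ l))))
        (Nat.mul E (Nat.add 1 (Nat.pow (Nat.pow 2 L) (Nat.succ l)))) 0 m)
      (wts (Nat.add V0 (Nat.mul V1 (Nat.pow 2 L))) (Nat.mul F (Nat.add 1 (Nat.pow 2 L))) 0 l))))
    with _ | _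
  · rw [hble] at h
    exact Bool.noConfusion h
  · rw [hble] at h
    have hle := Nat.le_of_ble_eq_true hble
    have hand := Nat.eq_of_beq_eq_true h
    refine ⟨L, (2 ^ L) ^ ((m + 1) * (l + 1)), (2 ^ L) ^ (l + 1), 2 ^ L, by omega, rfl, rfl, rfl,
      ?_, ?_, hle, hand⟩
    · refine lt_of_le_of_lt ?_ hlog
      rw [hBd]
      apply Nat.mul_le_mul_right
      exact Nat.add_le_add (Nat.add_le_add hPp (Nat.mul_le_mul_left a hGn))
        (Nat.mul_le_mul_left b hCn)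
    · refine lt_of_le_of_lt ?_ hlog
      rw [hBd]
      apply Nat.mul_le_mul_right
      exact Nat.add_le_add (Nat.add_le_add hPn (Nat.mul_le_mul_left a hGp))
        (Nat.mul_le_mul_left b hCp)

/-- Trees of boxes. -/
inductive TrK where
  /-- a box, with the multipliers -/
  | l : ℕ → ℕ → TrK
  /-- halving in direction 0, 1 or 2 -/
  | s : ℕ → TrK → TrK → TrK

/-- The check of a tree. -/
noncomputable def chkK (n m l : ℕ) (P G C : PM) (NP NG NC : ℕ) (t : TrK) :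
    ℕ → ℕ → ℕ → ℕ → ℕ → ℕ → ℕ → ℕ → ℕ → Bool :=
  @TrK.rec (fun _ => ℕ → ℕ → ℕ → ℕ → ℕ → ℕ → ℕ → ℕ → ℕ → Bool)
    (fun a b => leafK n m l P G C NP NG NC a b)
    (fun ax _ _ il ir T0 T1 D U0 U1 E V0 V1 F =>
      @Nat.rec (fun _ => Bool)
        (frc (Nat.add T0 T1) fun T => frc (Nat.mul 2 D) fun D' =>
          @Bool.rec (fun _ => Bool) false (ir T (Nat.mul 2 T1) D' U0 U1 E V0 V1 F)
            (il (Nat.mul 2 T0) T D' U0 U1 E V0 V1 F))
        (fun ax' _ => @Nat.rec (fun _ => Bool)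
          (frc (Nat.add U0 U1) fun U => frc (Nat.mul 2 E) fun E' =>
            @Bool.rec (fun _ => Bool) false (ir T0 T1 D U (Nat.mul 2 U1) E' V0 V1 F)
              (il T0 T1 D (Nat.mul 2 U0) U E' V0 V1 F))
          (fun _ _ => frc (Nat.add V0 V1) fun V => frc (Nat.mul 2 F) fun F' =>
            @Bool.rec (fun _ => Bool) false (ir T0 T1 D U0 U1 E V (Nat.mul 2 V1) F')
              (il T0 T1 D U0 U1 E (Nat.mul 2 V0) V F')) ax') ax) t

lemma chkK_l (n m l : ℕ) (P G C : PM) (NP NG NC a b T0 T1 D U0 U1 E V0 V1 F : ℕ) :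
    chkK n m l P G C NP NG NC (.l a b) T0 T1 D U0 U1 E V0 V1 F =
      leafK n m l P G C NP NG NC a b T0 T1 D U0 U1 E V0 V1 F := rfl

lemma and_of {x y : Bool} (h : @Bool.rec (fun _ => Bool) false x y = true) :
    y = true ∧ x = true := by
  cases y with
  | false => exact Bool.noConfusion h
  | true => exact ⟨rfl, h⟩

lemma chkK_s0 {n m l : ℕ} {P G C : PM} {NP NG NC T0 T1 D U0 U1 E V0 V1 F : ℕ} {r s : TrK}
    (h : chkK n m l P G C NP NG NC (.s 0 r s) T0 T1 D U0 U1 E V0 V1 F = true) :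
    chkK n m l P G C NP NG NC r (2 * T0) (T0 + T1) (2 * D) U0 U1 E V0 V1 F = true ∧
    chkK n m l P G C NP NG NC s (T0 + T1) (2 * T1) (2 * D) U0 U1 E V0 V1 F = true := by
  have e : chkK n m l P G C NP NG NC (.s 0 r s) T0 T1 D U0 U1 E V0 V1 F =
      frc (Nat.add T0 T1) fun T => frc (Nat.mul 2 D) fun D' =>
        @Bool.rec (fun _ => Bool) false
          (chkK n m l P G C NP NG NC s T (Nat.mul 2 T1) D' U0 U1 E V0 V1 F)
          (chkK n m l P G C NP NG NC r (Nat.mul 2 T0) T D' U0 U1 E V0 V1 F) := rfl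
  rw [e, frc_eq, frc_eq] at h
  exact and_of h

lemma chkK_s1 {n m l : ℕ} {P G C : PM} {NP NG NC T0 T1 D U0 U1 E V0 V1 F : ℕ} {r s : TrK}
    (h : chkK n m l P G C NP NG NC (.s 1 r s) T0 T1 D U0 U1 E V0 V1 F = true) :
    chkK n m l P G C NP NG NC r T0 T1 D (2 * U0) (U0 + U1) (2 * E) V0 V1 F = true ∧
    chkK n m l P G C NP NG NC s T0 T1 D (U0 + U1) (2 * U1) (2 * E) V0 V1 F = true := by
  have e : chkK n m l P G C NP NG NC (.s 1 r s) T0 T1 D U0 U1 E V0 V1 F =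
      frc (Nat.add U0 U1) fun U => frc (Nat.mul 2 E) fun E' =>
        @Bool.rec (fun _ => Bool) false
          (chkK n m l P G C NP NG NC s T0 T1 D U (Nat.mul 2 U1) E' V0 V1 F)
          (chkK n m l P G C NP NG NC r T0 T1 D (Nat.mul 2 U0) U E' V0 V1 F) := rfl
  rw [e, frc_eq, frc_eq] at h
  exact and_of h

lemma chkK_s2 {n m l : ℕ} {P G C : PM} {NP NG NC T0 T1 D U0 U1 E V0 V1 F : ℕ} {k : ℕ}
    {r s : TrK}
    (h : chkK n m l P G C NP NG NC (.s (k + 2) r s) T0 T1 D U0 U1 E V0 V1 F = true) :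
    chkK n m l P G C NP NG NC r T0 T1 D U0 U1 E (2 * V0) (V0 + V1) (2 * F) = true ∧
    chkK n m l P G C NP NG NC s T0 T1 D U0 U1 E (V0 + V1) (2 * V1) (2 * F) = true := by
  have e : chkK n m l P G C NP NG NC (.s (k + 2) r s) T0 T1 D U0 U1 E V0 V1 F =
      frc (Nat.add V0 V1) fun V => frc (Nat.mul 2 F) fun F' =>
        @Bool.rec (fun _ => Bool) false
          (chkK n m l P G C NP NG NC s T0 T1 D U0 U1 E V (Nat.mul 2 V1) F')
          (chkK n m l P G C NP NG NC r T0 T1 D U0 U1 E (Nat.mul 2 V0) V F') := rfl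
  rw [e, frc_eq, frc_eq] at h
  exact and_of h

/-- Everything that is checked once. -/
structure Pre (n m l : ℕ) (P G C : PM) (NP NG NC : ℕ) : Prop where
  sP : P.short n m l
  sG : G.short n m l
  sC : C.short n m l
  nPp : nrm P.p ≤ NP
  nPn : nrm P.n ≤ NP
  nGp : nrm G.p ≤ NG
  nGn : nrm G.n ≤ NG
  nCp : nrm C.p ≤ NC
  nCn : nrm C.n ≤ NC

/-- Soundness of the check. -/
theorem chkK_sound {n m l : ℕ} {P G C : PM} {NP NG NC : ℕ} (hpre : Pre n m l P G C NP NG NC)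
    {x y z : ℝ} (hG : 0 ≤ G.ev x y z) (hC : 0 ≤ C.ev x y z) (t : TrK) :
    ∀ T0 T1 D U0 U1 E V0 V1 F : ℕ, 0 < D → 0 < E → 0 < F → T0 < T1 → U0 < U1 → V0 < V1 →
      (T0 : ℝ) ≤ D * x → (D : ℝ) * x ≤ T1 → (U0 : ℝ) ≤ E * y → (E : ℝ) * y ≤ U1 →
      (V0 : ℝ) ≤ F * z → (F : ℝ) * z ≤ V1 →
      chkK n m l P G C NP NG NC t T0 T1 D U0 U1 E V0 V1 F = true → 0 ≤ P.ev x y z := by
  induction t with
  | l a b =>
    intro T0 T1 D U0 U1 E V0 V1 F hD hE hF hT hU hV x0 x1 y0 y1 z0 z1 h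
    rw [chkK_l] at h
    obtain ⟨L, X, Y, Z, hl⟩ := leafK_ok hpre.nPp hpre.nPn hpre.nGp hpre.nGn hpre.nCp hpre.nCn h
    exact hl.sound hpre.sP hpre.sG hpre.sC hD hE hF hT hU hV x0 x1 y0 y1 z0 z1 hG hC
  | s ax r s ihr ihs =>
    intro T0 T1 D U0 U1 E V0 V1 F hD hE hF hT hU hV x0 x1 y0 y1 z0 z1 h
    rcases ax with _ | _ | k
    · obtain ⟨h1, h2⟩ := chkK_s0 h
      rcases le_total (2 * ((D : ℝ) * x)) (T0 + T1) with hc | hc
      · exact ihr (2 * T0) (T0 + T1) (2 * D) U0 U1 E V0 V1 F (by omega) hE hF (by omega) hU hV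
          (by push_cast; linarith) (by push_cast; linarith) y0 y1 z0 z1 h1
      · exact ihs (T0 + T1) (2 * T1) (2 * D) U0 U1 E V0 V1 F (by omega) hE hF (by omega) hU hV
          (by push_cast; linarith) (by push_cast; linarith) y0 y1 z0 z1 h2
    · obtain ⟨h1, h2⟩ := chkK_s1 h
      rcases le_total (2 * ((E : ℝ) * y)) (U0 + U1) with hc | hc
      · exact ihr T0 T1 D (2 * U0) (U0 + U1) (2 * E) V0 V1 F hD (by omega) hF hT (by omega) hV
          x0 x1 (by push_cast; linarith) (by push_cast; linarith) z0 z1 h1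
      · exact ihs T0 T1 D (U0 + U1) (2 * U1) (2 * E) V0 V1 F hD (by omega) hF hT (by omega) hV
          x0 x1 (by push_cast; linarith) (by push_cast; linarith) z0 z1 h2
    · obtain ⟨h1, h2⟩ := chkK_s2 h
      rcases le_total (2 * ((F : ℝ) * z)) (V0 + V1) with hc | hc
      · exact ihr T0 T1 D U0 U1 E (2 * V0) (V0 + V1) (2 * F) hD hE (by omega) hT hU (by omega)
          x0 x1 y0 y1 (by push_cast; linarith) (by push_cast; linarith) h1
      · exact ihs T0 T1 D U0 U1 E (V0 + V1) (2 * V1) (2 * F) hD hE (by omega) hT hU (by omega)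
          x0 x1 y0 y1 (by push_cast; linarith) (by push_cast; linarith) h2

end Pool.Agent.EMT.KN
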