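import Mathlib

/-!
# EMT / Ker: kernels of functions of the height and the azimuth

`Qk k u v t` is the polynomial with `Re ((z w̄)^k) = Qk k u v t` for unit vectors `x = (u, z)`,
`y = (v, w)` of `ℝ × ℂ` with inner product `t`; `ker_nonneg`: the kernel
`c x * c y * Qk k` is positive semidefinite.
-/

set_option autoImplicit false

namespace Pool.Agent.EMT

open Complex ComplexConjugate

/-- `Qk 0 = 1`, `Qk 1 = t - u v`, `Qk (k+2) = 2 (t - u v) Qk (k+1) - (1-u²)(1-v²) Qk k`. -/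
def Qk : ℕ → ℝ → ℝ → ℝ → ℝ
  | 0, _, _, _ => 1
  | 1, u, v, t => t - u * v
  | (k + 2), u, v, t => 2 * (t - u * v) * Qk (k + 1) u v t - (1 - u ^ 2) * (1 - v ^ 2) * Qk k u v t

lemma re_pow_step (ζ : ℂ) (k : ℕ) :
    (ζ ^ (k + 2)).re = 2 * ζ.re * (ζ ^ (k + 1)).re - normSq ζ * (ζ ^ k).re := by
  have h : ζ ^ (k + 2) = (2 * ζ.re : ℝ) * ζ ^ (k + 1) - (normSq ζ : ℝ) * ζ ^ k := by
    have h1 : ((normSq ζ : ℝ) : ℂ) = ζ * conj ζ := by rw [mul_conj]
    have h2 : ((2 * ζ.re : ℝ) : ℂ) = ζ + conj ζ := by rw [add_conj]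
    rw [h1, h2]; ring
  rw [h, sub_re, re_ofReal_mul, re_ofReal_mul]

lemma re_pow_eq (z w : ℂ) (u v t : ℝ) (hz : normSq z = 1 - u ^ 2) (hw : normSq w = 1 - v ^ 2)
    (ht : (z * conj w).re = t - u * v) (k : ℕ) : ((z * conj w) ^ k).re = Qk k u v t := by
  induction k using Nat.strong_induction_on with
  | _ k ih =>
    match k with
    | 0 => simp [Qk]
    | 1 => simpa [Qk] using ht
    | (k + 2) =>
      rw [re_pow_step, ih (k + 1) (by omega), ih k (by omega), ht, map_mul, normSq_conj, hz, hw, Qk]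

/-- Positivity of the kernels. -/
lemma ker_nonneg {ι : Type*} (s : Finset ι) (c : ι → ℝ) (z : ι → ℂ) (k : ℕ) :
    0 ≤ ∑ i ∈ s, ∑ j ∈ s, c i * c j * ((z i * conj (z j)) ^ k).re := by
  have h : (∑ i ∈ s, ∑ j ∈ s, c i * c j * ((z i * conj (z j)) ^ k).re)
      = normSq (∑ i ∈ s, (c i : ℂ) * z i ^ k) := by
    have h1 : ((∑ i ∈ s, ∑ j ∈ s, c i * c j * ((z i * conj (z j)) ^ k).re : ℝ))
        = ((∑ i ∈ s, (c i : ℂ) * z i ^ k) * conj (∑ i ∈ s, (c i : ℂ) * z i ^ k)).re := by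
      rw [map_sum, Finset.sum_mul_sum, re_sum]
      refine Finset.sum_congr rfl fun i _ => ?_
      rw [re_sum]
      refine Finset.sum_congr rfl fun j _ => ?_
      have : (c i : ℂ) * z i ^ k * conj ((c j : ℂ) * z j ^ k)
          = ((c i * c j : ℝ) : ℂ) * (z i * conj (z j)) ^ k := by
        rw [map_mul, conj_ofReal, map_pow, mul_pow, ofReal_mul]; ring
      rw [this, re_ofReal_mul]
    rw [h1, mul_conj, ofReal_re]
  rw [h]; exact normSq_nonneg _

end Pool.Agent.EMT
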