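import Mathlib

/-!
# EMT / Mst: Euclidean minimum spanning tree drawings of a tree in space

`IsDrawing T p`: `p` is injective and the tree `T`, drawn with straight segments between the points
`p v`, has minimal total length among all trees on the vertex set.  `len_le`: in a drawing no edge
on the path from `u` to `v` is longer than the distance of `p u` and `p v`.
-/

set_option autoImplicit false

namespace Pool.Agent.EMT

open SimpleGraph

/-- Euclidean 3-space. -/
abbrev E3 : Type := EuclideanSpace ℝ (Fin 3)

variable {V : Type*}

/-- The length of the segment between the points of an unordered pair of vertices. -/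
noncomputable def len (p : V → E3) : Sym2 V → ℝ :=
  Sym2.lift ⟨fun u v => dist (p u) (p v), fun _ _ => dist_comm _ _⟩

@[simp] lemma len_mk (p : V → E3) (u v : V) : len p s(u, v) = dist (p u) (p v) := rfl

/-- The total length of the edges of a graph on `V`. -/
noncomputable def total (p : V → E3) (G : SimpleGraph V) : ℝ := ∑ᶠ e ∈ G.edgeSet, len p e

/-- `p` is a Euclidean minimum spanning tree drawing of the tree `T` in space: the points `p v` are
distinct, and no spanning tree of the complete graph on these points is shorter than the image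
of `T`. -/
def IsDrawing (T : SimpleGraph V) (p : V → E3) : Prop :=
  Function.Injective p ∧ ∀ T' : SimpleGraph V, T'.IsTree → total p T ≤ total p T'

lemma reach_or {T : SimpleGraph V} (hT : T.IsTree) {a b : V} (x : V) :
    (T.deleteEdges {s(a, b)}).Reachable x a ∨ (T.deleteEdges {s(a, b)}).Reachable x b := by
  obtain ⟨w⟩ := hT.1.preconnected x a
  induction w with
  | nil => exact Or.inl (Reachable.refl _)
  | @cons x y z h w ih =>
    by_cases he : s(x, y) = s(z, b)
    · rcases Sym2.eq_iff.1 he with ⟨rfl, rfl⟩ | ⟨rfl, rfl⟩
      · exact Or.inl (Reachable.refl _)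
      · exact Or.inr (Reachable.refl _)
    · have hadj : (T.deleteEdges {s(z, b)}).Adj x y := by
        rw [deleteEdges_adj]
        exact ⟨h, by simpa using he⟩
      rcases ih with h1 | h1
      · exact Or.inl (hadj.reachable.trans h1)
      · exact Or.inr (hadj.reachable.trans h1)

lemma swap_isTree {T : SimpleGraph V} (hT : T.IsTree) {a b u v : V}
    (hn : ¬ (T.deleteEdges {s(a, b)}).Reachable u v) :
    (T.deleteEdges {s(a, b)} ⊔ edge u v).IsTree := by
  set G := T.deleteEdges {s(a, b)} with hG
  have hac : G.IsAcyclic := hT.2.anti (deleteEdges_le _)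
  have huv : u ≠ v := fun h => hn (h ▸ Reachable.refl _)
  have hle : G ≤ G ⊔ edge u v := le_sup_left
  have huv' : (G ⊔ edge u v).Reachable u v := by
    refine Adj.reachable ?_
    rw [sup_adj]
    exact Or.inr (by rw [edge_adj]; exact ⟨Or.inl ⟨rfl, rfl⟩, huv⟩)
  have hab : (G ⊔ edge u v).Reachable a b := by
    rcases reach_or hT (a := a) (b := b) u with h1 | h1 <;>
      rcases reach_or hT (a := a) (b := b) v with h2 | h2
    · exact absurd (h1.trans h2.symm) hn
    · exact ((h1.mono hle).symm.trans huv').trans (h2.mono hle)
    · exact (((h1.mono hle).symm.trans huv').trans (h2.mono hle)).symm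
    · exact absurd (h1.trans h2.symm) hn
  have hx : ∀ x, (G ⊔ edge u v).Reachable x a := by
    intro x
    rcases reach_or hT (a := a) (b := b) x with h1 | h1
    · exact h1.mono hle
    · exact (h1.mono hle).trans hab.symm
  refine ⟨?_, hac.sup_edge_of_not_reachable hn⟩
  have : Nonempty V := ⟨a⟩
  exact ⟨fun x y => (hx x).trans (hx y).symm⟩

/-- In a drawing, an edge whose removal separates `u` and `v` is not longer than the distance of
the points of `u` and `v`. -/
theorem len_le_of_not_reachable [Finite V] {T : SimpleGraph V} (hT : T.IsTree) {p : V → E3}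
    (hp : IsDrawing T p) {a b u v : V} (hab : T.Adj a b)
    (hn : ¬ (T.deleteEdges {s(a, b)}).Reachable u v) :
    dist (p a) (p b) ≤ dist (p u) (p v) := by
  have huv : u ≠ v := fun h => hn (h ▸ Reachable.refl _)
  have h := hp.2 _ (swap_isTree hT hn)
  set S : Set (Sym2 V) := T.edgeSet \ {s(a, b)} with hS
  have h1 : T.edgeSet = insert s(a, b) S := by
    rw [hS, Set.insert_sdiff_singleton, Set.insert_eq_of_mem]
    exact hab
  have h2 : (T.deleteEdges {s(a, b)} ⊔ edge u v).edgeSet = insert s(u, v) S := by
    rw [edgeSet_sup, edgeSet_deleteEdges, edgeSet_edge_of_ne huv, Set.union_comm,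
      Set.singleton_union]
  have h3 : s(u, v) ∉ S := by
    intro hm
    apply hn
    refine Adj.reachable ?_
    rw [deleteEdges_adj]
    exact ⟨hm.1, hm.2⟩
  have h4 : s(a, b) ∉ S := fun hm => hm.2 rfl
  unfold total at h
  rw [h1, h2, finsum_mem_insert _ h3 (Set.toFinite _), finsum_mem_insert _ h4 (Set.toFinite _)] at h
  simpa using h

/-- In a drawing, no edge of the path from `u` to `v` is longer than the distance of the points of
`u` and `v`. -/
theorem len_le [Finite V] {T : SimpleGraph V} (hT : T.IsTree) {p : V → E3}
    (hp : IsDrawing T p) {a b u v : V} (w : T.Walk u v) (hw : w.IsPath) (hab : s(a, b) ∈ w.edges) :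
    dist (p a) (p b) ≤ dist (p u) (p v) := by
  classical
  refine len_le_of_not_reachable hT hp (w.adj_of_mem_edges hab) ?_
  intro hr
  rw [reachable_deleteEdges_iff_exists_walk] at hr
  obtain ⟨q, hq⟩ := hr
  apply hq
  have h1 : (⟨w, hw⟩ : T.Path u v) = q.toPath :=
    (hT.2.subsingleton_path u v).elim _ _
  have h2 : w = (q.toPath : T.Walk u v) := congrArg Subtype.val h1
  rw [h2] at hab
  exact Walk.edges_toPath_subset_edges q hab

end Pool.Agent.EMT
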