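import Pool.Agent.EMT.Two

/-!
# EMT / Norm: the configuration in coordinates

A configuration `Cfg U W X Y` gives lengths `l i, m j`, heights `t i, s j` and complex numbers
`z i, w j` (the projections of the unit vectors to the plane orthogonal to `W - U`), with the
inequalities of `Dat`.
-/

set_option autoImplicit false

namespace Pool.Agent.EMT

open scoped ComplexConjugate InnerProductSpace

/-- The coordinates of a configuration. -/
structure Dat (l m t s : Fin 11 → ℝ) (z w : Fin 11 → ℂ) : Prop where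
  lpos : ∀ i, 0 < l i
  mpos : ∀ j, 0 < m j
  zz : ∀ i, Complex.normSq (z i) = 1 - t i ^ 2
  ww : ∀ j, Complex.normSq (w j) = 1 - s j ^ 2
  xx : ∀ i j, i ≠ j → 2 * l j * (t i * t j + (z i * conj (z j)).re) ≤ l i
  yy : ∀ i j, i ≠ j → 2 * m j * (s i * s j + (w i * conj (w j)).re) ≤ m i
  tl : ∀ i, 2 * t i ≤ l i
  tl' : ∀ i, 2 * l i * t i ≤ 1
  sm : ∀ j, 2 * s j ≤ m j
  sm' : ∀ j, 2 * m j * s j ≤ 1
  xy : ∀ i j, 1 ≤ l i ^ 2 + m j ^ 2 + 1 - 2 * l i * t i - 2 * m j * s j +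
    2 * l i * m j * (t i * s j - (z i * conj (w j)).re)
  xyl : ∀ i j, l i ^ 2 ≤ l i ^ 2 + m j ^ 2 + 1 - 2 * l i * t i - 2 * m j * s j +
    2 * l i * m j * (t i * s j - (z i * conj (w j)).re)
  xym : ∀ i j, m j ^ 2 ≤ l i ^ 2 + m j ^ 2 + 1 - 2 * l i * t i - 2 * m j * s j +
    2 * l i * m j * (t i * s j - (z i * conj (w j)).re)

/-- The scaled configuration. -/
structure Scl (e : E3) (l m : Fin 11 → ℝ) (A B : Fin 11 → E3) : Prop where
  he : ‖e‖ = 1
  hA : ∀ i, ‖A i‖ = 1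
  hB : ∀ i, ‖B i‖ = 1
  hl : ∀ i, 0 < l i
  hm : ∀ i, 0 < m i
  xx : ∀ i j, i ≠ j → l j ≤ dist (l i • A i) (l j • A j)
  yy : ∀ i j, i ≠ j → m j ≤ dist (e + m i • B i) (e + m j • B j)
  xw : ∀ i, l i ≤ dist (l i • A i) e
  xw' : ∀ i, 1 ≤ dist (l i • A i) e
  yu : ∀ j, m j ≤ dist (0 : E3) (e + m j • B j)
  yu' : ∀ j, 1 ≤ dist (0 : E3) (e + m j • B j)
  xy : ∀ i j, l i ≤ dist (l i • A i) (e + m j • B j)
  xy' : ∀ i j, 1 ≤ dist (l i • A i) (e + m j • B j)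
  xy'' : ∀ i j, m j ≤ dist (l i • A i) (e + m j • B j)

theorem Cfg.exists_scl {U W : E3} {X Y : Fin 11 → E3} (h : Cfg U W X Y) :
    ∃ e l m A B, Scl e l m A B := by
  obtain ⟨d, hd⟩ : ∃ d, d = dist U W := ⟨_, rfl⟩
  have hd0 : 0 < d := hd ▸ h.uw
  have hd0' : d ≠ 0 := hd0.ne'
  obtain ⟨e, he⟩ : ∃ e : E3, e = d⁻¹ • (W - U) := ⟨_, rfl⟩
  have hWU : ‖W - U‖ = d := by rw [hd, dist_comm, dist_eq_norm]
  have he1 : ‖e‖ = 1 := by
    rw [he, norm_smul, hWU, Real.norm_eq_abs, abs_inv, abs_of_pos hd0, inv_mul_cancel₀ hd0']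
  obtain ⟨l, hl⟩ : ∃ l : Fin 11 → ℝ, ∀ i, l i = dist U (X i) / d := ⟨_, fun _ => rfl⟩
  obtain ⟨m, hm⟩ : ∃ m : Fin 11 → ℝ, ∀ i, m i = dist W (Y i) / d := ⟨_, fun _ => rfl⟩
  obtain ⟨A, hA⟩ : ∃ A : Fin 11 → E3, ∀ i, A i = (dist U (X i))⁻¹ • (X i - U) := ⟨_, fun _ => rfl⟩
  obtain ⟨B, hB⟩ : ∃ B : Fin 11 → E3, ∀ i, B i = (dist W (Y i))⁻¹ • (Y i - W) := ⟨_, fun _ => rfl⟩
  have hl0 : ∀ i, 0 < l i := fun i => by rw [hl]; exact div_pos (h.ux i) hd0
  have hm0 : ∀ i, 0 < m i := fun i => by rw [hm]; exact div_pos (h.wy i) hd0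
  have hA1 : ∀ i, ‖A i‖ = 1 := by
    intro i
    rw [hA, norm_smul, ← dist_eq_norm, dist_comm (X i), Real.norm_eq_abs, abs_inv,
      abs_of_pos (h.ux i), inv_mul_cancel₀ (h.ux i).ne']
  have hB1 : ∀ i, ‖B i‖ = 1 := by
    intro i
    rw [hB, norm_smul, ← dist_eq_norm, dist_comm (Y i), Real.norm_eq_abs, abs_inv,
      abs_of_pos (h.wy i), inv_mul_cancel₀ (h.wy i).ne']
  have hX : ∀ i, X i = U + d • (l i • A i) := by
    intro i
    have h1 : d * (l i * (dist U (X i))⁻¹) = 1 := by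
      rw [hl]
      have := (h.ux i).ne'
      field_simp
    rw [hA, smul_smul, smul_smul, mul_assoc, h1, one_smul]
    abel
  have hW' : W = U + d • e := by
    rw [he, smul_smul, mul_inv_cancel₀ hd0', one_smul]
    abel
  have hY : ∀ j, Y j = U + d • (e + m j • B j) := by
    intro j
    have h1 : d * (m j * (dist W (Y j))⁻¹) = 1 := by
      rw [hm]
      have := (h.wy j).ne'
      field_simp
    rw [smul_add, ← add_assoc, ← hW', hB, smul_smul, smul_smul, mul_assoc, h1, one_smul]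
    abel
  have key : ∀ x y : E3, dist (U + d • x) (U + d • y) = d * dist x y := by
    intro x y
    rw [dist_add_left, dist_smul₀, Real.norm_eq_abs, abs_of_pos hd0]
  have dUX : ∀ i, dist U (X i) = d * l i := by
    intro i; rw [hl]; field_simp
  have dWY : ∀ i, dist W (Y i) = d * m i := by
    intro i; rw [hm]; field_simp
  have dXX : ∀ i j, dist (X i) (X j) = d * dist (l i • A i) (l j • A j) := by
    intro i j; rw [← key, ← hX, ← hX]
  have dYY : ∀ i j, dist (Y i) (Y j) = d * dist (e + m i • B i) (e + m j • B j) := by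
    intro i j; rw [← key, ← hY, ← hY]
  have dXY : ∀ i j, dist (X i) (Y j) = d * dist (l i • A i) (e + m j • B j) := by
    intro i j; rw [← key, ← hX, ← hY]
  have dXW : ∀ i, dist (X i) W = d * dist (l i • A i) e := by
    intro i; rw [← key, ← hX, ← hW']
  have dUY : ∀ j, dist U (Y j) = d * dist (0 : E3) (e + m j • B j) := by
    intro j; rw [← key, ← hY, smul_zero, add_zero]
  have red : ∀ {a b : ℝ}, d * a ≤ d * b → a ≤ b := fun h1 => le_of_mul_le_mul_left h1 hd0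
  have one : dist U W = d * 1 := by rw [← hd, mul_one]
  refine ⟨e, l, m, A, B, he1, hA1, hB1, hl0, hm0, ?_, ?_, ?_, ?_, ?_, ?_, ?_, ?_, ?_⟩
  · intro i j hij
    have h1 := (h.xx i j hij).2
    rw [dUX, dXX] at h1
    exact red h1
  · intro i j hij
    have h1 := (h.yy i j hij).2
    rw [dWY, dYY] at h1
    exact red h1
  · intro i
    have h1 := (h.xw i).1
    rw [dUX, dXW] at h1
    exact red h1
  · intro i
    have h1 := (h.xw i).2
    rw [one, dXW] at h1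
    exact red h1
  · intro j
    have h1 := (h.yu j).1
    rw [dWY, dUY] at h1
    exact red h1
  · intro j
    have h1 := (h.yu j).2
    rw [one, dUY] at h1
    exact red h1
  · intro i j
    have h1 := (h.xy i j).1
    rw [dUX, dXY] at h1
    exact red h1
  · intro i j
    have h1 := (h.xy i j).2.1
    rw [one, dXY] at h1
    exact red h1
  · intro i j
    have h1 := (h.xy i j).2.2
    rw [dWY, dXY] at h1
    exact red h1

/-- An orthonormal basis of space starting with a given unit vector. -/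
lemma exists_basis (e : E3) (he : ‖e‖ = 1) :
    ∃ b : OrthonormalBasis (Fin 3) ℝ E3, b 0 = e := by
  have hv : Orthonormal ℝ (({0} : Set (Fin 3)).domRestrict fun _ => e) := by
    constructor
    · intro i
      exact he
    · intro i j hij
      exact absurd (Subsingleton.elim i j) hij
  obtain ⟨b, hb⟩ := Orthonormal.exists_orthonormalBasis_extension_of_card_eq (𝕜 := ℝ) (E := E3)
    (ι := Fin 3) (by simp) hv
  exact ⟨b, hb 0 rfl⟩

/-- The inner product in terms of the first coordinate and a complex coordinate. -/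
lemma inner_split (b : OrthonormalBasis (Fin 3) ℝ E3) (x y : E3) :
    ⟪x, y⟫_ℝ = ⟪x, b 0⟫_ℝ * ⟪y, b 0⟫_ℝ +
      ((⟨⟪x, b 1⟫_ℝ, ⟪x, b 2⟫_ℝ⟩ : ℂ) * conj (⟨⟪y, b 1⟫_ℝ, ⟪y, b 2⟫_ℝ⟩ : ℂ)).re := by
  rw [← b.sum_inner_mul_inner x y, Fin.sum_univ_three, Complex.mul_re]
  simp only [Complex.conj_re, Complex.conj_im]
  rw [real_inner_comm y (b 0), real_inner_comm y (b 1), real_inner_comm y (b 2)]
  ring

/-- Distances in terms of scalar products. -/
lemma dist_sq (x y : E3) : dist x y ^ 2 = ‖x‖ ^ 2 - 2 * ⟪x, y⟫_ℝ + ‖y‖ ^ 2 := by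
  rw [dist_eq_norm]
  exact norm_sub_sq_real x y

theorem Scl.exists_dat {e : E3} {l m : Fin 11 → ℝ} {A B : Fin 11 → E3} (h : Scl e l m A B) :
    ∃ (t s : Fin 11 → ℝ) (z w : Fin 11 → ℂ), Dat l m t s z w := by
  obtain ⟨b, b0⟩ := exists_basis e h.he
  have le_sq : ∀ {a c : ℝ} {x y : E3}, 0 < a → a ≤ dist x y → dist x y ^ 2 = c → a ^ 2 ≤ c := by
    intro a c x y ha h1 h2
    rw [← h2]
    exact pow_le_pow_left₀ ha.le h1 2
  have nl : ∀ i, ‖l i • A i‖ = l i := by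
    intro i
    rw [norm_smul, h.hA, mul_one, Real.norm_eq_abs, abs_of_pos (h.hl i)]
  have nm : ∀ i, ‖m i • B i‖ = m i := by
    intro i
    rw [norm_smul, h.hB, mul_one, Real.norm_eq_abs, abs_of_pos (h.hm i)]
  have sqX : ∀ i j, dist (l i • A i) (l j • A j) ^ 2 =
      l i ^ 2 - 2 * (l i * (l j * ⟪A i, A j⟫_ℝ)) + l j ^ 2 := by
    intro i j
    rw [dist_sq, nl, nl, real_inner_smul_left, real_inner_smul_right]
  have sqY : ∀ i j, dist (e + m i • B i) (e + m j • B j) ^ 2 =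
      m i ^ 2 - 2 * (m i * (m j * ⟪B i, B j⟫_ℝ)) + m j ^ 2 := by
    intro i j
    rw [dist_add_left, dist_sq, nm, nm, real_inner_smul_left, real_inner_smul_right]
  have sqXe : ∀ i, dist (l i • A i) e ^ 2 = l i ^ 2 - 2 * (l i * ⟪A i, e⟫_ℝ) + 1 := by
    intro i
    rw [dist_sq, nl, h.he, real_inner_smul_left]
    ring
  have sqe : ∀ i, ‖e + m i • B i‖ ^ 2 = 1 + 2 * (m i * ⟪B i, e⟫_ℝ) + m i ^ 2 := by
    intro i
    rw [norm_add_sq_real, nm, h.he, real_inner_smul_right, real_inner_comm]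
    ring
  have sqY0 : ∀ i, dist (0 : E3) (e + m i • B i) ^ 2 = 1 + 2 * (m i * ⟪B i, e⟫_ℝ) + m i ^ 2 := by
    intro i
    rw [dist_zero_left, sqe]
  have sqXY : ∀ i j, dist (l i • A i) (e + m j • B j) ^ 2 =
      l i ^ 2 - 2 * (l i * (⟪A i, e⟫_ℝ + m j * ⟪A i, B j⟫_ℝ)) +
        (1 + 2 * (m j * ⟪B j, e⟫_ℝ) + m j ^ 2) := by
    intro i j
    rw [dist_sq, sqe, nl, real_inner_smul_left, inner_add_right, real_inner_smul_right]
  obtain ⟨t, ht⟩ : ∃ t : Fin 11 → ℝ, ∀ i, ⟪A i, e⟫_ℝ = t i := ⟨_, fun _ => rfl⟩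
  obtain ⟨s, hs⟩ : ∃ s : Fin 11 → ℝ, ∀ i, ⟪B i, e⟫_ℝ = - s i :=
    ⟨fun i => -⟪B i, e⟫_ℝ, fun _ => (neg_neg _).symm⟩
  obtain ⟨z, hz⟩ : ∃ z : Fin 11 → ℂ, ∀ i, (⟨⟪A i, b 1⟫_ℝ, ⟪A i, b 2⟫_ℝ⟩ : ℂ) = z i :=
    ⟨_, fun _ => rfl⟩
  obtain ⟨w, hw⟩ : ∃ w : Fin 11 → ℂ, ∀ i, (⟨⟪B i, b 1⟫_ℝ, ⟪B i, b 2⟫_ℝ⟩ : ℂ) = w i :=
    ⟨_, fun _ => rfl⟩
  have iAA : ∀ i j, ⟪A i, A j⟫_ℝ = t i * t j + (z i * conj (z j)).re := by
    intro i j
    rw [inner_split b, b0, ht, ht, hz, hz]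
  have iBB : ∀ i j, ⟪B i, B j⟫_ℝ = s i * s j + (w i * conj (w j)).re := by
    intro i j
    rw [inner_split b, b0, hs, hs, hw, hw, neg_mul_neg]
  have iAB : ∀ i j, ⟪A i, B j⟫_ℝ = -(t i * s j) + (z i * conj (w j)).re := by
    intro i j
    rw [inner_split b, b0, ht, hs, hz, hw, mul_neg]
  refine ⟨t, s, z, w, h.hl, h.hm, ?_, ?_, ?_, ?_, ?_, ?_, ?_, ?_, ?_, ?_, ?_⟩
  · intro i
    have h1 := iAA i i
    rw [real_inner_self_eq_norm_sq, h.hA, Complex.mul_conj, Complex.ofReal_re] at h1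
    linarith
  · intro i
    have h1 := iBB i i
    rw [real_inner_self_eq_norm_sq, h.hB, Complex.mul_conj, Complex.ofReal_re] at h1
    linarith
  · intro i j hij
    have h2 := le_sq (h.hl j) (h.xx i j hij) (sqX i j)
    rw [iAA] at h2
    refine le_of_mul_le_mul_left ?_ (h.hl i)
    linarith
  · intro i j hij
    have h2 := le_sq (h.hm j) (h.yy i j hij) (sqY i j)
    rw [iBB] at h2
    refine le_of_mul_le_mul_left ?_ (h.hm i)
    linarith
  · intro i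
    have h2 := le_sq one_pos (h.xw' i) (sqXe i)
    rw [ht] at h2
    refine le_of_mul_le_mul_left ?_ (h.hl i)
    linarith
  · intro i
    have h2 := le_sq (h.hl i) (h.xw i) (sqXe i)
    rw [ht] at h2
    linarith
  · intro i
    have h2 := le_sq one_pos (h.yu' i) (sqY0 i)
    rw [hs] at h2
    refine le_of_mul_le_mul_left ?_ (h.hm i)
    linarith
  · intro i
    have h2 := le_sq (h.hm i) (h.yu i) (sqY0 i)
    rw [hs] at h2
    linarith
  · intro i j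
    have h2 := le_sq one_pos (h.xy' i j) (sqXY i j)
    rw [iAB, ht, hs] at h2
    linarith
  · intro i j
    have h2 := le_sq (h.hl i) (h.xy i j) (sqXY i j)
    rw [iAB, ht, hs] at h2
    linarith
  · intro i j
    have h2 := le_sq (h.hm j) (h.xy'' i j) (sqXY i j)
    rw [iAB, ht, hs] at h2
    linarith

theorem Cfg.exists_dat {U W : E3} {X Y : Fin 11 → E3} (h : Cfg U W X Y) :
    ∃ (l m t s : Fin 11 → ℝ) (z w : Fin 11 → ℂ), Dat l m t s z w := by
  obtain ⟨e, l, m, A, B, h1⟩ := h.exists_scl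
  obtain ⟨t, s, z, w, h2⟩ := h1.exists_dat
  exact ⟨l, m, t, s, z, w, h2⟩

end Pool.Agent.EMT
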