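import Pool.Agent.EMT.Words

/-!
# EMT / Grow: growth of the edge lengths in a drawing of the tree of words

`Kiss ρ`: for twelve unit vectors of pairwise angle at least 60 degrees the cubes of the positive
parts of `2 ⟪x, y i⟫` add up to at least `ρ`.  If `ρ = 59/50` this forces the cubes of the edge
lengths within a ball to add up to more than the volume of the ball allows.
-/

set_option autoImplicit false

namespace Pool.Agent.EMT

open scoped RealInnerProductSpace

/-- For twelve unit vectors of pairwise angle at least 60 degrees, the cubes of the positive parts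
of `2 ⟪x, y i⟫` add up to at least `ρ`. -/
def Kiss (ρ : ℝ) : Prop :=
  ∀ (x : E3) (y : Fin 11 → E3), ‖x‖ = 1 → (∀ i, ‖y i‖ = 1) → (∀ i, ⟪x, y i⟫ ≤ 1 / 2) →
    (∀ i j, i ≠ j → ⟪y i, y j⟫ ≤ 1 / 2) → ρ ≤ ∑ i, (max (2 * ⟪x, y i⟫) 0) ^ 3

/-- The unit vector from `b` to `a`. -/
noncomputable def dir (b a : E3) : E3 := (dist b a)⁻¹ • (a - b)

lemma norm_dir {b a : E3} (h : 0 < dist b a) : ‖dir b a‖ = 1 := by
  unfold dir
  rw [norm_smul, norm_inv, Real.norm_eq_abs, abs_of_pos h, dist_comm b a, dist_eq_norm,
    inv_mul_cancel₀]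
  rw [dist_comm, dist_eq_norm] at h
  exact h.ne'

lemma dir_inner {a b c : E3} (h1 : 0 < dist b a) (h2 : 0 < dist b c)
    (h3 : dist b a ≤ dist a c) :
    2 * ⟪dir b a, dir b c⟫ ≤ dist b c / dist b a := by
  have e1 : dist a c ^ 2 = dist b a ^ 2 - 2 * ⟪a - b, c - b⟫ + dist b c ^ 2 := by
    have : a - c = (a - b) - (c - b) := by abel
    rw [dist_comm b a, dist_comm b c, dist_eq_norm, dist_eq_norm, dist_eq_norm, this,
      norm_sub_sq_real]
  have e2 : dist b a ^ 2 ≤ dist a c ^ 2 := pow_le_pow_left₀ h1.le h3 2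
  have e3 : 2 * ⟪a - b, c - b⟫ ≤ dist b c ^ 2 := by linarith
  have e4 : ⟪dir b a, dir b c⟫ = ⟪a - b, c - b⟫ / (dist b a * dist b c) := by
    unfold dir
    rw [real_inner_smul_left, real_inner_smul_right]
    field_simp
  rw [e4, ← mul_div_assoc, div_le_div_iff₀ (mul_pos h1 h2) h1]
  nlinarith [mul_le_mul_of_nonneg_right e3 h1.le]

lemma dir_inner' {a b c : E3} (h1 : 0 < dist b a) (h2 : 0 < dist b c)
    (h3 : dist b c ≤ dist a c) :
    2 * ⟪dir b a, dir b c⟫ ≤ dist b a / dist b c := by
  rw [real_inner_comm]
  exact dir_inner h2 h1 (by rw [dist_comm c a]; exact h3)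

lemma dir_half {a b c : E3} (h1 : 0 < dist b a) (h2 : 0 < dist b c)
    (h3 : dist b a ≤ dist a c) (h4 : dist b c ≤ dist a c) :
    ⟪dir b a, dir b c⟫ ≤ 1 / 2 := by
  have e1 := dir_inner h1 h2 h3
  have e2 := dir_inner' h1 h2 h4
  rcases le_total (dist b a) (dist b c) with h | h
  · have : dist b a / dist b c ≤ 1 := (div_le_one h2).2 h
    linarith
  · have : dist b c / dist b a ≤ 1 := (div_le_one h1).2 h
    linarith

/-- The length of the edge above the word `u`. -/
noncomputable def el (P : Word → E3) (u : Word) : ℝ := dist (P u.tail) (P u)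

lemma el_cons (P : Word → E3) (i : Fin 11) (w : Word) : el P (i :: w) = dist (P w) (P (i :: w)) :=
  rfl

section local'

variable {D : ℕ} {P : Word → E3}

lemma not_suffix_tail (i : Fin 11) (w : Word) : ¬ i :: w <:+ w := by
  intro h
  have := h.length_le
  rw [List.length_cons] at this
  omega

lemma not_suffix_cons {i k : Fin 11} (h : i ≠ k) (w : Word) : ¬ i :: w <:+ k :: w := by
  intro h1
  have h2 := h1.eq_of_length (by simp)
  exact h (List.cons.inj h2).1

lemma el_pos (hD : Draw D P) {u : Word} (hu : u ≠ []) (hl : u.length ≤ D) : 0 < el P u := by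
  cases u with
  | nil => exact absurd rfl hu
  | cons i w =>
    rw [List.length_cons] at hl
    exact hD.pos i w hl

/-- The weights of the children. -/
theorem exists_mu (hD : Draw D P) {ρ : ℝ} (hK : Kiss ρ) {w : Word} (hw : w ≠ [])
    (hl : w.length + 1 ≤ D) : ∃ μ : Fin 11 → ℝ, (∀ i, 0 ≤ μ i) ∧
      (∀ i, μ i * el P w ≤ el P (i :: w)) ∧ (∀ i, μ i * el P (i :: w) ≤ el P w) ∧
      ρ ≤ ∑ i, μ i ^ 3 := by
  cases w with
  | nil => exact absurd rfl hw
  | cons j v =>
    rw [List.length_cons] at hl
    set w : Word := j :: v with hwdef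
    have hvl : v.length ≤ D := by omega
    have hwl : w.length ≤ D := by rw [hwdef, List.length_cons]; omega
    have hcl : ∀ i, (i :: w).length ≤ D := by
      intro i
      rw [List.length_cons, hwdef, List.length_cons]
      omega
    have h0 : 0 < dist (P w) (P v) := by
      rw [dist_comm]
      exact hD.pos j v (by omega)
    have h1 : ∀ i, 0 < dist (P w) (P (i :: w)) := fun i => hD.pos i w (by
      rw [hwdef, List.length_cons]; omega)
    have a1 : ∀ i, dist (P w) (P v) ≤ dist (P v) (P (i :: w)) := by
      intro i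
      rw [dist_comm (P w), dist_comm (P v) (P (i :: w))]
      exact hD.sep j v (i :: w) v (by omega) (hcl i) hvl (List.suffix_cons i w)
        (not_suffix_tail j v)
    have a2 : ∀ i, dist (P w) (P (i :: w)) ≤ dist (P v) (P (i :: w)) := by
      intro i
      rw [dist_comm (P v) (P (i :: w))]
      refine hD.sep i w (i :: w) v (by rw [hwdef, List.length_cons]; omega) (hcl i) hvl
        (List.suffix_refl _) ?_
      intro h
      have := h.length_le
      rw [List.length_cons, hwdef, List.length_cons] at this
      omega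
    have a3 : ∀ i k, i ≠ k → dist (P w) (P (i :: w)) ≤ dist (P (i :: w)) (P (k :: w)) := by
      intro i k hik
      exact hD.sep i w (i :: w) (k :: w) (by rw [hwdef, List.length_cons]; omega) (hcl i) (hcl k)
        (List.suffix_refl _) (not_suffix_cons hik w)
    have hm := hK (dir (P w) (P v)) (fun i => dir (P w) (P (i :: w))) (norm_dir h0)
      (fun i => norm_dir (h1 i)) (fun i => dir_half h0 (h1 i) (a1 i) (a2 i))
      (fun i k hik => dir_half (h1 i) (h1 k) (a3 i k hik) (by
        rw [dist_comm (P (i :: w))]; exact a3 k i hik.symm))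
    have e0 : el P w = dist (P w) (P v) := by
      rw [hwdef, el_cons, dist_comm]
    refine ⟨fun i => max (2 * ⟪dir (P w) (P v), dir (P w) (P (i :: w))⟫) 0,
      fun i => le_max_right _ _, fun i => ?_, fun i => ?_, hm⟩
    · have h := dir_inner h0 (h1 i) (a1 i)
      rw [e0, el_cons]
      have h' : max (2 * ⟪dir (P w) (P v), dir (P w) (P (i :: w))⟫) 0 ≤
          dist (P w) (P (i :: w)) / dist (P w) (P v) :=
        max_le h (div_nonneg dist_nonneg dist_nonneg)
      exact (le_div_iff₀ h0).1 h'
    · have h := dir_inner' h0 (h1 i) (a2 i)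
      rw [e0, el_cons]
      have h' : max (2 * ⟪dir (P w) (P v), dir (P w) (P (i :: w))⟫) 0 ≤
          dist (P w) (P v) / dist (P w) (P (i :: w)) :=
        max_le h (div_nonneg dist_nonneg dist_nonneg)
      exact (le_div_iff₀ (h1 i)).1 h'

end local'

/-- The descendants of `w` by at most `n` letters and within path distance `t`. -/
noncomputable def fam (l : Word → ℝ) : ℕ → Word → ℝ → Finset Word
  | 0, w, _ => {w}
  | n + 1, w, t => insert w (Finset.univ.biUnion fun i : Fin 11 =>
      if l (i :: w) ≤ t then fam l n (i :: w) (t - l (i :: w)) else ∅)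

lemma fam_suffix {l : Word → ℝ} {n : ℕ} {w u : Word} {t : ℝ} (h : u ∈ fam l n w t) :
    w <:+ u := by
  induction n generalizing w t with
  | zero =>
    rw [fam, Finset.mem_singleton] at h
    rw [h]
  | succ n ih =>
    rw [fam, Finset.mem_insert, Finset.mem_biUnion] at h
    rcases h with h | ⟨i, _, h⟩
    · rw [h]
    · split_ifs at h with h1
      · exact (List.suffix_cons i w).trans (ih h)
      · simp at h

lemma fam_length {l : Word → ℝ} {n : ℕ} {w u : Word} {t : ℝ} (h : u ∈ fam l n w t) :
    u.length ≤ w.length + n := by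
  induction n generalizing w t with
  | zero =>
    rw [fam, Finset.mem_singleton] at h
    rw [h, Nat.add_zero]
  | succ n ih =>
    rw [fam, Finset.mem_insert, Finset.mem_biUnion] at h
    rcases h with h | ⟨i, _, h⟩
    · rw [h]; omega
    · split_ifs at h with h1
      · have := ih h
        rw [List.length_cons] at this
        omega
      · simp at h

/-- The sum of the cubes over the family. -/
noncomputable def mass (l : Word → ℝ) (n : ℕ) (w : Word) (t : ℝ) : ℝ :=
  ∑ u ∈ fam l n w t, l u ^ 3

lemma mass_zero (l : Word → ℝ) (w : Word) (t : ℝ) : mass l 0 w t = l w ^ 3 := by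
  rw [mass, fam, Finset.sum_singleton]

lemma mass_succ (l : Word → ℝ) (n : ℕ) (w : Word) (t : ℝ) :
    mass l (n + 1) w t = l w ^ 3 +
      ∑ i : Fin 11, if l (i :: w) ≤ t then mass l n (i :: w) (t - l (i :: w)) else 0 := by
  rw [mass, fam, Finset.sum_insert, Finset.sum_biUnion]
  · congr 1
    refine Finset.sum_congr rfl fun i _ => ?_
    split_ifs with h
    · rfl
    · simp
  · intro i _ k _ hik
    rw [Function.onFun, Finset.disjoint_left]
    intro u hu hu'
    split_ifs at hu with h1
    · split_ifs at hu' with h2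
      · have e1 := fam_suffix hu
        have e2 := fam_suffix hu'
        have e3 : i :: w <:+ k :: w :=
          List.suffix_of_suffix_length_le e1 e2 (by simp)
        exact not_suffix_cons hik w e3
      · simp at hu'
    · simp at hu
  · intro h
    rw [Finset.mem_biUnion] at h
    obtain ⟨i, _, h⟩ := h
    split_ifs at h with h1
    · exact not_suffix_tail i w (fam_suffix h)
    · simp at h

lemma mass_nonneg {P : Word → E3} (n : ℕ) (w : Word) (t : ℝ) :
    0 ≤ mass (el P) n w t :=
  Finset.sum_nonneg fun _ _ => pow_nonneg dist_nonneg 3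

end Pool.Agent.EMT
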