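import Pool.Agent.EMT.Norm
import Pool.Agent.EMT.Ker
import Pool.Agent.EMT.WGrow

/-!
# EMT / Star: from two polynomial inequalities to `Kiss ρ`

`Wk k w q`: `Wk k (Re (z w̄)) (|z|² |w|²) = Re ((z w̄)^k)`.  The kernel
`∑ x, v x t * v x u * Wk (d x) w ((1 - t²)(1 - u²))` is positive semidefinite on the points of the
sphere around the pole `x`.
-/

set_option autoImplicit false

namespace Pool.Agent.EMT

open scoped ComplexConjugate InnerProductSpace

/-- `Wk 0 = 1`, `Wk 1 = w`, `Wk (k+2) = 2 w Wk (k+1) - q Wk k`. -/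
def Wk : ℕ → ℝ → ℝ → ℝ
  | 0, _, _ => 1
  | 1, w, _ => w
  | k + 2, w, q => 2 * w * Wk (k + 1) w q - q * Wk k w q

lemma re_pow_Wk (ζ : ℂ) (k : ℕ) : (ζ ^ k).re = Wk k ζ.re (Complex.normSq ζ) := by
  induction k using Nat.strong_induction_on with
  | _ k ih =>
    match k with
    | 0 => simp [Wk]
    | 1 => simp [Wk]
    | k + 2 => rw [re_pow_step, ih (k + 1) (by omega), ih k (by omega), Wk]

/-- The kernel of a certificate. -/
noncomputable def kerF {κ : Type*} (s : Finset κ) (d : κ → ℕ) (v : κ → ℝ → ℝ) (t u w : ℝ) : ℝ :=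
  ∑ x ∈ s, v x t * v x u * Wk (d x) w ((1 - t ^ 2) * (1 - u ^ 2))

/-- The star lemma. -/
theorem kiss_of_ineq {κ : Type*} (s : Finset κ) (d : κ → ℕ) (v : κ → ℝ → ℝ) (g : ℝ → ℝ) (ρ : ℝ)
    (hP : ∀ t u w : ℝ, -1 ≤ t → t ≤ 1 / 2 → -1 ≤ u → u ≤ 1 / 2 → w ≤ 1 / 2 - t * u →
      w ^ 2 ≤ (1 - t ^ 2) * (1 - u ^ 2) → kerF s d v t u w ≤ g t + g u)
    (hD : ∀ t : ℝ, -1 ≤ t → t ≤ 1 / 2 →
      kerF s d v t t (1 - t ^ 2) + 20 * g t + ρ / 11 ≤ (max (2 * t) 0) ^ 3) :
    Kiss ρ := by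
  intro x y hx hy hxy hyy
  obtain ⟨b, hb⟩ := exists_basis x hx
  obtain ⟨t, ht⟩ : ∃ t : Fin 11 → ℝ, ∀ i, ⟪y i, b 0⟫_ℝ = t i := ⟨_, fun _ => rfl⟩
  obtain ⟨z, hz⟩ : ∃ z : Fin 11 → ℂ, ∀ i, (⟨⟪y i, b 1⟫_ℝ, ⟪y i, b 2⟫_ℝ⟩ : ℂ) = z i :=
    ⟨_, fun _ => rfl⟩
  have iy : ∀ i j, ⟪y i, y j⟫_ℝ = t i * t j + (z i * conj (z j)).re := by
    intro i j
    rw [inner_split b, ht, ht, hz, hz]
  have nz : ∀ i, Complex.normSq (z i) = 1 - t i ^ 2 := by
    intro i
    have h1 := iy i i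
    rw [real_inner_self_eq_norm_sq, hy, Complex.mul_conj, Complex.ofReal_re] at h1
    linarith
  have nzz : ∀ i j, Complex.normSq (z i * conj (z j)) = (1 - t i ^ 2) * (1 - t j ^ 2) := by
    intro i j
    rw [map_mul, Complex.normSq_conj, nz, nz]
  have tx : ∀ i, ⟪x, y i⟫_ℝ = t i := by
    intro i
    rw [← ht, hb, real_inner_comm]
  have t1 : ∀ i, t i ≤ 1 / 2 := fun i => by rw [← tx]; exact hxy i
  have t2 : ∀ i, -1 ≤ t i := by
    intro i
    have h1 : 0 ≤ 1 - t i ^ 2 := by rw [← nz]; exact Complex.normSq_nonneg _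
    nlinarith
  have hF : ∀ i j, kerF s d v (t i) (t j) (z i * conj (z j)).re =
      ∑ x ∈ s, v x (t i) * v x (t j) * ((z i * conj (z j)) ^ d x).re := by
    intro i j
    unfold kerF
    refine Finset.sum_congr rfl fun x _ => ?_
    rw [re_pow_Wk, nzz]
  have h0 : 0 ≤ ∑ i, ∑ j, kerF s d v (t i) (t j) (z i * conj (z j)).re := by
    have h1 : ∑ i, ∑ j, kerF s d v (t i) (t j) (z i * conj (z j)).re =
        ∑ x ∈ s, ∑ i, ∑ j, v x (t i) * v x (t j) * ((z i * conj (z j)) ^ d x).re := by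
      calc ∑ i, ∑ j, kerF s d v (t i) (t j) (z i * conj (z j)).re
          = ∑ i, ∑ j, ∑ x ∈ s, v x (t i) * v x (t j) * ((z i * conj (z j)) ^ d x).re :=
            Finset.sum_congr rfl fun i _ => Finset.sum_congr rfl fun j _ => hF i j
        _ = ∑ i, ∑ x ∈ s, ∑ j, v x (t i) * v x (t j) * ((z i * conj (z j)) ^ d x).re :=
            Finset.sum_congr rfl fun i _ => Finset.sum_comm
        _ = _ := Finset.sum_comm
    rw [h1]
    exact Finset.sum_nonneg fun x _ => ker_nonneg Finset.univ (fun i => v x (t i)) z (d x)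
  have hle : ∀ i j, kerF s d v (t i) (t j) (z i * conj (z j)).re ≤
      g (t i) + g (t j) + (if i = j then (max (2 * t i) 0) ^ 3 - ρ / 11 - 22 * g (t i) else 0) := by
    intro i j
    by_cases hij : i = j
    · subst hij
      rw [if_pos rfl]
      have h1 := hD (t i) (t2 i) (t1 i)
      have h2 : (z i * conj (z i)).re = 1 - t i ^ 2 := by
        rw [Complex.mul_conj, Complex.ofReal_re, nz]
      rw [h2]
      linarith
    · rw [if_neg hij, add_zero]
      refine hP _ _ _ (t2 i) (t1 i) (t2 j) (t1 j) ?_ ?_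
      · have h1 := hyy i j hij
        rw [iy] at h1
        linarith
      · rw [← nzz, Complex.normSq_apply]
        nlinarith [mul_self_nonneg (z i * conj (z j)).im]
  have hsum := h0.trans (Finset.sum_le_sum fun i (_ : i ∈ Finset.univ) =>
    Finset.sum_le_sum fun j (_ : j ∈ Finset.univ) => hle i j)
  have e1 : ∑ i, ∑ j, (g (t i) + g (t j) +
      (if i = j then (max (2 * t i) 0) ^ 3 - ρ / 11 - 22 * g (t i) else 0)) =
      ∑ i, (max (2 * t i) 0) ^ 3 - ρ := by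
    simp only [Finset.sum_add_distrib, Finset.sum_ite_eq, Finset.mem_univ, if_true,
      Finset.sum_const, Finset.card_univ, Fintype.card_fin, nsmul_eq_mul, Finset.sum_sub_distrib,
      ← Finset.mul_sum]
    push_cast
    ring
  rw [e1] at hsum
  simp only [tx]
  linarith

end Pool.Agent.EMT
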