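import Pool.Agent.EMT.Box
import Pool.Agent.EMT.KN3

/-!
# EMT / Strict: evaluation of nested lists of integers element by element
-/

set_option autoImplicit false

namespace Pool.Agent.EMT.KN

noncomputable def fz (z : ℤ) (k : ℤ → Bool) : Bool :=
  @Int.rec (fun _ => Bool) (fun n => frc n fun n => k (Int.ofNat n))
    (fun n => frc n fun n => k (Int.negSucc n)) z

lemma fz_eq (z : ℤ) (k : ℤ → Bool) : fz z k = k z := by
  cases z with
  | ofNat n => exact frc_eq n fun n => k (Int.ofNat n)
  | negSucc n => exact frc_eq n fun n => k (Int.negSucc n)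

noncomputable def f1 (l : List ℤ) : (List ℤ → Bool) → Bool :=
  @List.rec ℤ (fun _ => (List ℤ → Bool) → Bool) (fun k => k [])
    (fun a _ ih k => fz a fun a => ih fun as => k (a :: as)) l

lemma f1_eq (l : List ℤ) (k : List ℤ → Bool) : f1 l k = k l := by
  induction l generalizing k with
  | nil => rfl
  | cons a l ih =>
    show fz a (fun a => f1 l fun as => k (a :: as)) = _
    rw [fz_eq, ih]

noncomputable def f2 (l : List (List ℤ)) : (List (List ℤ) → Bool) → Bool :=
  @List.rec (List ℤ) (fun _ => (List (List ℤ) → Bool) → Bool) (fun k => k [])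
    (fun a _ ih k => f1 a fun a => ih fun as => k (a :: as)) l

lemma f2_eq (l : List (List ℤ)) (k : List (List ℤ) → Bool) : f2 l k = k l := by
  induction l generalizing k with
  | nil => rfl
  | cons a l ih =>
    show f1 a (fun a => f2 l fun as => k (a :: as)) = _
    rw [f1_eq, ih]

noncomputable def f3 (l : P3) : (P3 → Bool) → Bool :=
  @List.rec (List (List ℤ)) (fun _ => (P3 → Bool) → Bool) (fun k => k [])
    (fun a _ ih k => f2 a fun a => ih fun as => k (a :: as)) l

lemma f3_eq (l : P3) (k : P3 → Bool) : f3 l k = k l := by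
  induction l generalizing k with
  | nil => rfl
  | cons a l ih =>
    show f2 a (fun a => f3 l fun as => k (a :: as)) = _
    rw [f2_eq, ih]

def allz1 (l : List ℤ) : Bool := l.all fun a => decide (a = 0)
def allz2 (l : List (List ℤ)) : Bool := l.all allz1
def allz3 (l : P3) : Bool := l.all allz2

lemma allz1_ev {l : List ℤ} (h : allz1 l = true) (x : ℝ) :
    ev (fun a : ℤ => (a : ℝ)) x l = 0 := by
  induction l with
  | nil => rfl
  | cons a l ih =>
    simp only [allz1, List.all_cons, Bool.and_eq_true, decide_eq_true_eq] at h ih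
    rw [ev, ih h.2, h.1]
    simp

lemma allz2_ev {l : List (List ℤ)} (h : allz2 l = true) (x y : ℝ) :
    ev (ev (fun a : ℤ => (a : ℝ)) y) x l = 0 := by
  induction l with
  | nil => rfl
  | cons a l ih =>
    simp only [allz2, List.all_cons, Bool.and_eq_true] at h ih
    rw [ev, ih h.2, allz1_ev h.1]
    simp

lemma allz3_ev {l : P3} (h : allz3 l = true) (x y z : ℝ) : eval3 l x y z = 0 := by
  unfold eval3
  induction l with
  | nil => rfl
  | cons a l ih =>
    simp only [allz3, List.all_cons, Bool.and_eq_true] at h ih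
    rw [ev, ih h.2, allz2_ev h.1]
    simp

def toZ (A : List (List (List ℕ))) : P3 := A.map fun a => a.map fun b => b.map Int.ofNat

lemma ev_toZ1 (z : ℝ) (A : List ℕ) :
    ev (fun a : ℤ => (a : ℝ)) z (A.map Int.ofNat) = KN.ev1 z A := by
  induction A with
  | nil => rfl
  | cons a A ih => simp only [List.map_cons, ev, KN.ev1, ih]; simp

lemma ev_toZ2 (y z : ℝ) (A : List (List ℕ)) :
    ev (ev (fun a : ℤ => (a : ℝ)) z) y (A.map fun b => b.map Int.ofNat) = KN.ev2 y z A := by
  induction A with
  | nil => rfl
  | cons a A ih => simp only [List.map_cons, ev, KN.ev2, ih, ev_toZ1]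

lemma eval3_toZ (x y z : ℝ) (A : List (List (List ℕ))) :
    eval3 (toZ A) x y z = KN.evR x y z A := by
  unfold toZ eval3
  induction A with
  | nil => rfl
  | cons a A ih => simp only [List.map_cons, ev, KN.evR, ih, ev_toZ2]

end Pool.Agent.EMT.KN
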