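import Pool.Agent.EMT.TPoly
import Pool.Agent.EMT.Strict

/-!
# EMT / TBuild: the polynomials of a typed certificate, evaluated strictly and compared with tables
-/

set_option autoImplicit false

namespace Pool.Agent.EMT

open KN (f2 f2_eq f3 f3_eq allz3 allz3_ev PM toZ eval3_toZ)

noncomputable def mkS (same X Y : Bool) (es : List Ent) : (P2 → Bool) → Bool :=
  @List.rec Ent (fun _ => (P2 → Bool) → Bool) (fun k => k [])
    (fun e _ ih k => ih fun B => f2 (addL o2 (smulL o2 (if same then 1 else e.sg)
      (outer (e.sel X) (e.sel Y))) B) k) es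

lemma mkS_eq (same X Y : Bool) (es : List Ent) (k : P2 → Bool) :
    mkS same X Y es k = k (mk2 same X Y es) := by
  induction es generalizing k with
  | nil => rfl
  | cons e es ih =>
    show mkS same X Y es (fun B => f2 (addL o2 (smulL o2 (if same then 1 else e.sg)
      (outer (e.sel X) (e.sel Y))) B) k) = _
    rw [ih, f2_eq]
    rfl

noncomputable def mapS (same X Y : Bool) (V : List (List Ent)) : (List P2 → Bool) → Bool :=
  @List.rec (List Ent) (fun _ => (List P2 → Bool) → Bool) (fun k => k [])
    (fun es _ ih k => mkS same X Y es fun m => ih fun ms => k (m :: ms)) V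

lemma mapS_eq (same X Y : Bool) (V : List (List Ent)) (k : List P2 → Bool) :
    mapS same X Y V k = k (V.map (mk2 same X Y)) := by
  induction V generalizing k with
  | nil => rfl
  | cons es V ih =>
    show mkS same X Y es (fun m => mapS same X Y V fun ms => k (m :: ms)) = _
    rw [mkS_eq, ih]
    rfl

noncomputable def clS (flat : Bool) (ms : List P2) : (P3 → P3 → Bool) → Bool :=
  @List.rec P2 (fun _ => (P3 → P3 → Bool) → Bool) (fun k => k [] [])
    (fun m _ ih k => ih fun A B => f3 (mulQ B) fun Q => f3 (mulW flat A) fun M =>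
      f3 (addL o3 (up3 m) (addL o3 (smulL o3 2 M) (smulL o3 (-1) Q))) fun C => k C A) ms

lemma clS_eq (flat : Bool) (ms : List P2) (k : P3 → P3 → Bool) :
    clS flat ms k = k (cl flat ms).1 (cl flat ms).2 := by
  induction ms generalizing k with
  | nil => rfl
  | cons m ms ih =>
    show clS flat ms (fun A B => f3 (mulQ B) fun Q => f3 (mulW flat A) fun M =>
      f3 (addL o3 (up3 m) (addL o3 (smulL o3 2 M) (smulL o3 (-1) Q))) fun C => k C A) = _
    rw [ih, f3_eq, f3_eq, f3_eq]
    rfl

noncomputable def polFS (flat : Bool) (ms : List P2) : (P3 → Bool) → Bool :=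
  @List.rec P2 (fun _ => (P3 → Bool) → Bool) (fun k => k [])
    (fun m ms _ k => clS flat ms fun A B => f3 (mulQ B) fun Q => f3 (mulW flat A) fun M =>
      f3 (addL o3 (up3 m) (addL o3 M (smulL o3 (-1) Q))) k) ms

lemma polFS_eq (flat : Bool) (ms : List P2) (k : P3 → Bool) :
    polFS flat ms k = k (polF flat ms) := by
  cases ms with
  | nil => rfl
  | cons m ms =>
    show clS flat ms (fun A B => f3 (mulQ B) fun Q => f3 (mulW flat A) fun M =>
      f3 (addL o3 (up3 m) (addL o3 M (smulL o3 (-1) Q))) k) = _
    rw [clS_eq, f3_eq, f3_eq, f3_eq]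
    rfl

/-- The check that a table is the polynomial. -/
noncomputable def chkT3 (flat same X Y : Bool) (V : List (List Ent)) (g h : List ℤ) (T : P3) :
    Bool :=
  mapS same X Y V fun ms => polFS flat ms fun F =>
    f3 (addL o3 (up3 (g.map fun c => [c])) (addL o3 (up3 [h]) (smulL o3 (-1) F))) fun R =>
      allz3 (addL o3 R (smulL o3 (-1) T))

theorem chkT3_spec {flat same X Y : Bool} {V : List (List Ent)} {g h : List ℤ} {T : P3}
    (hc : chkT3 flat same X Y V g h T = true) (x y z : ℝ) :
    eval3 (polP flat same X Y V g h) x y z = eval3 T x y z := by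
  unfold chkT3 at hc
  rw [mapS_eq, polFS_eq, f3_eq] at hc
  have h1 := allz3_ev hc x y z
  rw [eval3_add, eval3_smul] at h1
  unfold polP
  push_cast at h1
  linarith

/-- The same with two tables of natural numbers. -/
theorem chkPM {flat same X Y : Bool} {V : List (List Ent)} {g h : List ℤ} {A : PM}
    (hc : chkT3 flat same X Y V g h (addL o3 (toZ A.p) (smulL o3 (-1) (toZ A.n))) = true)
    (x y z : ℝ) : eval3 (polP flat same X Y V g h) x y z = A.ev x y z := by
  rw [chkT3_spec hc, eval3_add, eval3_smul, eval3_toZ, eval3_toZ]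
  unfold PM.ev
  push_cast
  ring

end Pool.Agent.EMT
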