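import Pool.Agent.EMT.TCert
import Pool.Agent.EMT.TBuild

/-!
# EMT / TBridge: from the check of a tree of boxes to `Chk`
-/

set_option autoImplicit false

namespace Pool.Agent.EMT

namespace KN

lemma and_to {x y : Bool} (hy : y = true) (hx : x = true) :
    @Bool.rec (fun _ => Bool) false x y = true := by
  subst hy hx; rfl

lemma chkK_c0 {n m l : ℕ} {P G C : PM} {NP NG NC T0 T1 D U0 U1 E V0 V1 F : ℕ} {r s : TrK}
    (h1 : chkK n m l P G C NP NG NC r (2 * T0) (T0 + T1) (2 * D) U0 U1 E V0 V1 F = true)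
    (h2 : chkK n m l P G C NP NG NC s (T0 + T1) (2 * T1) (2 * D) U0 U1 E V0 V1 F = true) :
    chkK n m l P G C NP NG NC (.s 0 r s) T0 T1 D U0 U1 E V0 V1 F = true := by
  have e : chkK n m l P G C NP NG NC (.s 0 r s) T0 T1 D U0 U1 E V0 V1 F =
      frc (Nat.add T0 T1) fun T => frc (Nat.mul 2 D) fun D' =>
        @Bool.rec (fun _ => Bool) false
          (chkK n m l P G C NP NG NC s T (Nat.mul 2 T1) D' U0 U1 E V0 V1 F)
          (chkK n m l P G C NP NG NC r (Nat.mul 2 T0) T D' U0 U1 E V0 V1 F) := rfl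
  rw [e, frc_eq, frc_eq]
  exact and_to h1 h2

lemma chkK_c1 {n m l : ℕ} {P G C : PM} {NP NG NC T0 T1 D U0 U1 E V0 V1 F : ℕ} {r s : TrK}
    (h1 : chkK n m l P G C NP NG NC r T0 T1 D (2 * U0) (U0 + U1) (2 * E) V0 V1 F = true)
    (h2 : chkK n m l P G C NP NG NC s T0 T1 D (U0 + U1) (2 * U1) (2 * E) V0 V1 F = true) :
    chkK n m l P G C NP NG NC (.s 1 r s) T0 T1 D U0 U1 E V0 V1 F = true := by
  have e : chkK n m l P G C NP NG NC (.s 1 r s) T0 T1 D U0 U1 E V0 V1 F =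
      frc (Nat.add U0 U1) fun U => frc (Nat.mul 2 E) fun E' =>
        @Bool.rec (fun _ => Bool) false
          (chkK n m l P G C NP NG NC s T0 T1 D U (Nat.mul 2 U1) E' V0 V1 F)
          (chkK n m l P G C NP NG NC r T0 T1 D (Nat.mul 2 U0) U E' V0 V1 F) := rfl
  rw [e, frc_eq, frc_eq]
  exact and_to h1 h2

lemma chkK_c2 {n m l : ℕ} {P G C : PM} {NP NG NC T0 T1 D U0 U1 E V0 V1 F : ℕ} {r s : TrK}
    (h1 : chkK n m l P G C NP NG NC r T0 T1 D U0 U1 E (2 * V0) (V0 + V1) (2 * F) = true)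
    (h2 : chkK n m l P G C NP NG NC s T0 T1 D U0 U1 E (V0 + V1) (2 * V1) (2 * F) = true) :
    chkK n m l P G C NP NG NC (.s 2 r s) T0 T1 D U0 U1 E V0 V1 F = true := by
  have e : chkK n m l P G C NP NG NC (.s 2 r s) T0 T1 D U0 U1 E V0 V1 F =
      frc (Nat.add V0 V1) fun V => frc (Nat.mul 2 F) fun F' =>
        @Bool.rec (fun _ => Bool) false
          (chkK n m l P G C NP NG NC s T0 T1 D U0 U1 E V (Nat.mul 2 V1) F')
          (chkK n m l P G C NP NG NC r T0 T1 D U0 U1 E (Nat.mul 2 V0) V F') := rfl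
  rw [e, frc_eq, frc_eq]
  exact and_to h1 h2

end KN

open KN (PM TrK chkK Pre)

/-- The bridge. -/
theorem chk_of {P : P3} {A Gt Ct : PM} {G C : ℝ → ℝ → ℝ → ℝ}
    (hP : ∀ x y z : ℝ, eval3 P x y z = A.ev x y z)
    (hG : ∀ x y z : ℝ, Gt.ev (x + 1) (y + 1) (z + 1) = G x y z)
    (hC : ∀ x y z : ℝ, Ct.ev (x + 1) (y + 1) (z + 1) = C x y z) {n m l NP NG NC : ℕ}
    (hpre : Pre n m l A Gt Ct NP NG NC) {T : TrK} {T0 T1 D U0 U1 E V0 V1 F : ℕ}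
    (hD : 0 < D) (hE : 0 < E) (hF : 0 < F) (hT : T0 < T1) (hU : U0 < U1) (hV : V0 < V1)
    {a0 b0 a1 b1 a2 b2 : ℝ} (x0 : (T0 : ℝ) ≤ D * (a0 + 1)) (x1 : (D : ℝ) * (b0 + 1) ≤ T1)
    (y0 : (U0 : ℝ) ≤ E * (a1 + 1)) (y1 : (E : ℝ) * (b1 + 1) ≤ U1)
    (z0 : (V0 : ℝ) ≤ F * (a2 + 1)) (z1 : (F : ℝ) * (b2 + 1) ≤ V1)
    (hc : chkK n m l A Gt Ct NP NG NC T T0 T1 D U0 U1 E V0 V1 F = true) :
    Chk P G C a0 b0 a1 b1 a2 b2 := by
  intro x y z hx0 hx1 hy0 hy1 hz0 hz1 hg hcc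
  rw [hP]
  have hD' : (0 : ℝ) < D := by exact_mod_cast hD
  have hE' : (0 : ℝ) < E := by exact_mod_cast hE
  have hF' : (0 : ℝ) < F := by exact_mod_cast hF
  rw [← hG] at hg
  rw [← hC] at hcc
  refine KN.chkK_sound hpre hg hcc T T0 T1 D U0 U1 E V0 V1 F hD hE hF hT hU hV
    (x0.trans ?_) (le_trans ?_ x1) (y0.trans ?_) (le_trans ?_ y1) (z0.trans ?_) (le_trans ?_ z1) hc
  · exact mul_le_mul_of_nonneg_left (by linarith) hD'.le
  · exact mul_le_mul_of_nonneg_left (by linarith) hD'.le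
  · exact mul_le_mul_of_nonneg_left (by linarith) hE'.le
  · exact mul_le_mul_of_nonneg_left (by linarith) hE'.le
  · exact mul_le_mul_of_nonneg_left (by linarith) hF'.le
  · exact mul_le_mul_of_nonneg_left (by linarith) hF'.le

def mC0 : PM := ⟨[], []⟩

lemma mC0_ev (x y z : ℝ) : mC0.ev (x + 1) (y + 1) (z + 1) = C0 x y z := by
  simp [mC0, PM.ev, KN.evR, C0]

def mGS : PM := ⟨[[[0, 4], [4]], [[4], [0, 2]]], [[[4, 0, 1], [0, 2], [1]], [[0, 2], [2]], [[1]]]⟩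

lemma mGS_ev (x y z : ℝ) : mGS.ev (x + 1) (y + 1) (z + 1) = GS x y z := by
  simp only [mGS, PM.ev, KN.evR, KN.ev2, KN.ev1, GS]
  push_cast
  ring

def mGO : PM := ⟨[[[0, 2]], [[], [4]], [[], [], [1]]], [[[1, 0, 1]], [[], [], [2]], [[], [2]]]⟩

lemma mGO_ev (x y z : ℝ) : mGO.ev (x + 1) (y + 1) (z + 1) = GO x y z := by
  simp only [mGO, PM.ev, KN.evR, KN.ev2, KN.ev1, GO]
  push_cast
  ring

def mC1 : PM := ⟨[[[0, 8]], [[8]]], [[[7]], [[0, 8]]]⟩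

lemma mC1_ev (x y z : ℝ) : mC1.ev (x + 1) (y + 1) (z + 1) = C1 x y z := by
  simp only [mC1, PM.ev, KN.evR, KN.ev2, KN.ev1, C1]
  push_cast
  ring

def mC2 : PM := ⟨[[[5]], [[], [1]]], [[[0, 1], [2]], [[2]]]⟩

lemma mC2_ev (x y z : ℝ) : mC2.ev (x + 1) (y + 1) (z + 1) = C2 x y z := by
  simp only [mC2, PM.ev, KN.evR, KN.ev2, KN.ev1, C2]
  push_cast
  ring

def mC3 : PM := ⟨[[[25]], [[], [4]]], [[[0, 4], [8]], [[12]]]⟩

lemma mC3_ev (x y z : ℝ) : mC3.ev (x + 1) (y + 1) (z + 1) = C3 x y z := by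
  simp only [mC3, PM.ev, KN.evR, KN.ev2, KN.ev1, C3]
  push_cast
  ring

def mC4 : PM := ⟨[[[0, 4], [12]], [[2], [], [4]]], [[[5], [0, 4], [4]], [[], [8]]]⟩

lemma mC4_ev (x y z : ℝ) : mC4.ev (x + 1) (y + 1) (z + 1) = C4 x y z := by
  simp only [mC4, PM.ev, KN.evR, KN.ev2, KN.ev1, C4]
  push_cast
  ring

def mC5 : PM := ⟨[[[7]], [[], [1]]], [[[0, 1], [3]], [[3]]]⟩

lemma mC5_ev (x y z : ℝ) : mC5.ev (x + 1) (y + 1) (z + 1) = C5 x y z := by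
  simp only [mC5, PM.ev, KN.evR, KN.ev2, KN.ev1, C5]
  push_cast
  ring

def mC6 : PM := ⟨[[[0, 8], [4]], [[24]], [[], [8]]], [[[11]], [[0, 8], [16]], [[8]]]⟩

lemma mC6_ev (x y z : ℝ) : mC6.ev (x + 1) (y + 1) (z + 1) = C6 x y z := by
  simp only [mC6, PM.ev, KN.evR, KN.ev2, KN.ev1, C6]
  push_cast
  ring

end Pool.Agent.EMT
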