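import Pool.Agent.EMT.TPoly

/-!
# EMT / TCert: from thirteen polynomial inequalities on regions to a certificate
-/

set_option autoImplicit false

namespace Pool.Agent.EMT

/-- `P ≥ 0` on the part of a box where `G ≥ 0` and `C ≥ 0` (the variables of `P` are shifted
by 1). -/
def Chk (P : P3) (G C : ℝ → ℝ → ℝ → ℝ) (a0 b0 a1 b1 a2 b2 : ℝ) : Prop :=
  ∀ x y z : ℝ, a0 ≤ x → x ≤ b0 → a1 ≤ y → y ≤ b1 → a2 ≤ z → z ≤ b2 →
    0 ≤ G x y z → 0 ≤ C x y z → 0 ≤ eval3 P (x + 1) (y + 1) (z + 1)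

def GS (x y z : ℝ) : ℝ := 1 + 2 * x * y * z - x ^ 2 - y ^ 2 - z ^ 2
def GO (x y z : ℝ) : ℝ := (1 - x ^ 2) * (1 - y ^ 2) - z ^ 2
/-- no further constraint -/
def C0 (_ _ _ : ℝ) : ℝ := 0
def C1 (x _ z : ℝ) : ℝ := 1 - 8 * x * z
def C2 (x y z : ℝ) : ℝ := (1 - x) * (1 - y) - z
def C3 (x y z : ℝ) : ℝ := 5 - 8 * x - 4 * y + 4 * x * y - 4 * z
def C4 (x y z : ℝ) : ℝ := 1 - 2 * x - 4 * y * (z - x * y)
def C5 (x y z : ℝ) : ℝ := 1 - 2 * x - 2 * y + x * y - z
def C6 (x y z : ℝ) : ℝ := 1 - 4 * y - 8 * x * (z - x * y)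

/-- The thirteen and two inequalities. -/
structure Ineqs (V : List (List Ent)) (G Q : Bool → List ℤ) : Prop where
  sg : ∀ x : Kap V, (entD V x).sg * (entD V x).sg = 1
  s1 : Chk (polP true true true true V (G true) (G true)) GS C0 (-1) (1 / 2) (-1) (1 / 2) (-1) (1 / 2)
  s2a : Chk (polP true true true false V (G true) (G false)) GS C0
    (-1) (1 / 4) (-1) (1 / 4) (-1) (1 / 2)
  s2b : Chk (polP true true true false V (G true) (G false)) GS C1
    (1 / 4) (1 / 2) (-1) (1 / 4) (-1) (1 / 2)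
  s3 : Chk (polP true true false false V (G false) (G false)) GS C0
    (-1) (1 / 4) (-1) (1 / 4) (-1) (1 / 2)
  o1 : Chk (polP false false true true V (Q true) (Q true)) GO C2 (-1) (1 / 2) (-1) (1 / 2) (-1) 1
  o2 : Chk (polP false false true true V (Q true) (Q true)) GO C3 (-1) (1 / 4) (-1) (1 / 4) (-1) 1
  o3 : Chk (polP false false true true V (Q true) (Q true)) GO C4
    (-1) (1 / 2) (1 / 4) (1 / 2) (-1) 1
  o4 : Chk (polP false false true false V (Q true) (Q false)) GO C0 (-1) (1 / 2) (-1) 0 (-1) 1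
  o5 : Chk (polP false false true false V (Q true) (Q false)) GO C3 (-1) (1 / 2) 0 (1 / 4) (-1) 1
  o6 : Chk (polP false false true false V (Q true) (Q false)) GO C4 (-1) (1 / 2) 0 (1 / 4) (-1) 1
  o7 : Chk (polP false false false false V (Q false) (Q false)) GO C0 (-1) 0 (-1) (1 / 4) (-1) 1
  o8 : Chk (polP false false false false V (Q false) (Q false)) GO C5 0 (1 / 4) 0 (1 / 4) (-1) 1
  o9 : Chk (polP false false false false V (Q false) (Q false)) GO C6 0 (1 / 4) 0 (1 / 4) (-1) 1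
  dN : ∀ t : ℝ, -1 ≤ t → t ≤ 1 / 2 → 0 < ev1 (t + 1) (polD true V (G true) (Q true))
  dS : ∀ t : ℝ, -1 ≤ t → t ≤ 1 / 4 → 0 < ev1 (t + 1) (polD false V (G false) (Q false))

lemma v_ge {t u w : ℝ} (t1 : -1 ≤ t) (t2 : t ≤ 1) (u1 : -1 ≤ u) (u2 : u ≤ 1)
    (hw : w ^ 2 ≤ (1 - t ^ 2) * (1 - u ^ 2)) : -1 ≤ t * u + w := by
  by_contra h
  push Not at h
  have h1 : 0 ≤ 1 + t * u := by nlinarith
  have h2 : (1 + t * u) ^ 2 < w ^ 2 := by
    have h3 : 1 + t * u < -w := by linarith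
    nlinarith
  nlinarith [sq_nonneg (t + u)]

lemma w_abs {t u w : ℝ} (t1 : -1 ≤ t) (t2 : t ≤ 1) (u1 : -1 ≤ u) (u2 : u ≤ 1)
    (hw : w ^ 2 ≤ (1 - t ^ 2) * (1 - u ^ 2)) : -1 ≤ w ∧ w ≤ 1 := by
  have h1 : w ^ 2 ≤ 1 := by
    have a1 : 0 ≤ 1 - t ^ 2 := by nlinarith
    have a2 : 0 ≤ 1 - u ^ 2 := by nlinarith
    nlinarith [sq_nonneg t, sq_nonneg u]
  exact abs_le.1 ((sq_le_one_iff_abs_le_one w).1 h1)

lemma sD_true (V : List (List Ent)) : sD V true = fun _ => 1 := by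
  funext x; simp [sD]

theorem Ineqs.cert {V : List (List Ent)} {G Q : Bool → List ℤ} (H : Ineqs V G Q) {N : ℝ}
    (hN : 0 < N) : Cert (Finset.univ) (fun x : Kap V => (x.1 : ℕ)) (sD V false) (vD V N)
      (gD G N) (gD Q N) := by
  have hN0 : N ≠ 0 := hN.ne'
  have hN2 : 0 < N ^ 2 := by positivity
  -- from the polynomial to the inequality
  have same : ∀ (X Y : Bool) (t u w : ℝ),
      0 ≤ eval3 (polP true true X Y V (G X) (G Y)) (t + 1) (u + 1) (t * u + w + 1) →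
      tF Finset.univ (fun x : Kap V => (x.1 : ℕ)) (fun _ => 1) (vD V N) X t Y u w ≤
        gD G N X t + gD G N Y u := by
    intro X Y t u w h
    rw [eval_polP V hN0, sD_true] at h
    have h1 := nonneg_of_mul_nonneg_right h hN2
    have h2 : wv true (t + 1) (u + 1) (t * u + w + 1) = w := by simp [wv]
    rw [h2] at h1
    linarith
  have opp : ∀ (X Y : Bool) (t u w : ℝ),
      0 ≤ eval3 (polP false false X Y V (Q X) (Q Y)) (t + 1) (u + 1) (w + 1) →
      tF Finset.univ (fun x : Kap V => (x.1 : ℕ)) (sD V false) (vD V N) X t Y u w ≤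
        gD Q N X t + gD Q N Y u := by
    intro X Y t u w h
    rw [eval_polP V hN0] at h
    have h1 := nonneg_of_mul_nonneg_right h hN2
    have h2 : wv false (t + 1) (u + 1) (w + 1) = w := by simp [wv]
    rw [h2] at h1
    linarith
  have gs : ∀ {t u w : ℝ}, w ^ 2 ≤ (1 - t ^ 2) * (1 - u ^ 2) → 0 ≤ GS t u (t * u + w) := by
    intro t u w h
    unfold GS; nlinarith
  have go : ∀ {t u w : ℝ}, w ^ 2 ≤ (1 - t ^ 2) * (1 - u ^ 2) → 0 ≤ GO t u w := by
    intro t u w h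
    unfold GO; linarith
  have c0 : ∀ {t u w : ℝ}, 0 ≤ C0 t u w := fun {t u w} => le_rfl
  refine
    { sgn := ?_, sNN := ?_, sNS := ?_, sSS := ?_, oNN := ?_, oNS := ?_, oSS := ?_, dN := ?_,
      dS := ?_ }
  · intro x
    have h := H.sg x
    unfold sD
    simp only [Bool.false_eq_true, if_false]
    exact_mod_cast h
  · intro t u w t1 t2 u1 u2 hw hv
    exact same _ _ _ _ _ (H.s1 _ _ _ t1 t2 u1 u2 (v_ge t1 (by linarith) u1 (by linarith) hw)
      (by linarith) (gs hw) c0)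
  · intro t u w t1 t2 u1 u2 hw hv hd
    refine same _ _ _ _ _ ?_
    have hv1 := v_ge t1 (by linarith) u1 (by linarith) hw
    rcases le_total t (1 / 4) with ht | ht
    · exact H.s2a _ _ _ t1 ht u1 u2 hv1 (by linarith) (gs hw) c0
    · refine H.s2b _ _ _ ht t2 u1 u2 hv1 (by linarith) (gs hw) ?_
      unfold C1
      rcases hd with hd | hd
      · have : t = 1 / 4 := le_antisymm hd ht
        subst this
        linarith
      · linarith
  · intro t u w t1 t2 u1 u2 hw hv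
    exact same _ _ _ _ _ (H.s3 _ _ _ t1 t2 u1 u2 (v_ge t1 (by linarith) u1 (by linarith) hw)
      (by linarith) (gs hw) c0)
  · intro t u w t1 t2 u1 u2 hw hd
    obtain ⟨w1, w2⟩ := w_abs t1 (by linarith) u1 (by linarith) hw
    refine opp _ _ _ _ _ ?_
    rcases hd with hd | ⟨h1, h2, h3⟩ | ⟨h1, h2⟩
    · refine H.o1 _ _ _ t1 t2 u1 u2 w1 w2 (go hw) ?_
      unfold C2; linarith
    · refine H.o2 _ _ _ t1 h1 u1 h2 w1 w2 (go hw) ?_
      unfold C3; linarith
    · refine H.o3 _ _ _ t1 t2 h1 u2 w1 w2 (go hw) ?_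
      unfold C4; linarith
  · intro t u w t1 t2 u1 u2 hw hd
    obtain ⟨w1, w2⟩ := w_abs t1 (by linarith) u1 (by linarith) hw
    refine opp _ _ _ _ _ ?_
    rcases hd with hd | ⟨h1, h2 | h2⟩
    · exact H.o4 _ _ _ t1 t2 u1 hd w1 w2 (go hw) c0
    · refine H.o5 _ _ _ t1 t2 h1.le u2 w1 w2 (go hw) ?_
      unfold C3; linarith
    · refine H.o6 _ _ _ t1 t2 h1.le u2 w1 w2 (go hw) ?_
      unfold C4; linarith
  · intro t u w t1 t2 u1 u2 hw hd
    obtain ⟨w1, w2⟩ := w_abs t1 (by linarith) u1 (by linarith) hw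
    rcases hd with hd | hd | ⟨h1, h2, h3 | h3⟩
    · exact opp _ _ _ _ _ (H.o7 _ _ _ t1 hd u1 u2 w1 w2 (go hw) c0)
    · rw [tF_symm, add_comm]
      have hw' : w ^ 2 ≤ (1 - u ^ 2) * (1 - t ^ 2) := by rw [mul_comm]; exact hw
      exact opp _ _ _ _ _ (H.o7 _ _ _ u1 hd t1 t2 w1 w2 (go hw') c0)
    · refine opp _ _ _ _ _ (H.o8 _ _ _ h1.le t2 h2.le u2 w1 w2 (go hw) ?_)
      unfold C5; linarith
    · refine opp _ _ _ _ _ (H.o9 _ _ _ h1.le t2 h2.le u2 w1 w2 (go hw) ?_)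
      unfold C6; linarith
  · intro t t1 t2
    have h := H.dN t t1 t2
    rw [eval_polD V hN0] at h
    by_contra hc
    push Not at hc
    nlinarith
  · intro t t1 t2
    have h := H.dS t t1 t2
    rw [eval_polD V hN0] at h
    by_contra hc
    push Not at hc
    nlinarith

/-- **Final form**: the inequalities exclude drawings of trees with two adjacent vertices of
degree at least twelve. -/
theorem Ineqs.no_drawing {V : List (List Ent)} {G Q : Bool → List ℤ} (H : Ineqs V G Q)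
    {W : Type*} [Fintype W] {T : SimpleGraph W} [DecidableRel T.Adj] (hT : T.IsTree) {a b : W}
    (hab : T.Adj a b) (ha : 12 ≤ T.degree a) (hb : 12 ≤ T.degree b) (p : W → E3) :
    ¬ IsDrawing T p :=
  (H.cert (N := 1) one_pos).no_drawing hT hab ha hb p

end Pool.Agent.EMT
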