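import Pool.Agent.EMT.TCert

/-!
# EMT / TDiag: positivity of a polynomial in one variable on an interval, by bisection
-/

set_option autoImplicit false

namespace Pool.Agent.EMT

/-- Bisection. -/
def chkI (p : List ℤ) : ℕ → Iv → Bool
  | 0, i => pos1 i p
  | n + 1, i => pos1 i p || (chkI p n i.lo && chkI p n i.hi)

lemma chkI_sound {p : List ℤ} (n : ℕ) {i : Iv} (hi : i.ok = true) {x : ℝ} (hx : i.mem x)
    (h : chkI p n i = true) : 0 ≤ ev1 x p := by
  have key : ∀ {i : Iv}, i.ok = true → i.mem x → pos1 i p = true → 0 ≤ ev1 x p := by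
    intro i hi hx h
    rw [Iv.ok_iff] at hi
    refine posL_sound linZ (fun c hc => ?_) hi.1 hi.2 hx.1 hx.2 p h
    have : 0 ≤ c := by simpa using hc
    exact_mod_cast this
  induction n generalizing i with
  | zero => exact key hi hx h
  | succ n ih =>
    simp only [chkI, Bool.or_eq_true, Bool.and_eq_true] at h
    rcases h with h | ⟨h1, h2⟩
    · exact key hi hx h
    · rcases Iv.mem_or hx with h3 | h3
      · exact ih (Iv.lo_ok hi) h3 h1
      · exact ih (Iv.hi_ok hi) h3 h2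

/-- `p - 1` -/
def pred1 : List ℤ → List ℤ
  | [] => [-1]
  | a :: as => (a - 1) :: as

lemma ev1_pred1 (x : ℝ) (p : List ℤ) : ev1 x (pred1 p) = ev1 x p - 1 := by
  cases p with
  | nil => simp [pred1, ev1, ev]
  | cons a as => simp only [pred1, ev1, ev]; push_cast; ring

lemma pos_of_chkI {p : List ℤ} {n : ℕ} {A B q : ℤ} (hi : (⟨A, B, q⟩ : Iv).ok = true)
    (h : chkI (pred1 p) n ⟨A, B, q⟩ = true) {x : ℝ} (h1 : (A : ℝ) ≤ q * x)
    (h2 : (q : ℝ) * x ≤ B) : 0 < ev1 x p := by
  have h3 := chkI_sound n hi ⟨h1, h2⟩ h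
  rw [ev1_pred1] at h3
  linarith

end Pool.Agent.EMT
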