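import Pool.Agent.EMT.TDat
import Pool.Agent.EMT.TDiag

/-!
# EMT / TDD: the diagonals of the typed certificate
-/

set_option autoImplicit false
set_option maxRecDepth 100000

namespace Pool.Agent.EMT

def dNl : List ℤ := [152099487, -4184809666, 95036017769, -1112380461448, 7790031313583,
  -35683433188438, 113343108357876, -260029205158692, 444025987817642, -577794926557130,
  584166839001479, -466227917186478, 296899761244539, -151044188911256, 60523932482143,
  -18434245408802, 3997429788755, -547130693506, 35416766980]

def dSl : List ℤ := [130738055, -3556724622, 99747702010, -1455218254188, 12574626156081,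
  -69469047203724, 258214355574874, -669907793161984, 1247347041969141, -1704117238620806,
  1741432777181230, -1356807448511532, 822266653395406, -393855025711342, 148931031147991,
  -43019568463392, 8845700030743, -1148782491024, 71695714999]

lemma polD_N : polD true tV tGN tQN = dNl := by decide +kernel

lemma polD_S : polD false tV tGS tQS = dSl := by decide +kernel

lemma chkN : chkI (pred1 dNl) 12 ⟨0, 3, 2⟩ = true := by decide +kernel

lemma chkS : chkI (pred1 dSl) 12 ⟨0, 5, 4⟩ = true := by decide +kernel

theorem diag_N (t : ℝ) (h1 : -1 ≤ t) (h2 : t ≤ 1 / 2) : 0 < ev1 (t + 1) (polD true tV tGN tQN) := by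
  rw [polD_N]
  exact pos_of_chkI (by decide) chkN (by push_cast; linarith) (by push_cast; linarith)

theorem diag_S (t : ℝ) (h1 : -1 ≤ t) (h2 : t ≤ 1 / 4) : 0 < ev1 (t + 1) (polD false tV tGS tQS) := by
  rw [polD_S]
  exact pos_of_chkI (by decide) chkS (by push_cast; linarith) (by push_cast; linarith)

lemma sg_V : ∀ k : Fin tV.length, ∀ i : Fin (tV.get k).length,
    ((tV.get k).get i).sg * ((tV.get k).get i).sg = 1 := by decide +kernel

end Pool.Agent.EMT
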