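import Pool.Agent.EMT.TDD
import Pool.Agent.EMT.TY.S1
import Pool.Agent.EMT.TY.S2a
import Pool.Agent.EMT.TY.S2b
import Pool.Agent.EMT.TY.S3
import Pool.Agent.EMT.TY.O1
import Pool.Agent.EMT.TY.O2
import Pool.Agent.EMT.TY.O3
import Pool.Agent.EMT.TY.O4
import Pool.Agent.EMT.TY.O5
import Pool.Agent.EMT.TY.O6
import Pool.Agent.EMT.TY.O7
import Pool.Agent.EMT.TY.O8
import Pool.Agent.EMT.TY.O9

/-!
# EMT / TFin: all inequalities of the typed certificate
-/

set_option autoImplicit false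

namespace Pool.Agent.EMT

theorem ineqs : Ineqs tV tG tQ where
  sg := fun x => sg_V x.1 x.2
  s1 := TS1.chk
  s2a := TS2a.chk
  s2b := TS2b.chk
  s3 := TS3.chk
  o1 := TO1.chk
  o2 := TO2.chk
  o3 := TO3.chk
  o4 := TO4.chk
  o5 := TO5.chk
  o6 := TO6.chk
  o7 := TO7.chk
  o8 := TO8.chk
  o9 := TO9.chk
  dN := diag_N
  dS := diag_S

/-- A finite tree with two adjacent vertices of degree at least twelve has no drawing. -/
theorem no_drawing_of_adj {W : Type*} [Fintype W] {T : SimpleGraph W} [DecidableRel T.Adj]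
    (hT : T.IsTree) {a b : W} (hab : T.Adj a b) (ha : 12 ≤ T.degree a) (hb : 12 ≤ T.degree b)
    (p : W → E3) : ¬ IsDrawing T p :=
  ineqs.no_drawing hT hab ha hb p

end Pool.Agent.EMT
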