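import Pool.Agent.EMT.Star
import Pool.Agent.EMT.Dom

/-!
# EMT / Typed: kernels on the two sides of an edge, with two types of points

The points are indexed by `Bool × Fin 11` (side and number); every point has a type `X p`, a height
`τ p` and a complex number `ζ p` with `|ζ p|² = 1 - τ p ²`.
-/

set_option autoImplicit false

namespace Pool.Agent.EMT

open scoped ComplexConjugate

/-- The kernel of a typed certificate. -/
noncomputable def tF {κ : Type*} (s : Finset κ) (d : κ → ℕ) (σ : κ → ℝ) (v : κ → Bool → ℝ → ℝ)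
    (X : Bool) (t : ℝ) (Y : Bool) (u w : ℝ) : ℝ :=
  ∑ x ∈ s, σ x * (v x X t * v x Y u * Wk (d x) w ((1 - t ^ 2) * (1 - u ^ 2)))

lemma tF_symm {κ : Type*} (s : Finset κ) (d : κ → ℕ) (σ : κ → ℝ) (v : κ → Bool → ℝ → ℝ)
    (X : Bool) (t : ℝ) (Y : Bool) (u w : ℝ) : tF s d σ v X t Y u w = tF s d σ v Y u X t w := by
  unfold tF
  refine Finset.sum_congr rfl fun x _ => ?_
  rw [mul_comm (v x X t), mul_comm (1 - t ^ 2)]

/-- The sum of the kernel over all pairs of points is nonnegative; with the bounds for the pairs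
this is an inequality for the sum over the points. -/
theorem typed_core {κ : Type*} (s : Finset κ) (d : κ → ℕ) (σ : κ → ℝ) (hσ : ∀ x, σ x * σ x = 1)
    (v : κ → Bool → ℝ → ℝ) (g q : Bool → ℝ → ℝ) (X : Bool × Fin 11 → Bool) (τ : Bool × Fin 11 → ℝ)
    (ζ : Bool × Fin 11 → ℂ) (hζ : ∀ p, Complex.normSq (ζ p) = 1 - τ p ^ 2)
    (hS : ∀ p r, p.1 = r.1 → p ≠ r → tF s d (fun _ => 1) v (X p) (τ p) (X r) (τ r)
      (ζ p * conj (ζ r)).re ≤ g (X p) (τ p) + g (X r) (τ r))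
    (hO : ∀ p r, p.1 ≠ r.1 → tF s d σ v (X p) (τ p) (X r) (τ r)
      (ζ p * conj (ζ r)).re ≤ q (X p) (τ p) + q (X r) (τ r)) :
    0 ≤ ∑ p, (tF s d (fun _ => 1) v (X p) (τ p) (X p) (τ p) (1 - τ p ^ 2) +
      20 * g (X p) (τ p) + 22 * q (X p) (τ p)) := by
  have nzz : ∀ p r, Complex.normSq (ζ p * conj (ζ r)) = (1 - τ p ^ 2) * (1 - τ r ^ 2) := by
    intro p r
    rw [map_mul, Complex.normSq_conj, hζ, hζ]
  obtain ⟨c, hc⟩ : ∃ c : κ → Bool × Fin 11 → ℝ, ∀ x p, c x p =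
    (if p.1 then σ x else 1) * v x (X p) (τ p) := ⟨_, fun _ _ => rfl⟩
  obtain ⟨K, hK⟩ : ∃ K : Bool × Fin 11 → Bool × Fin 11 → ℝ, ∀ p r, K p r =
    ∑ x ∈ s, c x p * c x r * ((ζ p * conj (ζ r)) ^ d x).re := ⟨_, fun _ _ => rfl⟩
  have hKs : ∀ p r, p.1 = r.1 → K p r =
      tF s d (fun _ => 1) v (X p) (τ p) (X r) (τ r) (ζ p * conj (ζ r)).re := by
    intro p r h
    rw [hK]
    unfold tF
    refine Finset.sum_congr rfl fun x _ => ?_
    rw [re_pow_Wk, nzz, hc, hc, h]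
    by_cases hr : r.1
    · rw [if_pos hr]
      linear_combination (v x (X p) (τ p) * v x (X r) (τ r) *
        Wk (d x) (ζ p * conj (ζ r)).re ((1 - τ p ^ 2) * (1 - τ r ^ 2))) * hσ x
    · rw [if_neg hr]; ring
  have hKo : ∀ p r, p.1 ≠ r.1 → K p r =
      tF s d σ v (X p) (τ p) (X r) (τ r) (ζ p * conj (ζ r)).re := by
    intro p r h
    rw [hK]
    unfold tF
    refine Finset.sum_congr rfl fun x _ => ?_
    rw [re_pow_Wk, nzz, hc, hc]
    cases hp : p.1 <;> cases hr : r.1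
    · exact absurd (hp.trans hr.symm) h
    · simp; ring
    · simp; ring
    · exact absurd (hp.trans hr.symm) h
  have h0 : 0 ≤ ∑ p, ∑ r, K p r := by
    have h1 : ∑ p, ∑ r, K p r =
        ∑ x ∈ s, ∑ p, ∑ r, c x p * c x r * ((ζ p * conj (ζ r)) ^ d x).re := by
      calc ∑ p, ∑ r, K p r
          = ∑ p, ∑ r, ∑ x ∈ s, c x p * c x r * ((ζ p * conj (ζ r)) ^ d x).re :=
            Finset.sum_congr rfl fun i _ => Finset.sum_congr rfl fun j _ => hK i j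
        _ = ∑ p, ∑ x ∈ s, ∑ r, c x p * c x r * ((ζ p * conj (ζ r)) ^ d x).re :=
            Finset.sum_congr rfl fun i _ => Finset.sum_comm
        _ = _ := Finset.sum_comm
    rw [h1]
    exact Finset.sum_nonneg fun x _ => ker_nonneg Finset.univ (c x) ζ (d x)
  obtain ⟨G, hG⟩ : ∃ G : Bool × Fin 11 → ℝ, ∀ p, G p = g (X p) (τ p) := ⟨_, fun _ => rfl⟩
  obtain ⟨Q, hQ⟩ : ∃ Q : Bool × Fin 11 → ℝ, ∀ p, Q p = q (X p) (τ p) := ⟨_, fun _ => rfl⟩
  obtain ⟨D, hD⟩ : ∃ D : Bool × Fin 11 → ℝ, ∀ p, D p =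
    tF s d (fun _ => 1) v (X p) (τ p) (X p) (τ p) (1 - τ p ^ 2) := ⟨_, fun _ => rfl⟩
  have hle : ∀ p r, K p r ≤ (if p.1 = r.1 then G p + G r else Q p + Q r) +
      (if p = r then D p - 2 * G p else 0) := by
    intro p r
    by_cases hpr : p = r
    · subst hpr
      rw [if_pos rfl, if_pos rfl, hKs p p rfl, hD]
      have h2 : (ζ p * conj (ζ p)).re = 1 - τ p ^ 2 := by
        rw [Complex.mul_conj, Complex.ofReal_re, hζ]
      rw [h2]
      linarith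
    · rw [if_neg hpr, add_zero]
      by_cases h1 : p.1 = r.1
      · rw [if_pos h1, hKs p r h1, hG, hG]
        exact hS p r h1 hpr
      · rw [if_neg h1, hKo p r h1, hQ, hQ]
        exact hO p r h1
  have hsum := h0.trans (Finset.sum_le_sum fun p (_ : p ∈ Finset.univ) =>
    Finset.sum_le_sum fun r (_ : r ∈ Finset.univ) => hle p r)
  have e1 : ∑ p : Bool × Fin 11, ∑ r : Bool × Fin 11, ((if p.1 = r.1 then G p + G r else Q p + Q r) +
      (if p = r then D p - 2 * G p else 0)) = ∑ p, (D p + 20 * G p + 22 * Q p) := by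
    simp only [Finset.sum_add_distrib, Finset.sum_ite_eq, Finset.mem_univ, if_true,
      Finset.sum_sub_distrib, ← Finset.mul_sum]
    simp only [Fintype.sum_prod_type, Fintype.sum_bool]
    simp only [if_true, Bool.false_eq_true, Bool.true_eq_false, if_false, Finset.sum_add_distrib,
      Finset.sum_const, Finset.card_univ, Fintype.card_fin, nsmul_eq_mul, ← Finset.mul_sum]
    push_cast
    ring
  rw [e1] at hsum
  simpa only [hD, hG, hQ] using hsum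

/-- The conditions on a typed certificate. `true` is the type of the points with `l ≥ 1/2`, `false` of
those with `l < 1/2`. -/
structure Cert {κ : Type*} (s : Finset κ) (d : κ → ℕ) (σ : κ → ℝ) (v : κ → Bool → ℝ → ℝ)
    (g q : Bool → ℝ → ℝ) : Prop where
  sgn : ∀ x, σ x * σ x = 1
  sNN : ∀ t u w, -1 ≤ t → t ≤ 1 / 2 → -1 ≤ u → u ≤ 1 / 2 → w ^ 2 ≤ (1 - t ^ 2) * (1 - u ^ 2) →
    w ≤ 1 / 2 - t * u → tF s d (fun _ => 1) v true t true u w ≤ g true t + g true u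
  sNS : ∀ t u w, -1 ≤ t → t ≤ 1 / 2 → -1 ≤ u → u ≤ 1 / 4 → w ^ 2 ≤ (1 - t ^ 2) * (1 - u ^ 2) →
    w ≤ 1 / 2 - t * u → (t ≤ 1 / 4 ∨ 8 * t * (t * u + w) ≤ 1) →
    tF s d (fun _ => 1) v true t false u w ≤ g true t + g false u
  sSS : ∀ t u w, -1 ≤ t → t ≤ 1 / 4 → -1 ≤ u → u ≤ 1 / 4 → w ^ 2 ≤ (1 - t ^ 2) * (1 - u ^ 2) →
    w ≤ 1 / 2 - t * u → tF s d (fun _ => 1) v false t false u w ≤ g false t + g false u
  oNN : ∀ t u w, -1 ≤ t → t ≤ 1 / 2 → -1 ≤ u → u ≤ 1 / 2 → w ^ 2 ≤ (1 - t ^ 2) * (1 - u ^ 2) →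
    (w ≤ (1 - t) * (1 - u) ∨ (t ≤ 1 / 4 ∧ u ≤ 1 / 4 ∧ w ≤ 5 / 4 - 2 * t - u + t * u) ∨
      (1 / 4 ≤ u ∧ 4 * u * (w - t * u) ≤ 1 - 2 * t)) →
    tF s d σ v true t true u w ≤ q true t + q true u
  oNS : ∀ t u w, -1 ≤ t → t ≤ 1 / 2 → -1 ≤ u → u ≤ 1 / 4 → w ^ 2 ≤ (1 - t ^ 2) * (1 - u ^ 2) →
    (u ≤ 0 ∨ (0 < u ∧ (w ≤ 5 / 4 - 2 * t - u + t * u ∨ 4 * u * (w - t * u) ≤ 1 - 2 * t))) →
    tF s d σ v true t false u w ≤ q true t + q false u
  oSS : ∀ t u w, -1 ≤ t → t ≤ 1 / 4 → -1 ≤ u → u ≤ 1 / 4 → w ^ 2 ≤ (1 - t ^ 2) * (1 - u ^ 2) →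
    (t ≤ 0 ∨ u ≤ 0 ∨ (0 < t ∧ 0 < u ∧ (w ≤ 1 - 2 * t - 2 * u + t * u ∨
      2 * t * (w - t * u) ≤ 1 / 4 - u))) →
    tF s d σ v false t false u w ≤ q false t + q false u
  dN : ∀ t, -1 ≤ t → t ≤ 1 / 2 →
    tF s d (fun _ => 1) v true t true t (1 - t ^ 2) + 20 * g true t + 22 * q true t < 0
  dS : ∀ t, -1 ≤ t → t ≤ 1 / 4 →
    tF s d (fun _ => 1) v false t false t (1 - t ^ 2) + 20 * g false t + 22 * q false t < 0

/-- The hypotheses of the domain lemmas. -/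
structure Pr (l m t u w : ℝ) : Prop where
  l0 : 0 < l
  m0 : 0 < m
  tl : 2 * t ≤ l
  tl' : 2 * l * t ≤ 1
  um : 2 * u ≤ m
  um' : 2 * m * u ≤ 1
  t1 : -1 ≤ t
  u1 : -1 ≤ u
  t2 : t ≤ 1 / 2
  u2 : u ≤ 1 / 2
  ww : w ^ 2 ≤ (1 - t ^ 2) * (1 - u ^ 2)
  d1 : 1 ≤ DD l m t u w
  dl : l ^ 2 ≤ DD l m t u w
  dm : m ^ 2 ≤ DD l m t u w

lemma Pr.symm {l m t u w : ℝ} (h : Pr l m t u w) : Pr m l u t w where
  l0 := h.m0
  m0 := h.l0
  tl := h.um
  tl' := h.um'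
  um := h.tl
  um' := h.tl'
  t1 := h.u1
  u1 := h.t1
  t2 := h.u2
  u2 := h.t2
  ww := by have := h.ww; rw [mul_comm]; exact this
  d1 := by have := h.d1; unfold DD at *; linarith
  dl := by have := h.dm; unfold DD at *; linarith
  dm := by have := h.dl; unfold DD at *; linarith

/-- The domain lemmas. -/
structure Dom : Prop where
  nn : ∀ l m t u w, Pr l m t u w → 1 / 2 ≤ l → 1 / 2 ≤ m →
    w ≤ (1 - t) * (1 - u) ∨ (t ≤ 1 / 4 ∧ u ≤ 1 / 4 ∧ w ≤ 5 / 4 - 2 * t - u + t * u) ∨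
      (1 / 4 ≤ u ∧ 4 * u * (w - t * u) ≤ 1 - 2 * t) ∨
      (t ≤ 1 / 4 ∧ u ≤ 1 / 4 ∧ w ≤ 5 / 4 - 2 * u - t + t * u) ∨
      (1 / 4 ≤ t ∧ 4 * t * (w - t * u) ≤ 1 - 2 * u)
  ns : ∀ l m t u w, Pr l m t u w → 1 / 2 ≤ l → m < 1 / 2 → 0 < u →
    w ≤ 5 / 4 - 2 * t - u + t * u ∨ 4 * u * (w - t * u) ≤ 1 - 2 * t
  ss : ∀ l m t u w, Pr l m t u w → l < 1 / 2 → m < 1 / 2 → 0 < t → 0 < u →
    w ≤ 1 - 2 * t - 2 * u + t * u ∨ 2 * t * (w - t * u) ≤ 1 / 4 - u ∨
      2 * u * (w - t * u) ≤ 1 / 4 - t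

theorem dom_all : Dom where
  nn l m t u w h hl hm := by
    rcases dom_NN h.l0 h.m0 h.tl h.tl' h.um h.um' h.d1 h.dl h.dm h.ww h.t1 h.u1 hl hm with
      h1 | ⟨h1, h2, h3⟩ | h1 | ⟨h1, h2, h3⟩ | h1
    · exact Or.inl h1
    · exact Or.inr (Or.inl ⟨h2, h1, h3⟩)
    · exact Or.inr (Or.inr (Or.inl h1))
    · exact Or.inr (Or.inr (Or.inr (Or.inl ⟨h2, h1, by linarith⟩)))
    · exact Or.inr (Or.inr (Or.inr (Or.inr h1)))
  ns l m t u w h hl hm hu := dom_NS h.l0 h.m0 h.tl h.tl' h.um h.d1 h.dl h.ww h.t1 hu hl hm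
  ss l m t u w h hl hm ht hu := dom_SS h.l0 h.m0 h.tl h.um h.d1 ht hu hl hm

/-- Opposite pairs. -/
lemma Cert.opp {κ : Type*} {s : Finset κ} {d : κ → ℕ} {σ : κ → ℝ} {v : κ → Bool → ℝ → ℝ}
    {g q : Bool → ℝ → ℝ} (C : Cert s d σ v g q) (hd : Dom) {l m t u w : ℝ} (h : Pr l m t u w) :
    tF s d σ v (decide (1 / 2 ≤ l)) t (decide (1 / 2 ≤ m)) u w ≤
      q (decide (1 / 2 ≤ l)) t + q (decide (1 / 2 ≤ m)) u := by
  have ww' : w ^ 2 ≤ (1 - u ^ 2) * (1 - t ^ 2) := by rw [mul_comm]; exact h.ww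
  by_cases hl : 1 / 2 ≤ l <;> by_cases hm : 1 / 2 ≤ m
  · rw [decide_eq_true hl, decide_eq_true hm]
    rcases hd.nn l m t u w h hl hm with h1 | h1 | h1 | ⟨h1, h2, h3⟩ | ⟨h1, h2⟩
    · exact C.oNN t u w h.t1 h.t2 h.u1 h.u2 h.ww (Or.inl h1)
    · exact C.oNN t u w h.t1 h.t2 h.u1 h.u2 h.ww (Or.inr (Or.inl h1))
    · exact C.oNN t u w h.t1 h.t2 h.u1 h.u2 h.ww (Or.inr (Or.inr h1))
    · rw [tF_symm, add_comm]
      exact C.oNN u t w h.u1 h.u2 h.t1 h.t2 ww' (Or.inr (Or.inl ⟨h2, h1, by linarith⟩))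
    · rw [tF_symm, add_comm]
      exact C.oNN u t w h.u1 h.u2 h.t1 h.t2 ww' (Or.inr (Or.inr ⟨h1, by linarith⟩))
  · have hu : u ≤ 1 / 4 := by have := h.um; push Not at hm; linarith
    rw [decide_eq_true hl, decide_eq_false hm]
    push Not at hm
    refine C.oNS t u w h.t1 h.t2 h.u1 hu h.ww ?_
    by_cases hu0 : u ≤ 0
    · exact Or.inl hu0
    · push Not at hu0
      exact Or.inr ⟨hu0, hd.ns l m t u w h hl hm hu0⟩
  · have ht : t ≤ 1 / 4 := by have := h.tl; push Not at hl; linarith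
    rw [decide_eq_false hl, decide_eq_true hm, tF_symm, add_comm]
    push Not at hl
    refine C.oNS u t w h.u1 h.u2 h.t1 ht ww' ?_
    by_cases ht0 : t ≤ 0
    · exact Or.inl ht0
    · push Not at ht0
      refine Or.inr ⟨ht0, ?_⟩
      exact hd.ns m l u t w h.symm hm hl ht0
  · have hu : u ≤ 1 / 4 := by have := h.um; push Not at hm; linarith
    have ht : t ≤ 1 / 4 := by have := h.tl; push Not at hl; linarith
    rw [decide_eq_false hl, decide_eq_false hm]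
    push Not at hl hm
    by_cases ht0 : t ≤ 0
    · exact C.oSS t u w h.t1 ht h.u1 hu h.ww (Or.inl ht0)
    by_cases hu0 : u ≤ 0
    · exact C.oSS t u w h.t1 ht h.u1 hu h.ww (Or.inr (Or.inl hu0))
    push Not at ht0 hu0
    rcases hd.ss l m t u w h hl hm ht0 hu0 with h1 | h1 | h1
    · exact C.oSS t u w h.t1 ht h.u1 hu h.ww (Or.inr (Or.inr ⟨ht0, hu0, Or.inl h1⟩))
    · exact C.oSS t u w h.t1 ht h.u1 hu h.ww (Or.inr (Or.inr ⟨ht0, hu0, Or.inr h1⟩))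
    · rw [tF_symm, add_comm]
      exact C.oSS u t w h.u1 hu h.t1 ht ww' (Or.inr (Or.inr ⟨hu0, ht0, Or.inr (by linarith)⟩))

/-- Pairs on the same side. -/
lemma Cert.same {κ : Type*} {s : Finset κ} {d : κ → ℕ} {σ : κ → ℝ} {v : κ → Bool → ℝ → ℝ}
    {g q : Bool → ℝ → ℝ} (C : Cert s d σ v g q) {l m t u w : ℝ} (hl0 : 0 < l) (hm0 : 0 < m)
    (tl : 2 * t ≤ l) (um : 2 * u ≤ m) (t1 : -1 ≤ t) (u1 : -1 ≤ u) (t2 : t ≤ 1 / 2)
    (u2 : u ≤ 1 / 2) (hww : w ^ 2 ≤ (1 - t ^ 2) * (1 - u ^ 2)) (h1 : 2 * m * (t * u + w) ≤ l)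
    (h2 : 2 * l * (t * u + w) ≤ m) :
    tF s d (fun _ => 1) v (decide (1 / 2 ≤ l)) t (decide (1 / 2 ≤ m)) u w ≤
      g (decide (1 / 2 ≤ l)) t + g (decide (1 / 2 ≤ m)) u := by
  have ww' : w ^ 2 ≤ (1 - u ^ 2) * (1 - t ^ 2) := by rw [mul_comm]; exact hww
  have hw : w ≤ 1 / 2 - t * u := by
    rcases le_total l m with h | h
    · have h3 : m * (2 * (t * u + w)) ≤ m * 1 := by linarith
      have := le_of_mul_le_mul_left h3 hm0
      linarith
    · have h3 : l * (2 * (t * u + w)) ≤ l * 1 := by linarith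
      have := le_of_mul_le_mul_left h3 hl0
      linarith
  have aux : ∀ {l m t u : ℝ}, 0 < l → 2 * t ≤ l → 2 * l * (t * u + w) ≤ m → m < 1 / 2 →
      t ≤ 1 / 4 ∨ 8 * t * (t * u + w) ≤ 1 := by
    intro l m t u hl tl h3 hm
    by_cases ht : t ≤ 1 / 4
    · exact Or.inl ht
    · push Not at ht
      refine Or.inr ?_
      by_cases hv : t * u + w ≤ 0
      · nlinarith
      · push Not at hv
        nlinarith
  by_cases hl : 1 / 2 ≤ l <;> by_cases hm : 1 / 2 ≤ m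
  · rw [decide_eq_true hl, decide_eq_true hm]
    exact C.sNN t u w t1 t2 u1 u2 hww hw
  · have hu : u ≤ 1 / 4 := by push Not at hm; linarith
    rw [decide_eq_true hl, decide_eq_false hm]
    push Not at hm
    exact C.sNS t u w t1 t2 u1 hu hww hw (aux hl0 tl h2 hm)
  · have ht : t ≤ 1 / 4 := by push Not at hl; linarith
    rw [decide_eq_false hl, decide_eq_true hm, tF_symm, add_comm]
    push Not at hl
    refine C.sNS u t w u1 u2 t1 ht ww' (by linarith) (aux (u := t) hm0 um ?_ hl)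
    linarith
  · have hu : u ≤ 1 / 4 := by push Not at hm; linarith
    have ht : t ≤ 1 / 4 := by push Not at hl; linarith
    rw [decide_eq_false hl, decide_eq_false hm]
    exact C.sSS t u w t1 ht u1 hu hww hw

lemma le_half {l t : ℝ} (h1 : 2 * t ≤ l) (h2 : 2 * l * t ≤ 1) : t ≤ 1 / 2 := by
  by_contra h
  push Not at h
  nlinarith

lemma re_sq_le (z w : ℂ) {t u : ℝ} (hz : Complex.normSq z = 1 - t ^ 2)
    (hw : Complex.normSq w = 1 - u ^ 2) :
    (z * conj w).re ^ 2 ≤ (1 - t ^ 2) * (1 - u ^ 2) := by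
  rw [← hz, ← hw, ← Complex.normSq_conj w, ← map_mul, Complex.normSq_apply]
  nlinarith [mul_self_nonneg (z * conj w).im]

/-- A typed certificate excludes the data of two adjacent vertices of degree twelve. -/
theorem typed_false' {κ : Type*} {s : Finset κ} {d : κ → ℕ} {σ : κ → ℝ} {v : κ → Bool → ℝ → ℝ}
    {g q : Bool → ℝ → ℝ} (C : Cert s d σ v g q) (hd : Dom) {l m t r : Fin 11 → ℝ}
    {z w : Fin 11 → ℂ} (h : Dat l m t r z w) : False := by
  obtain ⟨L, hL⟩ : ∃ L : Bool × Fin 11 → ℝ, ∀ p, L p = if p.1 then m p.2 else l p.2 :=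
    ⟨_, fun _ => rfl⟩
  obtain ⟨τ, hτ⟩ : ∃ L : Bool × Fin 11 → ℝ, ∀ p, L p = if p.1 then r p.2 else t p.2 :=
    ⟨_, fun _ => rfl⟩
  obtain ⟨ζ, hζ⟩ : ∃ L : Bool × Fin 11 → ℂ, ∀ p, L p = if p.1 then w p.2 else z p.2 :=
    ⟨_, fun _ => rfl⟩
  have t1 : ∀ i, t i ≤ 1 / 2 := fun i => le_half (h.tl i) (h.tl' i)
  have r1 : ∀ i, r i ≤ 1 / 2 := fun i => le_half (h.sm i) (h.sm' i)
  have t2 : ∀ i, -1 ≤ t i := by
    intro i
    have h1 : 0 ≤ 1 - t i ^ 2 := by rw [← h.zz]; exact Complex.normSq_nonneg _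
    nlinarith
  have r2 : ∀ i, -1 ≤ r i := by
    intro i
    have h1 : 0 ≤ 1 - r i ^ 2 := by rw [← h.ww]; exact Complex.normSq_nonneg _
    nlinarith
  have hpr : ∀ i j, Pr (l i) (m j) (t i) (r j) (z i * conj (w j)).re := fun i j =>
    { l0 := h.lpos i
      m0 := h.mpos j
      tl := h.tl i
      tl' := h.tl' i
      um := h.sm j
      um' := h.sm' j
      t1 := t2 i
      u1 := r2 j
      t2 := t1 i
      u2 := r1 j
      ww := re_sq_le _ _ (h.zz i) (h.ww j)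
      d1 := h.xy i j
      dl := h.xyl i j
      dm := h.xym i j }
  have flip : ∀ a b : ℂ, (a * conj b).re = (b * conj a).re := by
    intro a b
    rw [Complex.mul_re, Complex.mul_re, Complex.conj_re, Complex.conj_im, Complex.conj_re,
      Complex.conj_im]
    ring
  have h0 := typed_core s d σ C.sgn v g q (fun p => decide (1 / 2 ≤ L p)) τ ζ
    (by
      rintro ⟨b, i⟩
      cases b
      · rw [hζ, hτ]; simpa using h.zz i
      · rw [hζ, hτ]; simpa using h.ww i)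
    (by
      rintro ⟨b, i⟩ ⟨c, j⟩ hbc hne
      obtain rfl : b = c := hbc
      have hij : i ≠ j := fun e => hne (by rw [e])
      cases b
      · simp only [hζ, hτ, hL, Bool.false_eq_true, if_false]
        refine C.same (h.lpos i) (h.lpos j) (h.tl i) (h.tl j) (t2 i) (t2 j) (t1 i) (t1 j)
          (re_sq_le _ _ (h.zz i) (h.zz j)) (h.xx i j hij) ?_
        rw [mul_comm (t i), flip]
        exact h.xx j i hij.symm
      · simp only [hζ, hτ, hL, if_true]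
        refine C.same (h.mpos i) (h.mpos j) (h.sm i) (h.sm j) (r2 i) (r2 j) (r1 i) (r1 j)
          (re_sq_le _ _ (h.ww i) (h.ww j)) (h.yy i j hij) ?_
        rw [mul_comm (r i), flip]
        exact h.yy j i hij.symm)
    (by
      rintro ⟨b, i⟩ ⟨c, j⟩ hbc
      cases b <;> cases c
      · exact absurd rfl hbc
      · simp only [hζ, hτ, hL, if_true, Bool.false_eq_true, if_false]
        exact C.opp hd (hpr i j)
      · simp only [hζ, hτ, hL, if_true, Bool.false_eq_true, if_false]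
        rw [tF_symm, flip, add_comm]
        exact C.opp hd (hpr j i)
      · exact absurd rfl hbc)
  have h1 : ∑ p : Bool × Fin 11, (tF s d (fun _ => 1) v (decide (1 / 2 ≤ L p)) (τ p)
      (decide (1 / 2 ≤ L p)) (τ p) (1 - τ p ^ 2) + 20 * g (decide (1 / 2 ≤ L p)) (τ p) +
      22 * q (decide (1 / 2 ≤ L p)) (τ p)) < 0 := by
    refine Finset.sum_neg (fun p _ => ?_) ⟨(true, 0), Finset.mem_univ _⟩
    have hp1 : -1 ≤ τ p := by
      rw [hτ]; split_ifs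
      · exact r2 _
      · exact t2 _
    have hp2 : τ p ≤ 1 / 2 := by
      rw [hτ]; split_ifs
      · exact r1 _
      · exact t1 _
    have hp3 : 2 * τ p ≤ L p := by
      rw [hτ, hL]; split_ifs
      · exact h.sm _
      · exact h.tl _
    by_cases hp : 1 / 2 ≤ L p
    · rw [decide_eq_true hp]
      exact C.dN _ hp1 hp2
    · rw [decide_eq_false hp]
      push Not at hp
      exact C.dS _ hp1 (by linarith)
  exact absurd h0 (not_le.2 h1)

/-- A typed certificate excludes drawings of trees with two adjacent vertices of degree twelve. -/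
theorem Cert.no_drawing {κ : Type*} {s : Finset κ} {d : κ → ℕ} {σ : κ → ℝ}
    {v : κ → Bool → ℝ → ℝ} {g q : Bool → ℝ → ℝ} (C : Cert s d σ v g q) {V : Type*} [Fintype V]
    {T : SimpleGraph V} [DecidableRel T.Adj] (hT : T.IsTree) {a b : V} (hab : T.Adj a b)
    (ha : 12 ≤ T.degree a) (hb : 12 ≤ T.degree b) (p : V → E3) : ¬ IsDrawing T p := by
  intro hp
  obtain ⟨U, W, X, Y, hc⟩ := exists_cfg hT hp hab ha hb
  obtain ⟨l, m, t, r, z, w, h⟩ := hc.exists_dat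
  exact typed_false' C dom_all h

end Pool.Agent.EMT
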