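import Pool.Agent.EMT.Box
import Pool.Agent.EMT.Typed

/-!
# EMT / TPoly: the polynomials of a typed certificate

The data of a certificate are lists of integers; `polP` is the polynomial `N² (g t + g u - F)` in
three variables (lists of lists of lists of integers), and `eval_polP` says so.
-/

set_option autoImplicit false

namespace Pool.Agent.EMT

/-- value of a list of integers as a polynomial -/
noncomputable def ev1 (x : ℝ) (p : List ℤ) : ℝ := ev (fun a : ℤ => (a : ℝ)) x p

/-- An entry of the data: sign, polynomial for the type `true`, polynomial for the type `false`. -/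
structure Ent where
  sg : ℤ
  cN : List ℤ
  cS : List ℤ

def Ent.sel (e : Ent) (X : Bool) : List ℤ := if X then e.cN else e.cS

abbrev P2 := List (List ℤ)

def o1 : Ops ℤ := opsZ
def o2 : Ops (List ℤ) := opsL opsZ
def o3 : Ops (List (List ℤ)) := opsL (opsL opsZ)

/-- `a(t) b(u)` -/
def outer (a b : List ℤ) : P2 := a.map fun c => smulL o1 c b

/-- sum of `sg * a(t) * b(u)` over the entries of one degree; `same = true`: without the signs. -/
def mk2 (same X Y : Bool) : List Ent → P2
  | [] => []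
  | e :: es => addL o2 (smulL o2 (if same then 1 else e.sg) (outer (e.sel X) (e.sel Y)))
      (mk2 same X Y es)

def up3 (p : P2) : P3 := p.map fun r => r.map fun c => [c]

def mx (p : P3) : P3 := [] :: p
def my (p : P3) : P3 := p.map fun s => [] :: s
def mz (p : P3) : P3 := p.map fun s => s.map fun r => 0 :: r

/-- multiplication by `w`, where `x = t + 1`, `y = u + 1`; `flat = true`: the third variable is
`z = t u + w + 1`, `flat = false`: it is `z = w + 1`. -/
def mulW (flat : Bool) (p : P3) : P3 :=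
  if flat then addL o3 (mz p) (addL o3 (mx p) (addL o3 (my p)
    (addL o3 (smulL o3 (-1) (mx (my p))) (smulL o3 (-2) p))))
  else addL o3 (mz p) (smulL o3 (-1) p)

/-- `2 x p - x² p` -/
def mulA (p : P3) : P3 := mx (addL o3 (smulL o3 2 p) (smulL o3 (-1) (mx p)))
/-- `2 y p - y² p` -/
def mulB (p : P3) : P3 := my (addL o3 (smulL o3 2 p) (smulL o3 (-1) (my p)))
/-- multiplication by `(1 - t²) (1 - u²) = (2 x - x²) (2 y - y²)` -/
def mulQ (p : P3) : P3 := mulB (mulA p)

/-- Clenshaw recursion. -/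
def cl (flat : Bool) : List P2 → P3 × P3
  | [] => ([], [])
  | m :: ms =>
    (addL o3 (up3 m) (addL o3 (smulL o3 2 (mulW flat (cl flat ms).1))
      (smulL o3 (-1) (mulQ (cl flat ms).2))), (cl flat ms).1)

/-- `F` -/
def polF (flat : Bool) : List P2 → P3
  | [] => []
  | m :: ms => addL o3 (up3 m) (addL o3 (mulW flat (cl flat ms).1)
      (smulL o3 (-1) (mulQ (cl flat ms).2)))

/-- `N² (g t + h u - F)` -/
def polP (flat same X Y : Bool) (V : List (List Ent)) (g h : List ℤ) : P3 :=
  addL o3 (up3 (g.map fun c => [c])) (addL o3 (up3 [h])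
    (smulL o3 (-1) (polF flat (V.map (mk2 same X Y)))))

/-! ### evaluation -/

lemma lin1 : Lin o1 (fun a : ℤ => (a : ℝ)) := linZ
lemma lin2 (z : ℝ) : Lin o2 (ev1 z) := linL linZ z
lemma lin3 (y z : ℝ) : Lin o3 (ev (ev1 z) y) := linL (linL linZ z) y

lemma eval3_def (p : P3) (x y z : ℝ) : eval3 p x y z = ev (ev (ev1 z) y) x p := rfl

lemma eval3_add (p r : P3) (x y z : ℝ) :
    eval3 (addL o3 p r) x y z = eval3 p x y z + eval3 r x y z := ev_addL (lin3 y z) x p r

lemma eval3_smul (c : ℤ) (p : P3) (x y z : ℝ) :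
    eval3 (smulL o3 c p) x y z = c * eval3 p x y z := ev_smulL (lin3 y z) x c p

lemma ev_map' {α β : Type} (φ : β → ℝ) (ψ : α → ℝ) (f : α → β) (c : ℝ) (h : ∀ a, φ (f a) = c * ψ a)
    (x : ℝ) (p : List α) : ev φ x (p.map f) = c * ev ψ x p := by
  induction p with
  | nil => simp [ev]
  | cons a as ih => simp only [List.map_cons, ev, h, ih]; ring

lemma ev_outer (a b : List ℤ) (x y : ℝ) : ev (ev1 y) x (outer a b) = ev1 x a * ev1 y b := by
  unfold outer
  rw [ev_map' (ev1 y) (fun a : ℤ => (a : ℝ)) _ (ev1 y b) (fun c => by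
    unfold ev1; rw [ev_smulL lin1]; ring) x a, mul_comm]
  rfl

lemma ev_mk2 (same X Y : Bool) (es : List Ent) (x y : ℝ) : ev (ev1 y) x (mk2 same X Y es) =
    (es.map fun e => ((if same then 1 else e.sg : ℤ) : ℝ) * (ev1 x (e.sel X) * ev1 y (e.sel Y))).sum := by
  induction es with
  | nil => simp [mk2, ev]
  | cons e es ih =>
    simp only [mk2, List.map_cons, List.sum_cons]
    rw [ev_addL (lin2 y), ev_smulL (lin2 y), ih, ev_outer]

lemma eval3_up3 (p : P2) (x y z : ℝ) : eval3 (up3 p) x y z = ev (ev1 y) x p := by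
  rw [eval3_def, up3, ev_map' (ev (ev1 z) y) (ev1 y) _ 1 (fun r => by
    rw [ev_map' (ev1 z) (fun a : ℤ => (a : ℝ)) _ 1 (fun c => by simp [ev1, ev]) y r]; rfl) x p,
    one_mul]

lemma eval3_mx (p : P3) (x y z : ℝ) : eval3 (mx p) x y z = x * eval3 p x y z := by
  simp [eval3_def, mx, ev]

lemma eval3_my (p : P3) (x y z : ℝ) : eval3 (my p) x y z = y * eval3 p x y z := by
  rw [eval3_def, my, ev_map' (ev (ev1 z) y) (ev (ev1 z) y) _ y (fun r => by
    simp [ev, ev1]) x p]
  rfl

lemma eval3_mz (p : P3) (x y z : ℝ) : eval3 (mz p) x y z = z * eval3 p x y z := by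
  rw [eval3_def, mz, ev_map' (ev (ev1 z) y) (ev (ev1 z) y) _ z (fun r => by
    rw [ev_map' (ev1 z) (ev1 z) _ z (fun c => by simp [ev1, ev]) y r]) x p]
  rfl

/-- the value of `w` -/
def wv (flat : Bool) (x y z : ℝ) : ℝ :=
  if flat then (z - 1) - (x - 1) * (y - 1) else z - 1

/-- `(1 - t²) (1 - u²)` -/
def qv (x y : ℝ) : ℝ := (2 * x - x ^ 2) * (2 * y - y ^ 2)

lemma eval3_mulW (flat : Bool) (p : P3) (x y z : ℝ) :
    eval3 (mulW flat p) x y z = wv flat x y z * eval3 p x y z := by
  unfold mulW wv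
  cases flat
  · simp only [Bool.false_eq_true, if_false]
    rw [eval3_add, eval3_smul, eval3_mz]
    push_cast; ring
  · simp only [if_true]
    rw [eval3_add, eval3_add, eval3_add, eval3_add, eval3_smul, eval3_smul, eval3_mz, eval3_mx,
      eval3_mx, eval3_my]
    push_cast; ring

lemma eval3_mulQ (p : P3) (x y z : ℝ) :
    eval3 (mulQ p) x y z = qv x y * eval3 p x y z := by
  unfold mulQ mulB mulA qv
  simp only [eval3_add, eval3_smul, eval3_mx, eval3_my]
  push_cast; ring

/-- `∑ m_i W_(i+j)` -/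
noncomputable def sumW (w q x y : ℝ) : List P2 → ℕ → ℝ
  | [], _ => 0
  | m :: ms, j => ev (ev1 y) x m * Wk j w q + sumW w q x y ms (j + 1)

lemma cl_spec (flat : Bool) (ms : List P2) (x y z : ℝ) (j : ℕ) :
    sumW (wv flat x y z) (qv x y) x y ms (j + 1) =
      eval3 (cl flat ms).1 x y z * Wk (j + 1) (wv flat x y z) (qv x y) -
      qv x y * eval3 (cl flat ms).2 x y z * Wk j (wv flat x y z) (qv x y) := by
  induction ms generalizing j with
  | nil => simp [sumW, cl, eval3, ev]
  | cons m ms ih =>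
    simp only [sumW, cl]
    rw [ih (j + 1), eval3_add, eval3_add, eval3_smul, eval3_smul, eval3_mulW, eval3_mulQ,
      eval3_up3, Wk]
    push_cast; ring

lemma eval3_polF (flat : Bool) (ms : List P2) (x y z : ℝ) : eval3 (polF flat ms) x y z =
    sumW (wv flat x y z) (qv x y) x y ms 0 := by
  cases ms with
  | nil => simp [polF, sumW, eval3, ev]
  | cons m ms =>
    simp only [polF, sumW]
    rw [eval3_add, eval3_add, eval3_smul, eval3_mulW, eval3_mulQ, eval3_up3, cl_spec]
    simp only [Wk]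
    push_cast; ring

/-! ### the certificate of the data -/

/-- index type of the kernels -/
abbrev Kap (V : List (List Ent)) : Type := Σ k : Fin V.length, Fin (V.get k).length

def entD (V : List (List Ent)) (x : Kap V) : Ent := (V.get x.1).get x.2

/-- real functions of the data -/
noncomputable def vD (V : List (List Ent)) (N : ℝ) (x : Kap V) (X : Bool) (t : ℝ) : ℝ :=
  ev1 (t + 1) ((entD V x).sel X) / N

noncomputable def gD (G : Bool → List ℤ) (N : ℝ) (X : Bool) (t : ℝ) : ℝ :=
  ev1 (t + 1) (G X) / N ^ 2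

/-- sum with index -/
noncomputable def sumIdx {α : Type} (G : ℕ → α → ℝ) : List α → ℕ → ℝ
  | [], _ => 0
  | a :: as, j => G j a + sumIdx G as (j + 1)

lemma sum_idx {α : Type} (G : ℕ → α → ℝ) (V : List α) (j : ℕ) :
    ∑ k : Fin V.length, G (j + k) (V.get k) = sumIdx G V j := by
  induction V generalizing j with
  | nil => simp [sumIdx]
  | cons a as ih =>
    have h := Fin.sum_univ_succ (n := as.length) (fun k : Fin (as.length + 1) =>
      G (j + k) ((a :: as).get k))
    simp only [List.length_cons] at h ⊢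
    rw [h]
    simp only [sumIdx, Fin.val_zero, add_zero, List.get_cons_zero, Fin.val_succ]
    rw [← ih (j + 1)]
    congr 1
    refine Finset.sum_congr rfl fun k _ => ?_
    congr 1
    omega

lemma sumW_eq (w q x y : ℝ) (f : List Ent → P2) (V : List (List Ent)) (j : ℕ) :
    sumW w q x y (V.map f) j = sumIdx (fun k es => ev (ev1 y) x (f es) * Wk k w q) V j := by
  induction V generalizing j with
  | nil => simp [sumW, sumIdx]
  | cons a as ih => simp only [List.map_cons, sumW, sumIdx, ih]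

lemma list_sum_fin {α : Type} (f : α → ℝ) (l : List α) :
    ∑ i : Fin l.length, f (l.get i) = (l.map f).sum := by
  induction l with
  | nil => simp
  | cons a as ih =>
    have h := Fin.sum_univ_succ (n := as.length) (fun k : Fin (as.length + 1) =>
      f ((a :: as).get k))
    simp only [List.length_cons] at h ⊢
    rw [h, List.map_cons, List.sum_cons, ← ih]
    rfl

/-- the signs -/
noncomputable def sD (V : List (List Ent)) (same : Bool) (x : Kap V) : ℝ :=
  ((if same then 1 else (entD V x).sg : ℤ) : ℝ)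

lemma tF_eq (V : List (List Ent)) {N : ℝ} (hN : N ≠ 0) (same X Y : Bool) (t u w : ℝ) :
    N ^ 2 * tF Finset.univ (fun x : Kap V => (x.1 : ℕ)) (sD V same) (vD V N) X t Y u w =
      sumW w (qv (t + 1) (u + 1)) (t + 1) (u + 1) (V.map (mk2 same X Y)) 0 := by
  have hq : (1 - t ^ 2) * (1 - u ^ 2) = qv (t + 1) (u + 1) := by unfold qv; ring
  rw [sumW_eq, ← sum_idx]
  unfold tF
  rw [Fintype.sum_sigma, Finset.mul_sum]
  refine Finset.sum_congr rfl fun k _ => ?_
  rw [zero_add, ev_mk2, ← list_sum_fin, Finset.mul_sum, Finset.sum_mul]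
  refine Finset.sum_congr rfl fun r _ => ?_
  rw [hq]
  unfold vD sD entD
  field_simp

theorem eval_polP (V : List (List Ent)) {N : ℝ} (hN : N ≠ 0) (G : Bool → List ℤ)
    (flat same X Y : Bool) (t u z : ℝ) :
    eval3 (polP flat same X Y V (G X) (G Y)) (t + 1) (u + 1) z =
      N ^ 2 * (gD G N X t + gD G N Y u -
      tF Finset.univ (fun x : Kap V => (x.1 : ℕ)) (sD V same) (vD V N) X t Y u
        (wv flat (t + 1) (u + 1) z)) := by
  unfold polP
  rw [eval3_add, eval3_add, eval3_smul, eval3_polF, ← tF_eq V hN, eval3_up3, eval3_up3]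
  have h1 : ev (ev1 (u + 1)) (t + 1) ((G X).map fun c => [c]) = ev1 (t + 1) (G X) := by
    rw [ev_map' (ev1 (u + 1)) (fun a : ℤ => (a : ℝ)) _ 1 (fun c => by simp [ev1, ev]) (t + 1)
      (G X), one_mul]
    rfl
  have h2 : ev (ev1 (u + 1)) (t + 1) [G Y] = ev1 (u + 1) (G Y) := by simp [ev]
  rw [h1, h2]
  unfold gD
  field_simp
  push_cast
  ring

/-! ### the diagonal -/

lemma Wk_diag (w : ℝ) (k : ℕ) : Wk k w (w * w) = w ^ k := by
  induction k using Nat.strong_induction_on with
  | _ k ih =>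
    match k with
    | 0 => simp [Wk]
    | 1 => simp [Wk]
    | k + 2 => rw [Wk, ih (k + 1) (by omega), ih k (by omega)]; ring

/-- product of two polynomials in one variable -/
def mul1 : List ℤ → List ℤ → List ℤ
  | [], _ => []
  | a :: as, b => addL o1 (smulL o1 a b) (0 :: mul1 as b)

lemma ev1_mul1 (x : ℝ) (a b : List ℤ) : ev1 x (mul1 a b) = ev1 x a * ev1 x b := by
  induction a with
  | nil => simp [mul1, ev1, ev]
  | cons a as ih =>
    simp only [mul1, ev1] at ih ⊢
    rw [ev_addL lin1, ev_smulL lin1]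
    simp only [ev]
    rw [ih]; push_cast; ring

def sq1 (X : Bool) : List Ent → List ℤ
  | [] => []
  | e :: es => addL o1 (mul1 (e.sel X) (e.sel X)) (sq1 X es)

lemma ev1_sq1 (X : Bool) (es : List Ent) (x : ℝ) :
    ev1 x (sq1 X es) = (es.map fun e => ev1 x (e.sel X) * ev1 x (e.sel X)).sum := by
  induction es with
  | nil => simp [sq1, ev1, ev]
  | cons e es ih =>
    simp only [sq1, List.map_cons, List.sum_cons]
    rw [← ih, ← ev1_mul1]
    exact ev_addL lin1 x _ _

/-- `∑ (2 x - x²)^k m_k` -/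
def diagF : List (List ℤ) → List ℤ
  | [] => []
  | m :: ms => addL o1 m (0 :: mul1 [2, -1] (diagF ms))

lemma ev1_diagF (ms : List (List ℤ)) (x : ℝ) (j : ℕ) :
    (2 * x - x ^ 2) ^ j * ev1 x (diagF ms) =
      sumIdx (fun k m => (2 * x - x ^ 2) ^ k * ev1 x m) ms j := by
  induction ms generalizing j with
  | nil => simp [diagF, sumIdx, ev1, ev]
  | cons m ms ih =>
    simp only [diagF, sumIdx]
    rw [← ih (j + 1)]
    have h1 : ev1 x (addL o1 m (0 :: mul1 [2, -1] (diagF ms))) =
        ev1 x m + ev1 x (0 :: mul1 [2, -1] (diagF ms)) := ev_addL lin1 x _ _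
    have h2 : ev1 x (0 :: mul1 [2, -1] (diagF ms)) = x * ev1 x (mul1 [2, -1] (diagF ms)) := by
      simp [ev1, ev]
    have h3 : ev1 x [2, -1] = 2 - x := by simp [ev1, ev]; ring
    rw [h1, h2, ev1_mul1, h3]
    ring

/-- `- N² (F(t,t) + 20 g + 22 q)` -/
def polD (X : Bool) (V : List (List Ent)) (g q : List ℤ) : List ℤ :=
  smulL o1 (-1) (addL o1 (diagF (V.map (sq1 X))) (addL o1 (smulL o1 20 g) (smulL o1 22 q)))

lemma sumIdx_map {α β : Type} (G : ℕ → β → ℝ) (f : α → β) (V : List α) (j : ℕ) :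
    sumIdx G (V.map f) j = sumIdx (fun k a => G k (f a)) V j := by
  induction V generalizing j with
  | nil => simp [sumIdx]
  | cons a as ih => simp only [List.map_cons, sumIdx, ih]

theorem eval_polD (V : List (List Ent)) {N : ℝ} (hN : N ≠ 0) (G Q : Bool → List ℤ) (X : Bool)
    (t : ℝ) : ev1 (t + 1) (polD X V (G X) (Q X)) = - N ^ 2 *
      (tF Finset.univ (fun x : Kap V => (x.1 : ℕ)) (fun _ => 1) (vD V N) X t X t (1 - t ^ 2) +
        20 * gD G N X t + 22 * gD Q N X t) := by
  have h1 : N ^ 2 * tF Finset.univ (fun x : Kap V => (x.1 : ℕ)) (fun _ => 1) (vD V N) X t X t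
      (1 - t ^ 2) = ev1 (t + 1) (diagF (V.map (sq1 X))) := by
    have h2 := ev1_diagF (V.map (sq1 X)) (t + 1) 0
    rw [pow_zero, one_mul] at h2
    have hq : 2 * (t + 1) - (t + 1) ^ 2 = 1 - t ^ 2 := by ring
    rw [h2, sumIdx_map, ← sum_idx, hq]
    unfold tF
    rw [Fintype.sum_sigma, Finset.mul_sum]
    refine Finset.sum_congr rfl fun k _ => ?_
    rw [zero_add, ev1_sq1, ← list_sum_fin, Finset.mul_sum, Finset.mul_sum]
    refine Finset.sum_congr rfl fun r _ => ?_
    rw [Wk_diag]
    unfold vD entD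
    field_simp
  unfold polD
  have h3 : ∀ a b, ev1 (t + 1) (addL o1 a b) = ev1 (t + 1) a + ev1 (t + 1) b :=
    fun a b => ev_addL lin1 (t + 1) a b
  have h4 : ∀ c a, ev1 (t + 1) (smulL o1 c a) = c * ev1 (t + 1) a :=
    fun c a => ev_smulL lin1 (t + 1) c a
  rw [h4, h3, h3, h4, h4, ← h1]
  unfold gD
  field_simp
  push_cast
  ring

end Pool.Agent.EMT
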