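import Pool.Agent.EMT.Mst

/-!
# EMT / Two: two adjacent vertices of degree 12 in a drawing

From a drawing of a tree with two adjacent vertices of degree at least 12 we get the configuration
`Cfg U V X Y`: two points and twice eleven points with the distance inequalities of the drawing.
-/

set_option autoImplicit false

namespace Pool.Agent.EMT

open SimpleGraph

variable {V : Type*}

/-- On a path with two edges. -/
lemma len_two [Finite V] {T : SimpleGraph V} (hT : T.IsTree) {p : V → E3}
    (hp : IsDrawing T p) {a b c : V} (hab : T.Adj a b) (hbc : T.Adj b c) (hac : a ≠ c) :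
    dist (p a) (p b) ≤ dist (p a) (p c) ∧ dist (p b) (p c) ≤ dist (p a) (p c) := by
  have hw : (Walk.cons hab (Walk.cons hbc Walk.nil)).IsPath := by
    simp [Walk.cons_isPath_iff, hab.ne, hbc.ne, hac]
  exact ⟨len_le hT hp _ hw (by simp), len_le hT hp _ hw (by simp)⟩

/-- A tree has no triangle. -/
lemma no_triangle {T : SimpleGraph V} (hT : T.IsTree) {a b c : V} (hab : T.Adj a b)
    (hbc : T.Adj b c) (hac : T.Adj a c) : False := by
  have hw : (Walk.cons hab (Walk.cons hbc Walk.nil)).IsPath := by
    simp [Walk.cons_isPath_iff, hab.ne, hbc.ne, hac.ne]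
  have hw' : (Walk.cons hac Walk.nil).IsPath := by
    simp [Walk.cons_isPath_iff, hac.ne]
  have h := congrArg (fun q : T.Path a c => (q : T.Walk a c).length)
    ((hT.2.subsingleton_path a c).elim ⟨_, hw⟩ ⟨_, hw'⟩)
  simp at h

/-- On a path with three edges. -/
lemma len_three [Finite V] {T : SimpleGraph V} (hT : T.IsTree) {p : V → E3}
    (hp : IsDrawing T p) {a b c d : V} (hab : T.Adj a b) (hbc : T.Adj b c) (hcd : T.Adj c d)
    (hac : a ≠ c) (hbd : b ≠ d) :
    dist (p a) (p b) ≤ dist (p a) (p d) ∧ dist (p b) (p c) ≤ dist (p a) (p d) ∧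
      dist (p c) (p d) ≤ dist (p a) (p d) := by
  have had : a ≠ d := by
    rintro rfl
    exact no_triangle hT hab hbc hcd.symm
  have hw : (Walk.cons hab (Walk.cons hbc (Walk.cons hcd Walk.nil))).IsPath := by
    simp [Walk.cons_isPath_iff, hab.ne, hbc.ne, hcd.ne, hac, hbd, had]
  exact ⟨len_le hT hp _ hw (by simp), len_le hT hp _ hw (by simp), len_le hT hp _ hw (by simp)⟩

/-- The configuration of two adjacent points `U`, `W` with eleven further neighbours each, and the
distance inequalities of a minimum spanning tree. -/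
structure Cfg (U W : E3) (X Y : Fin 11 → E3) : Prop where
  uw : 0 < dist U W
  ux : ∀ i, 0 < dist U (X i)
  wy : ∀ j, 0 < dist W (Y j)
  xx : ∀ i j, i ≠ j → dist U (X i) ≤ dist (X i) (X j) ∧ dist U (X j) ≤ dist (X i) (X j)
  yy : ∀ i j, i ≠ j → dist W (Y i) ≤ dist (Y i) (Y j) ∧ dist W (Y j) ≤ dist (Y i) (Y j)
  xw : ∀ i, dist U (X i) ≤ dist (X i) W ∧ dist U W ≤ dist (X i) W
  yu : ∀ j, dist W (Y j) ≤ dist U (Y j) ∧ dist U W ≤ dist U (Y j)
  xy : ∀ i j, dist U (X i) ≤ dist (X i) (Y j) ∧ dist U W ≤ dist (X i) (Y j) ∧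
    dist W (Y j) ≤ dist (X i) (Y j)

/-- Eleven further neighbours. -/
lemma exists_nbrs [Fintype V] {T : SimpleGraph V} [DecidableRel T.Adj] {u v : V}
    (hu : 12 ≤ T.degree u) : ∃ f : Fin 11 → V, Function.Injective f ∧ ∀ i, T.Adj u (f i) ∧ f i ≠ v := by
  classical
  have h1 : 11 ≤ ((T.neighborFinset u).erase v).card := by
    have := Finset.pred_card_le_card_erase (s := T.neighborFinset u) (a := v)
    rw [card_neighborFinset_eq_degree] at this
    omega
  obtain ⟨g⟩ : Nonempty (Fin 11 ↪ ((T.neighborFinset u).erase v)) :=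
    Function.Embedding.nonempty_of_card_le (by
      rw [Fintype.card_coe, Fintype.card_fin]; exact h1)
  refine ⟨fun i => (g i : V), fun i j h => g.injective (Subtype.ext h), fun i => ?_⟩
  have := (g i).2
  rw [Finset.mem_erase, mem_neighborFinset] at this
  exact ⟨this.2, this.1⟩

/-- A drawing of a tree with two adjacent vertices of degree at least twelve gives a configuration. -/
theorem exists_cfg [Fintype V] {T : SimpleGraph V} [DecidableRel T.Adj] (hT : T.IsTree)
    {p : V → E3} (hp : IsDrawing T p) {u v : V} (huv : T.Adj u v) (hu : 12 ≤ T.degree u)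
    (hv : 12 ≤ T.degree v) : ∃ (U W : E3) (X Y : Fin 11 → E3), Cfg U W X Y := by
  obtain ⟨f, hf, hf'⟩ := exists_nbrs (v := v) hu
  obtain ⟨g, hg, hg'⟩ := exists_nbrs (v := u) hv
  refine ⟨p u, p v, fun i => p (f i), fun j => p (g j), ?_, ?_, ?_, ?_, ?_, ?_, ?_, ?_⟩
  · exact dist_pos.2 fun h => huv.ne (hp.1 h)
  · exact fun i => dist_pos.2 fun h => (hf' i).1.ne (hp.1 h)
  · exact fun i => dist_pos.2 fun h => (hg' i).1.ne (hp.1 h)
  · intro i j hij
    have h := len_two hT hp (hf' i).1.symm (hf' j).1 fun h => hij (hf h)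
    exact ⟨by rw [dist_comm (p u)]; exact h.1, h.2⟩
  · intro i j hij
    have h := len_two hT hp (hg' i).1.symm (hg' j).1 fun h => hij (hg h)
    exact ⟨by rw [dist_comm (p v)]; exact h.1, h.2⟩
  · intro i
    have h := len_two hT hp (hf' i).1.symm huv (hf' i).2
    exact ⟨by rw [dist_comm (p u)]; exact h.1, h.2⟩
  · intro j
    have h := len_two hT hp huv (hg' j).1 (hg' j).2.symm
    exact ⟨h.2, h.1⟩
  · intro i j
    have h := len_three hT hp (hf' i).1.symm huv (hg' j).1 (hf' i).2 (hg' j).2.symm
    exact ⟨by rw [dist_comm (p u)]; exact h.1, h.2.1, h.2.2⟩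

/-- The double star with `2 + 11 + 11` vertices: `0` and `1` are adjacent, `2, …, 12` are adjacent
to `0`, and `13, …, 23` are adjacent to `1`. -/
def star : SimpleGraph (Fin 24) :=
  SimpleGraph.fromRel fun a b => a = 0 ∧ (b : ℕ) ≤ 12 ∨ a = 1 ∧ 13 ≤ (b : ℕ)

instance : DecidableRel star.Adj := fun a b => by
  unfold star
  rw [SimpleGraph.fromRel_adj]
  infer_instance

lemma star_degree_le (a : Fin 24) : star.degree a ≤ 12 := by
  revert a
  decide +kernel

lemma star_adj : star.Adj 0 1 := by decide +kernel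

lemma star_deg0 : star.degree 0 = 12 := by decide +kernel

lemma star_deg1 : star.degree 1 = 12 := by decide +kernel

lemma star_isTree : star.IsTree := by
  rw [isTree_iff_connected_and_card]
  constructor
  · have h : ∀ a, star.Reachable a 0 := by
      intro a
      have h01 : star.Reachable 1 0 := star_adj.symm.reachable
      by_cases ha : a = 0
      · subst ha; exact Reachable.refl _
      · by_cases hb : (a : ℕ) ≤ 12
        · refine Adj.reachable ?_
          unfold star
          rw [SimpleGraph.fromRel_adj]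
          exact ⟨ha, Or.inr (Or.inl ⟨rfl, hb⟩)⟩
        · refine (Adj.reachable ?_).trans h01
          unfold star
          rw [SimpleGraph.fromRel_adj]
          refine ⟨?_, Or.inr (Or.inr ⟨rfl, by omega⟩)⟩
          rintro rfl
          exact hb (by decide)
    exact ⟨fun a b => (h a).trans (h b).symm⟩
  · have h := star.sum_degrees_eq_twice_card_edges
    have h2 : ∑ v, star.degree v = 46 := by decide +kernel
    rw [h2] at h
    rw [Nat.card_eq_fintype_card, Nat.card_eq_fintype_card, Fintype.card_fin,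
      SimpleGraph.card_edgeSet]
    omega

end Pool.Agent.EMT
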