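import Pool.Agent.EMT.Mst

/-!
# EMT / Words: the tree of words over eleven letters

`tree D`: the vertices are the words of length at most `D` over `Fin 11`, and `i :: w` is adjacent
to `w`.  `Draw D P`: the inequalities which a drawing of `tree D` gives.
-/

set_option autoImplicit false

namespace Pool.Agent.EMT

open SimpleGraph

/-- Words over eleven letters. -/
abbrev Word : Type := List (Fin 11)

/-- The words of length at most `D`. -/
abbrev Wd (D : ℕ) : Type := {l : Word // l.length ≤ D}

instance (D : ℕ) : Finite (Wd D) := (List.finite_length_le (Fin 11) D).to_subtype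

/-- The tree of the words of length at most `D`: the word `i :: w` is adjacent to `w`. -/
def tree (D : ℕ) : SimpleGraph (Wd D) :=
  SimpleGraph.fromRel fun a b => ∃ i : Fin 11, b.1 = i :: a.1

lemma tree_adj {D : ℕ} {a b : Wd D} :
    (tree D).Adj a b ↔ (∃ i : Fin 11, b.1 = i :: a.1) ∨ ∃ i : Fin 11, a.1 = i :: b.1 := by
  unfold tree
  rw [SimpleGraph.fromRel_adj]
  constructor
  · exact fun h => h.2
  · intro h
    refine ⟨?_, h⟩
    rintro rfl
    rcases h with ⟨i, hi⟩ | ⟨i, hi⟩ <;> exact absurd hi.symm (List.cons_ne_self i a.1)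

lemma closed {D : ℕ} {v u x y : Wd D} {i : Fin 11} (hu : u.1 = i :: v.1)
    (hxy : ((tree D).deleteEdges {s(v, u)}).Adj x y) (hx : u.1 <:+ x.1) : u.1 <:+ y.1 := by
  rw [deleteEdges_adj, tree_adj] at hxy
  obtain ⟨⟨j, hj⟩ | ⟨j, hj⟩, h2⟩ := hxy
  · rw [hj]
    exact hx.trans (List.suffix_cons j x.1)
  · rw [hj, List.suffix_cons_iff] at hx
    rcases hx with hx | hx
    · exfalso
      apply h2
      have h3 : u = x := Subtype.ext (hx.trans hj.symm)
      have h4 : v = y := by
        apply Subtype.ext
        rw [hu] at hx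
        exact (List.cons.inj hx).2
      rw [← h3, ← h4]
      exact Sym2.eq_swap
    · exact hx

lemma closed_reach {D : ℕ} {v u x y : Wd D} {i : Fin 11} (hu : u.1 = i :: v.1)
    (hxy : ((tree D).deleteEdges {s(v, u)}).Reachable x y) (hx : u.1 <:+ x.1) : u.1 <:+ y.1 := by
  obtain ⟨w⟩ := hxy
  induction w with
  | nil => exact hx
  | cons h _ ih => exact ih (closed hu h hx)

lemma tree_isTree (D : ℕ) : (tree D).IsTree := by
  constructor
  · have h : ∀ (l : Word) (hl : l.length ≤ D),
        (tree D).Reachable ⟨l, hl⟩ ⟨[], Nat.zero_le D⟩ := by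
      intro l
      induction l with
      | nil => intro _; exact Reachable.refl _
      | cons i l ih =>
        intro hl
        have hl' : l.length ≤ D := by
          rw [List.length_cons] at hl
          omega
        refine Reachable.trans (Adj.reachable ?_) (ih hl')
        rw [tree_adj]
        exact Or.inr ⟨i, rfl⟩
    have : Nonempty (Wd D) := ⟨⟨[], Nat.zero_le D⟩⟩
    exact ⟨fun a b => (h a.1 a.2).trans (h b.1 b.2).symm⟩
  · rw [isAcyclic_iff_forall_adj_isBridge]
    have key : ∀ (v u : Wd D) (i : Fin 11), u.1 = i :: v.1 →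
        ¬ ((tree D).deleteEdges {s(v, u)}).Reachable u v := by
      intro v u i hu hr
      have h := closed_reach hu hr (List.suffix_refl _)
      have h2 := h.length_le
      rw [hu, List.length_cons] at h2
      omega
    intro v u h
    rw [isBridge_iff]
    rw [tree_adj] at h
    rcases h with ⟨i, hi⟩ | ⟨i, hi⟩
    · exact fun hr => key v u i hi hr.symm
    · intro hr
      rw [Sym2.eq_swap] at hr
      exact key u v i hi hr

/-- The inequalities of a drawing of `tree D`. -/
structure Draw (D : ℕ) (P : Word → E3) : Prop where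
  pos : ∀ (i : Fin 11) (w : Word), w.length + 1 ≤ D → 0 < dist (P w) (P (i :: w))
  sep : ∀ (i : Fin 11) (w a b : Word), w.length + 1 ≤ D → a.length ≤ D → b.length ≤ D →
    i :: w <:+ a → ¬ i :: w <:+ b → dist (P w) (P (i :: w)) ≤ dist (P a) (P b)

/-- A drawing of `tree D` gives `Draw`. -/
theorem exists_draw {D : ℕ} {p : Wd D → E3} (hp : IsDrawing (tree D) p) :
    ∃ P : Word → E3, Draw D P := by
  classical
  refine ⟨fun l => if h : l.length ≤ D then p ⟨l, h⟩ else 0, ?_, ?_⟩
  · intro i w hw
    have h1 : w.length ≤ D := by omega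
    have h2 : (i :: w).length ≤ D := by rw [List.length_cons]; exact hw
    simp only [h1, h2, dif_pos]
    apply dist_pos.2
    intro h
    have := congrArg Subtype.val (hp.1 h)
    exact absurd this.symm (List.cons_ne_self i w)
  · intro i w a b hw ha hb hia hib
    have h1 : w.length ≤ D := by omega
    have h2 : (i :: w).length ≤ D := by rw [List.length_cons]; exact hw
    simp only [h1, h2, ha, hb, dif_pos]
    refine len_le_of_not_reachable (tree_isTree D) hp ?_ ?_
    · rw [tree_adj]
      exact Or.inl ⟨i, rfl⟩
    · intro hr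
      exact hib (closed_reach (i := i) rfl hr hia)

end Pool.Agent.EMT
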